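import Pool.Agent.Lib.LocalCoh.Steps
import Mathlib.Algebra.Category.ModuleCat.ChangeOfRings
import Mathlib.Tactic.LinearCombination

/-!
Ring theoretic criteria for injectivity and non-injectivity of Frobenius on local cohomology
in characteristic two.
-/

set_option autoImplicit false

open CategoryTheory Pool.Agent.Lib.LocalCoh

noncomputable section

namespace Pool.Agent.Work.MP_34c70a_al

variable {A : Type} [CommRing A]

/-- A ring viewed as a module through a ring homomorphism. -/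
abbrev Md {C : Type} [CommRing C] (ρ : A →+* C) : ModuleCat.{0} A :=
  (ModuleCat.restrictScalars ρ).obj (ModuleCat.of C C)

/-- Morphisms between such modules. -/
def mkH {C D : Type} [CommRing C] [CommRing D] (ρ : A →+* C) (σ : A →+* D) (g : C →+ D)
    (h : ∀ r c, g (ρ r * c) = σ r * g c) : Md ρ ⟶ Md σ :=
  ModuleCat.ofHom (X := Md ρ) (Y := Md σ)
    { toFun := g
      map_add' := g.map_add
      map_smul' := h }

/-- Morphisms out of such a module. -/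
def mkT {C : Type} [CommRing C] (ρ : A →+* C) (N : ModuleCat.{0} A) (g : C →+ N)
    (h : ∀ r c, g (ρ r * c) = r • g c) : Md ρ ⟶ N :=
  ModuleCat.ofHom (X := Md ρ) (Y := N)
    { toFun := g
      map_add' := g.map_add
      map_smul' := h }

/-- The structure map. -/
def mk0 {C : Type} [CommRing C] (ρ : A →+* C) : ModuleCat.of A A ⟶ Md ρ :=
  ModuleCat.ofHom (X := A) (Y := Md ρ)
    { toFun := ρ
      map_add' := ρ.map_add
      map_smul' := ρ.map_mul }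

/-- Squaring in characteristic two. -/
def sqH {C : Type} [CommRing C] (h2 : (2 : C) = 0) : C →+ C where
  toFun x := x ^ 2
  map_zero' := by ring
  map_add' x y := by linear_combination (x * y) * h2

lemma two_eq_zero {C : Type} [CommRing C] (ρ : A →+* C) (h2 : (2 : A) = 0) : (2 : C) = 0 := by
  rw [← map_ofNat ρ 2, h2, map_zero]

/-- The Frobenius of a ring as a module map. -/
def frH {C : Type} [CommRing C] (h2 : (2 : A) = 0) (F : A →+* A) (hF : ∀ x, F x = x ^ 2)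
    (ρ : A →+* C) : Md ρ ⟶ Md (ρ.comp F) :=
  mkH ρ (ρ.comp F) (sqH (two_eq_zero ρ h2)) (fun r c => by
    change (ρ r * c) ^ 2 = ρ (F r) * c ^ 2
    rw [hF, map_pow, mul_pow])

/-- Regular sequences of length two in a ring. -/
def R2 {C : Type} [CommRing C] (a b : C) : Prop :=
  (∀ m, a * m = 0 → m = 0) ∧ ∀ m m₁, b * m = a * m₁ → ∃ n₁, m = a * n₁

/-- Regular sequences of length three in a ring. -/
def R3 {C : Type} [CommRing C] (a b c : C) : Prop :=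
  R2 a b ∧ ∀ m m₁ m₂, c * m = a * m₁ + b * m₂ → ∃ n₁ n₂, m = a * n₁ + b * n₂

lemma R2.sq {C : Type} [CommRing C] {a b : C} (h : R2 a b) : R2 (a ^ 2) (b ^ 2) := by
  have key : ∀ m m₁, b ^ 2 * m = a * m₁ → ∃ n₁, m = a * n₁ := by
    intro m m₁ e
    obtain ⟨n, hn⟩ := h.2 (b * m) m₁ (by linear_combination e)
    exact h.2 m n hn
  refine ⟨fun m hm => h.1 _ (h.1 _ (by linear_combination hm)), fun m m₁ e => ?_⟩
  obtain ⟨n, rfl⟩ := key m (a * m₁) (by linear_combination e)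
  have e2 : b ^ 2 * n - a * m₁ = 0 := h.1 _ (by linear_combination e)
  obtain ⟨n', rfl⟩ := key n m₁ (by linear_combination e2)
  exact ⟨n', by ring⟩

theorem finj_of {S S' : Type} [CommRing S] [IsNoetherianRing S] [CommRing S'] (J : Ideal S)
    (h2 : (2 : S) = 0) (ι : S →+* S') (hι : Function.Injective ι) (a b : S) (ha : a ∈ J)
    (hb : b ∈ J) (hred : ∀ s : S, s ^ 2 = 0 → s = 0) (hreg : R2 (ι a) (ι b))
    (hrefl : ∀ u m₁ m₂ : S', u ^ 2 = ι a ^ 2 * m₁ + ι b ^ 2 * m₂ →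
      ∃ n₁ n₂, u = ι a * n₁ + ι b * n₂)
    (htors : ∀ r ∈ J, ∃ s₁ s₂ : S', ι r ^ 2 = ι a * s₁ + ι b * s₂)
    (hsq : ∀ (v : S') (s : S), ι s = v ^ 2 → ∃ s', ι s' = v)
    (hcok : ∀ (v : S'), ∀ r ∈ J, ∃ s, ι r * v = ι s)
    (F : S →+* S) (hF : ∀ x, F x = x ^ 2)
    (φ : ModuleCat.of S S ⟶ (ModuleCat.restrictScalars F).obj (ModuleCat.of S S))
    (hφ : ∀ x : S, φ.hom x = F x) (i : ℕ) : Inj J i φ := by
  let f : ModuleCat.of S S ⟶ Md ι := mk0 ι
  let f' : Md F ⟶ Md (ι.comp F) := mkH F (ι.comp F) ι.toAddMonoidHom (fun r c => ι.map_mul _ _)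
  have hf : Function.Injective f.hom := hι
  have hf' : Function.Injective f'.hom := hι
  have hsqr : φ ≫ f' = f ≫ frH h2 F hF ι := by
    apply ModuleCat.hom_ext
    apply LinearMap.ext
    intro x
    change ι (φ.hom x) = ι x ^ 2
    rw [hφ, hF, map_pow]
  have r1 : Reg2 a b (Md ι) := hreg
  have r2 : Reg2 a b (Md (ι.comp F)) := by
    have h := hreg.sq
    rw [← map_pow, ← map_pow, ← hF, ← hF] at h
    exact h
  have hc : ∀ n, Van J (n + 1) (Cok f) := van_cok_tors J f (fun y r hr => by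
    obtain ⟨s, hs⟩ := hcok y r hr
    exact ⟨1, s, by rw [pow_one]; exact hs⟩)
  match i with
  | 0 =>
    apply H0_inj
    rw [injective_iff_map_eq_zero]
    intro x hx
    rw [hφ, hF] at hx
    exact hred x hx
  | 1 =>
    refine inj_delta J (cokSE f hf) (cokSE f' hf') (cokHom f f' φ _ hsqr) (van1 J ha hb r1)
      (van0 J ha r2.1) ?_
    exact H0_inj J _ (cokMap_inj f f' φ _ hsqr (fun y x' hx' => hsq y x' hx'))
  | 2 =>
    refine inj_of_sq J hsqr (inj_sub J (cokSE f hf) (hc 0)) (inj2 J ha hb _ r1 r2 ?_)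
    intro m m₁ m₂ e
    refine hrefl m m₁ m₂ ?_
    rw [← map_pow, ← map_pow, ← hF, ← hF]
    exact e
  | n + 3 =>
    apply inj_of_van
    refine van_of_inj J (inj_sub J (cokSE f hf) (hc (n + 1))) (vanTop2 J ha hb r1 ?_ n)
    intro (m : S') r hr
    obtain ⟨s₁, s₂, e⟩ := htors r hr
    refine ⟨2, (s₁ * m : S'), (s₂ * m : S'), ?_⟩
    change ι (r ^ 2) * m = ι a * (s₁ * m) + ι b * (s₂ * m)
    rw [map_pow, e]
    ring

theorem not_finj_of {R R' B D O : Type} [CommRing R] [IsNoetherianRing R] [CommRing R']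
    [CommRing B] [CommRing D] [CommRing O] (J : Ideal R) (h2 : (2 : R) = 0)
    (ι : R →+* R') (hι : Function.Injective ι) (i : R' →+* B) (hi : Function.Injective i)
    (e₁ e₂ : B →+* D) (he : ∀ y, e₁ y = e₂ y ↔ ∃ x, i x = y)
    (c₀ : R →+* O) (κ : O →+* D) (τ : D) (t : O) (cb : D →+ O)
    (W x f : R) (hW : W ∈ J) (hx : x ∈ J) (hf : f ∈ J)
    (hB : R3 (i (ι W)) (i (ι x)) (i (ι f))) (hD : R2 (e₁ (i (ι x))) (e₁ (i (ι f))))
    (hsat : ∀ (y : R') (r : R), ι r = ι f * y → ∃ r', ι r' = y)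
    (htors : ∀ (y : R'), ∀ r ∈ J, ∃ y₁ r', ι r * y = ι f * y₁ + ι r')
    (hO : ∀ m, c₀ f * m = 0 → m = 0) (hOJ : ∀ r ∈ J, ∃ m, c₀ r = c₀ f * m)
    (hO1 : ∀ m, c₀ f * m ≠ 1)
    (hN : ∀ (r : R) (d : D), ∃ y, e₁ y - e₂ y = (e₁ (i (ι r)) - κ (c₀ r)) * d)
    (hN2 : ∀ m, ∃ y, e₁ y - e₂ y = κ (c₀ f ^ 2 * m))
    (hcb : ∀ y, cb (e₁ y - e₂ y) = 0) (hcb2 : ∀ r d, cb (e₁ (i (ι r)) * d) = c₀ r * cb d)
    (hcb3 : ∀ m, cb (κ m * τ) = m) (hτ : τ ^ 2 = κ t + κ (c₀ f) ^ 2 * τ)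
    (F : R →+* R) (hF : ∀ x, F x = x ^ 2)
    (φ : ModuleCat.of R R ⟶ (ModuleCat.restrictScalars F).obj (ModuleCat.of R R))
    (hφ : ∀ x : R, φ.hom x = F x) : ¬ Inj J 3 φ := by
  intro h3
  let ρB : R →+* B := i.comp ι
  let ρD : R →+* D := e₁.comp ρB
  have hD2 : (2 : D) = 0 := two_eq_zero ρD h2
  have hee : ∀ r : R, e₂ (i (ι r)) = e₁ (i (ι r)) := fun r => ((he _).2 ⟨_, rfl⟩).symm
  let u : ModuleCat.of R R ⟶ Md ι := mk0 ι
  let u' : Md F ⟶ Md (ι.comp F) := mkH F (ι.comp F) ι.toAddMonoidHom (fun r c => ι.map_mul _ _)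
  have hu : Function.Injective u.hom := hι
  have hu' : Function.Injective u'.hom := hι
  have hsqr : φ ≫ u' = u ≫ frH h2 F hF ι := by
    apply ModuleCat.hom_ext
    apply LinearMap.ext
    intro x
    change ι (φ.hom x) = ι x ^ 2
    rw [hφ, hF, map_pow]
  have v3 : Van J 3 (Cok u) := vanTop1_cok J hf u (fun y r e => hsat y r e) (fun y r hr => by
    obtain ⟨y₁, r', e⟩ := htors y r hr
    exact ⟨1, y₁, r', by rw [pow_one]; exact e⟩) 1
  have v2 : Van J 2 (Cok u') := vanTop1_cok J hf u' (fun (y : R') (r : R) e => by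
      have e' : ι r = ι (F f) * y := e
      rw [hF, map_pow] at e'
      obtain ⟨r', hr'⟩ := hsat (ι f * y) r (by linear_combination e')
      exact hsat y r' hr') (fun (y : R') r hr => by
      obtain ⟨y₁, r₁, e₁⟩ := htors y r hr
      obtain ⟨y₂, r₂, e₂⟩ := htors y₁ r hr
      refine ⟨1, y₂, (f * r₂ + r * r₁ : R), ?_⟩
      change ι (F (r ^ 1)) * y = ι (F f) * y₂ + ι (f * r₂ + r * r₁)
      rw [pow_one, hF, hF, map_pow, map_pow, map_add, map_mul, map_mul]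
      linear_combination ι r * e₁ + ι f * e₂) 0
  have h3' : Inj J 3 (frH h2 F hF ι) :=
    inj_lift J (cokSE u hu) (cokSE u' hu') (cokHom u u' φ _ hsqr) v3 v2 h3
  let Ψ₀ : B →+ D := e₁.toAddMonoidHom - e₂.toAddMonoidHom
  have hΨ : ∀ (r : R) (y : B), Ψ₀ (i (ι r) * y) = e₁ (i (ι r)) * Ψ₀ y := by
    intro r y
    change e₁ (i (ι r) * y) - e₂ (i (ι r) * y) = e₁ (i (ι r)) * (e₁ y - e₂ y)
    rw [map_mul, map_mul, hee]
    ring
  let g : Md ι ⟶ Md ρB := mkH ι ρB i.toAddMonoidHom (fun r c => i.map_mul _ _)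
  let g' : Md (ι.comp F) ⟶ Md (ρB.comp F) :=
    mkH _ _ i.toAddMonoidHom (fun r c => i.map_mul _ _)
  let Ψ : Md ρB ⟶ Md ρD := mkH _ _ Ψ₀ (fun r c => hΨ r c)
  let Ψ' : Md (ρB.comp F) ⟶ Md (ρD.comp F) := mkH _ _ Ψ₀ (fun r c => hΨ (F r) c)
  have s₁ : frH h2 F hF ι ≫ g' = g ≫ frH h2 F hF ρB := by
    apply ModuleCat.hom_ext
    apply LinearMap.ext
    intro (x : R')
    exact i.map_pow x 2
  have s₂ : frH h2 F hF ρB ≫ Ψ' = Ψ ≫ frH h2 F hF ρD := by
    apply ModuleCat.hom_ext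
    apply LinearMap.ext
    intro (y : B)
    change e₁ (y ^ 2) - e₂ (y ^ 2) = (e₁ y - e₂ y) ^ 2
    rw [map_pow, map_pow]
    linear_combination (e₁ y * e₂ y - e₂ y ^ 2) * hD2
  have hex : ∀ y : B, Ψ₀ y = 0 ↔ ∃ x, i x = y := fun y => by
    rw [← he]
    exact sub_eq_zero
  have h1 : Inj J 1 (cokMap Ψ Ψ' _ _ s₂) :=
    inj_push2 J g Ψ g' Ψ' _ _ _ s₁ s₂ hi hi hex hex (van2 J hW hx hf (M := Md ρB) hB)
      (van1 J hx hf (M := Md ρD) hD) h3'
  let j : Md c₀ ⟶ Cok Ψ := mkT c₀ (Cok Ψ)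
    { toFun := fun m => (cokπ Ψ).hom (κ m * τ : D)
      map_zero' := by
        rw [map_zero, zero_mul]
        exact map_zero _
      map_add' := fun m n => by
        rw [map_add, add_mul]
        exact map_add (cokπ Ψ).hom (κ m * τ : D) (κ n * τ : D) }
    (fun r m => by
      change (cokπ Ψ).hom (κ (c₀ r * m) * τ : D) = r • (cokπ Ψ).hom (κ m * τ : D)
      rw [← map_smul, eq_comm, ← sub_eq_zero, ← map_sub, cokπ_eq_zero]
      obtain ⟨y, hy⟩ := hN r (κ m * τ)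
      refine ⟨y, ?_⟩
      change e₁ y - e₂ y = e₁ (i (ι r)) * (κ m * τ) - κ (c₀ r * m) * τ
      rw [hy, map_mul]
      ring)
  let c : Cok Ψ ⟶ Md c₀ := ModuleCat.ofHom (Y := Md c₀) (Submodule.liftQ _
    (mkH ρD c₀ cb (fun r d => hcb2 r d)).hom (by
      rintro _ ⟨y, rfl⟩
      exact hcb y))
  let G : Md c₀ ⟶ Cok Ψ' := mkT c₀ (Cok Ψ')
    { toFun := fun m => (cokπ Ψ').hom (κ m ^ 2 * τ : D)
      map_zero' := by
        rw [map_zero, zero_pow two_ne_zero, zero_mul]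
        exact map_zero _
      map_add' := fun m n => by
        have : (κ (m + n) ^ 2 * τ : D) = κ m ^ 2 * τ + κ n ^ 2 * τ := by
          rw [map_add]
          linear_combination (κ m * κ n * τ) * hD2
        rw [this]
        exact map_add (cokπ Ψ').hom (κ m ^ 2 * τ : D) (κ n ^ 2 * τ : D) }
    (fun r m => by
      change (cokπ Ψ').hom (κ (c₀ r * m) ^ 2 * τ : D) = r • (cokπ Ψ').hom (κ m ^ 2 * τ : D)
      rw [← map_smul, eq_comm, ← sub_eq_zero, ← map_sub, cokπ_eq_zero]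
      obtain ⟨y, hy⟩ := hN (r ^ 2) (κ m ^ 2 * τ)
      have key : e₁ y - e₂ y = e₁ (i (ι (F r))) * (κ m ^ 2 * τ) - κ (c₀ r * m) ^ 2 * τ := by
        rw [hy, map_mul, hF, map_pow c₀, map_pow κ]
        ring
      exact ⟨y, key⟩)
  refine not_inj1 J hf (O := Md c₀) hO (fun (m : O) r hr => ?_) (1 : O) hO1 j c ?_ _ G ?_ h1
  · obtain ⟨m₁, e⟩ := hOJ r hr
    refine ⟨1, (m₁ * m : O), ?_⟩
    change c₀ (r ^ 1) * m = c₀ f * (m₁ * m)
    rw [pow_one, e, mul_assoc]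
  · apply ModuleCat.hom_ext
    apply LinearMap.ext
    intro (m : O)
    exact hcb3 m
  · intro (m : O) r hr
    obtain ⟨m₁, e⟩ := hOJ r hr
    refine ⟨1, ?_⟩
    change r ^ 1 • ((cokπ Ψ').hom ((κ m * τ) ^ 2 : D) -
      (cokπ Ψ').hom (κ (c₀ f * m) ^ 2 * τ : D)) = 0
    rw [pow_one, ← map_sub, ← map_smul, cokπ_eq_zero]
    obtain ⟨y, hy⟩ := hN (r ^ 2) (κ (m ^ 2 * t))
    obtain ⟨y', hy'⟩ := hN2 (m₁ ^ 2 * m ^ 2 * t)
    have key : e₁ (y + y') - e₂ (y + y') =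
        e₁ (i (ι (F r))) * ((κ m * τ) ^ 2 - κ (c₀ f * m) ^ 2 * τ) := by
      rw [hF, map_add, map_add, mul_pow, hτ]
      rw [map_pow c₀, e] at hy
      simp only [map_mul, map_pow] at hy hy' ⊢
      linear_combination hy + hy'
    exact ⟨(y + y' : B), key⟩

end Pool.Agent.Work.MP_34c70a_al
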