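import Pool.Agent.Work.MP_34c70a_al.Series
import Mathlib.Algebra.CharP.Lemmas
import Mathlib.Algebra.CharP.Frobenius

/-!
Ring theoretic criteria for injectivity and non-injectivity of Frobenius on local cohomology
in an arbitrary prime characteristic.
-/

set_option autoImplicit false

open CategoryTheory Pool.Agent.Lib.LocalCoh

noncomputable section

namespace Pool.Agent.Work.MP_34c70a_al

variable {A : Type} [CommRing A] {p : ℕ}

lemma cast_eq_zero {C : Type} [CommRing C] (ρ : A →+* C) (h : (p : A) = 0) : (p : C) = 0 := by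
  rw [← map_natCast ρ p, h, map_zero]

lemma add_pow_p {C : Type} [CommRing C] (hp : p.Prime) (h : (p : C) = 0) (x y : C) :
    (x + y) ^ p = x ^ p + y ^ p := by
  obtain ⟨r, hr⟩ := exists_add_pow_prime_eq hp x y
  rw [hr, h]; ring

lemma sub_pow_p {C : Type} [CommRing C] (hp : p.Prime) (h : (p : C) = 0) (x y : C) :
    (x - y) ^ p = x ^ p - y ^ p := by
  have := add_pow_p hp h (x - y) y
  rw [sub_add_cancel] at this
  linear_combination -this

/-- The `p`-th power map. -/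
def pwH {C : Type} [CommRing C] (hp : p.Prime) (h : (p : C) = 0) : C →+ C where
  toFun x := x ^ p
  map_zero' := zero_pow hp.ne_zero
  map_add' := add_pow_p hp h

/-- The Frobenius of a ring as a module map. -/
def frP {C : Type} [CommRing C] (hp : p.Prime) (h : (p : A) = 0) (F : A →+* A)
    (hF : ∀ x, F x = x ^ p) (ρ : A →+* C) : Md ρ ⟶ Md (ρ.comp F) :=
  mkH ρ (ρ.comp F) (pwH hp (cast_eq_zero ρ h)) (fun r c => by
    change (ρ r * c) ^ p = ρ (F r) * c ^ p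
    rw [hF, map_pow, mul_pow])

lemma R2.pow {C : Type} [CommRing C] {a b : C} (h : R2 a b) (n : ℕ) : R2 (a ^ n) (b ^ n) := by
  have key : ∀ (n : ℕ) m m₁, b ^ n * m = a * m₁ → ∃ n₁, m = a * n₁ := by
    intro n
    induction n with
    | zero => intro m m₁ e; exact ⟨m₁, by simpa using e⟩
    | succ n ih =>
      intro m m₁ e
      obtain ⟨k, hk⟩ := ih (b * m) m₁ (by rw [← e]; ring)
      exact h.2 m k hk
  have reg : ∀ (k : ℕ) m, a ^ k * m = 0 → m = 0 := by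
    intro k
    induction k with
    | zero => intro m e; simpa using e
    | succ k ih => intro m e; exact h.1 _ (ih _ (by rw [← e]; ring))
  have key2 : ∀ (k : ℕ) m m₁, b ^ n * m = a ^ k * m₁ → ∃ n₁, m = a ^ k * n₁ := by
    intro k
    induction k with
    | zero => intro m m₁ _; exact ⟨m, by simp⟩
    | succ k ih =>
      intro m m₁ e
      obtain ⟨r, rfl⟩ := ih m (a * m₁) (by rw [e]; ring)
      have e2 : b ^ n * r - a * m₁ = 0 := reg k _ (by linear_combination e)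
      obtain ⟨r', rfl⟩ := key n r m₁ (by linear_combination e2)
      exact ⟨r', by ring⟩
  exact ⟨reg n, key2 n⟩

theorem finj_ofP {S S' : Type} [CommRing S] [IsNoetherianRing S] [CommRing S'] (J : Ideal S)
    (hp : p.Prime) (h2 : (p : S) = 0) (ι : S →+* S') (hι : Function.Injective ι) (a b : S)
    (ha : a ∈ J) (hb : b ∈ J) (hred : ∀ s : S, s ^ p = 0 → s = 0) (hreg : R2 (ι a) (ι b))
    (hrefl : ∀ u m₁ m₂ : S', u ^ p = ι a ^ p * m₁ + ι b ^ p * m₂ →
      ∃ n₁ n₂, u = ι a * n₁ + ι b * n₂)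
    (htors : ∀ r ∈ J, ∃ s₁ s₂ : S', ι r ^ 2 = ι a * s₁ + ι b * s₂)
    (hsq : ∀ (v : S') (s : S), ι s = v ^ p → ∃ s', ι s' = v)
    (hcok : ∀ (v : S'), ∀ r ∈ J, ∃ s, ι r * v = ι s)
    (F : S →+* S) (hF : ∀ x, F x = x ^ p)
    (φ : ModuleCat.of S S ⟶ (ModuleCat.restrictScalars F).obj (ModuleCat.of S S))
    (hφ : ∀ x : S, φ.hom x = F x) (i : ℕ) : Inj J i φ := by
  let f : ModuleCat.of S S ⟶ Md ι := mk0 ι
  let f' : Md F ⟶ Md (ι.comp F) := mkH F (ι.comp F) ι.toAddMonoidHom (fun r c => ι.map_mul _ _)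
  have hf : Function.Injective f.hom := hι
  have hf' : Function.Injective f'.hom := hι
  have hsqr : φ ≫ f' = f ≫ frP hp h2 F hF ι := by
    apply ModuleCat.hom_ext
    apply LinearMap.ext
    intro x
    change ι (φ.hom x) = ι x ^ p
    rw [hφ, hF, map_pow]
  have r1 : Reg2 a b (Md ι) := hreg
  have r2 : Reg2 a b (Md (ι.comp F)) := by
    have h := hreg.pow p
    rw [← map_pow, ← map_pow, ← hF, ← hF] at h
    exact h
  have hc : ∀ n, Van J (n + 1) (Cok f) := van_cok_tors J f (fun y r hr => by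
    obtain ⟨s, hs⟩ := hcok y r hr
    exact ⟨1, s, by rw [pow_one]; exact hs⟩)
  match i with
  | 0 =>
    apply H0_inj
    rw [injective_iff_map_eq_zero]
    intro x hx
    rw [hφ, hF] at hx
    exact hred x hx
  | 1 =>
    refine inj_delta J (cokSE f hf) (cokSE f' hf') (cokHom f f' φ _ hsqr) (van1 J ha hb r1)
      (van0 J ha r2.1) ?_
    exact H0_inj J _ (cokMap_inj f f' φ _ hsqr (fun y x' hx' => hsq y x' hx'))
  | 2 =>
    refine inj_of_sq J hsqr (inj_sub J (cokSE f hf) (hc 0)) (inj2 J ha hb _ r1 r2 ?_)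
    intro m m₁ m₂ e
    refine hrefl m m₁ m₂ ?_
    rw [← map_pow, ← map_pow, ← hF, ← hF]
    exact e
  | n + 3 =>
    apply inj_of_van
    refine van_of_inj J (inj_sub J (cokSE f hf) (hc (n + 1))) (vanTop2 J ha hb r1 ?_ n)
    intro (m : S') r hr
    obtain ⟨s₁, s₂, e⟩ := htors r hr
    refine ⟨2, (s₁ * m : S'), (s₂ * m : S'), ?_⟩
    change ι (r ^ 2) * m = ι a * (s₁ * m) + ι b * (s₂ * m)
    rw [map_pow, e]
    ring

theorem not_finj_ofP {R R' B D O : Type} [CommRing R] [IsNoetherianRing R] [CommRing R']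
    [CommRing B] [CommRing D] [CommRing O] (J : Ideal R) (hp : p.Prime) (h2 : (p : R) = 0)
    (ι : R →+* R') (hι : Function.Injective ι) (i : R' →+* B) (hi : Function.Injective i)
    (e₁ e₂ : B →+* D) (he : ∀ y, e₁ y = e₂ y ↔ ∃ x, i x = y)
    (c₀ : R →+* O) (κ : O →+* D) (τ : D) (η : O) (N : ℕ) (cb : D →+ O)
    (W x f : R) (hW : W ∈ J) (hx : x ∈ J) (hf : f ∈ J)
    (hB : R3 (i (ι W)) (i (ι x)) (i (ι f))) (hD : R2 (e₁ (i (ι x))) (e₁ (i (ι f))))
    (hsat : ∀ (y : R') (r : R), ι r = ι f * y → ∃ r', ι r' = y)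
    (htors : ∀ (y : R'), ∀ r ∈ J, ∃ y₁ r', ι r * y = ι f * y₁ + ι r')
    (hO : ∀ m, c₀ f * m = 0 → m = 0) (hOJ : ∀ r ∈ J, ∃ m, c₀ r = c₀ f * m)
    (hO1 : ∀ m, c₀ f * m ≠ 1)
    (hN : ∀ (r : R) (d : D), ∃ y, e₁ y - e₂ y = (e₁ (i (ι r)) - κ (c₀ r)) * d)
    (hN2 : ∀ m, ∃ y, e₁ y - e₂ y = κ (c₀ f ^ N * m) * (τ ^ p - κ (c₀ f ^ p * η) * τ))
    (hcb : ∀ y, cb (e₁ y - e₂ y) = 0) (hcb2 : ∀ r d, cb (e₁ (i (ι r)) * d) = c₀ r * cb d)
    (hcb3 : ∀ m, cb (κ m * τ) = m)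
    (F : R →+* R) (hF : ∀ x, F x = x ^ p)
    (φ : ModuleCat.of R R ⟶ (ModuleCat.restrictScalars F).obj (ModuleCat.of R R))
    (hφ : ∀ x : R, φ.hom x = F x) : ¬ Inj J 3 φ := by
  intro h3
  let ρB : R →+* B := i.comp ι
  let ρD : R →+* D := e₁.comp ρB
  have hD2 : (p : D) = 0 := cast_eq_zero ρD h2
  have hee : ∀ r : R, e₂ (i (ι r)) = e₁ (i (ι r)) := fun r => ((he _).2 ⟨_, rfl⟩).symm
  let u : ModuleCat.of R R ⟶ Md ι := mk0 ι
  let u' : Md F ⟶ Md (ι.comp F) := mkH F (ι.comp F) ι.toAddMonoidHom (fun r c => ι.map_mul _ _)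
  have hu : Function.Injective u.hom := hι
  have hu' : Function.Injective u'.hom := hι
  have hsqr : φ ≫ u' = u ≫ frP hp h2 F hF ι := by
    apply ModuleCat.hom_ext
    apply LinearMap.ext
    intro x
    change ι (φ.hom x) = ι x ^ p
    rw [hφ, hF, map_pow]
  have hsatn : ∀ (n : ℕ) (y : R') (r : R), ι r = ι f ^ n * y → ∃ r', ι r' = y := by
    intro n
    induction n with
    | zero => intro y r e; exact ⟨r, by simpa using e⟩
    | succ n ih =>
      intro y r e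
      obtain ⟨r', hr'⟩ := ih (ι f * y) r (by rw [e]; ring)
      exact hsat y r' hr'
  have htorsn : ∀ (n : ℕ) (y : R'), ∀ r ∈ J, ∃ y₁ r', ι r ^ n * y = ι f ^ n * y₁ + ι r' := by
    intro n
    induction n with
    | zero => intro y r _; exact ⟨y, 0, by simp⟩
    | succ n ih =>
      intro y r hr
      obtain ⟨y₁, r₁, e₁⟩ := ih y r hr
      obtain ⟨y₂, r₂, e₂⟩ := htors y₁ r hr
      refine ⟨y₂, f ^ n * r₂ + r * r₁, ?_⟩
      rw [map_add, map_mul, map_mul, map_pow]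
      linear_combination ι r * e₁ + ι f ^ n * e₂
  have v3 : Van J 3 (Cok u) := vanTop1_cok J hf u (fun y r e => hsat y r e) (fun y r hr => by
    obtain ⟨y₁, r', e⟩ := htors y r hr
    exact ⟨1, y₁, r', by rw [pow_one]; exact e⟩) 1
  have v2 : Van J 2 (Cok u') := vanTop1_cok J hf u' (fun (y : R') (r : R) e => by
      have e' : ι r = ι (F f) * y := e
      rw [hF, map_pow] at e'
      exact hsatn p y r e') (fun (y : R') r hr => by
      obtain ⟨y₁, r₁, e₁⟩ := htorsn p y r hr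
      refine ⟨1, y₁, (r₁ : R), ?_⟩
      change ι (F (r ^ 1)) * y = ι (F f) * y₁ + ι r₁
      rw [pow_one, hF, hF, map_pow, map_pow]
      exact e₁) 0
  have h3' : Inj J 3 (frP hp h2 F hF ι) :=
    inj_lift J (cokSE u hu) (cokSE u' hu') (cokHom u u' φ _ hsqr) v3 v2 h3
  let Ψ₀ : B →+ D := e₁.toAddMonoidHom - e₂.toAddMonoidHom
  have hΨ : ∀ (r : R) (y : B), Ψ₀ (i (ι r) * y) = e₁ (i (ι r)) * Ψ₀ y := by
    intro r y
    change e₁ (i (ι r) * y) - e₂ (i (ι r) * y) = e₁ (i (ι r)) * (e₁ y - e₂ y)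
    rw [map_mul, map_mul, hee]
    ring
  let g : Md ι ⟶ Md ρB := mkH ι ρB i.toAddMonoidHom (fun r c => i.map_mul _ _)
  let g' : Md (ι.comp F) ⟶ Md (ρB.comp F) :=
    mkH _ _ i.toAddMonoidHom (fun r c => i.map_mul _ _)
  let Ψ : Md ρB ⟶ Md ρD := mkH _ _ Ψ₀ (fun r c => hΨ r c)
  let Ψ' : Md (ρB.comp F) ⟶ Md (ρD.comp F) := mkH _ _ Ψ₀ (fun r c => hΨ (F r) c)
  have s₁ : frP hp h2 F hF ι ≫ g' = g ≫ frP hp h2 F hF ρB := by
    apply ModuleCat.hom_ext
    apply LinearMap.ext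
    intro (x : R')
    exact i.map_pow x p
  have s₂ : frP hp h2 F hF ρB ≫ Ψ' = Ψ ≫ frP hp h2 F hF ρD := by
    apply ModuleCat.hom_ext
    apply LinearMap.ext
    intro (y : B)
    change e₁ (y ^ p) - e₂ (y ^ p) = (e₁ y - e₂ y) ^ p
    rw [map_pow, map_pow, sub_pow_p hp hD2]
  have hex : ∀ y : B, Ψ₀ y = 0 ↔ ∃ x, i x = y := fun y => by
    rw [← he]
    exact sub_eq_zero
  have h1 : Inj J 1 (cokMap Ψ Ψ' _ _ s₂) :=
    inj_push2 J g Ψ g' Ψ' _ _ _ s₁ s₂ hi hi hex hex (van2 J hW hx hf (M := Md ρB) hB)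
      (van1 J hx hf (M := Md ρD) hD) h3'
  let j : Md c₀ ⟶ Cok Ψ := mkT c₀ (Cok Ψ)
    { toFun := fun m => (cokπ Ψ).hom (κ m * τ : D)
      map_zero' := by
        rw [map_zero, zero_mul]
        exact map_zero _
      map_add' := fun m n => by
        rw [map_add, add_mul]
        exact map_add (cokπ Ψ).hom (κ m * τ : D) (κ n * τ : D) }
    (fun r m => by
      change (cokπ Ψ).hom (κ (c₀ r * m) * τ : D) = r • (cokπ Ψ).hom (κ m * τ : D)
      rw [← map_smul, eq_comm, ← sub_eq_zero, ← map_sub, cokπ_eq_zero]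
      obtain ⟨y, hy⟩ := hN r (κ m * τ)
      refine ⟨y, ?_⟩
      change e₁ y - e₂ y = e₁ (i (ι r)) * (κ m * τ) - κ (c₀ r * m) * τ
      rw [hy, map_mul]
      ring)
  let c : Cok Ψ ⟶ Md c₀ := ModuleCat.ofHom (Y := Md c₀) (Submodule.liftQ _
    (mkH ρD c₀ cb (fun r d => hcb2 r d)).hom (by
      rintro _ ⟨y, rfl⟩
      exact hcb y))
  let G : Md c₀ ⟶ Cok Ψ' := mkT c₀ (Cok Ψ')
    { toFun := fun m => (cokπ Ψ').hom (κ m ^ p * (κ η * τ) : D)
      map_zero' := by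
        rw [map_zero, zero_pow hp.ne_zero, zero_mul]
        exact map_zero _
      map_add' := fun m n => by
        rw [map_add, add_pow_p hp hD2, add_mul]
        exact map_add (cokπ Ψ').hom (κ m ^ p * (κ η * τ) : D) (κ n ^ p * (κ η * τ) : D) }
    (fun r m => by
      change (cokπ Ψ').hom (κ (c₀ r * m) ^ p * (κ η * τ) : D) =
        r • (cokπ Ψ').hom (κ m ^ p * (κ η * τ) : D)
      rw [← map_smul, eq_comm, ← sub_eq_zero, ← map_sub, cokπ_eq_zero]
      obtain ⟨y, hy⟩ := hN (r ^ p) (κ m ^ p * (κ η * τ))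
      have key : e₁ y - e₂ y = e₁ (i (ι (F r))) * (κ m ^ p * (κ η * τ)) -
          κ (c₀ r * m) ^ p * (κ η * τ) := by
        rw [hy, map_mul, hF, map_pow c₀, map_pow κ]
        ring
      exact ⟨y, key⟩)
  refine not_inj1 J hf (O := Md c₀) hO (fun (m : O) r hr => ?_) (1 : O) hO1 j c ?_ _ G ?_ h1
  · obtain ⟨m₁, e⟩ := hOJ r hr
    refine ⟨1, (m₁ * m : O), ?_⟩
    change c₀ (r ^ 1) * m = c₀ f * (m₁ * m)
    rw [pow_one, e, mul_assoc]
  · apply ModuleCat.hom_ext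
    apply LinearMap.ext
    intro (m : O)
    exact hcb3 m
  · intro (m : O) r hr
    obtain ⟨m₁, e⟩ := hOJ r hr
    refine ⟨N, ?_⟩
    change r ^ N • ((cokπ Ψ').hom ((κ m * τ) ^ p : D) -
      (cokπ Ψ').hom (κ (c₀ f * m) ^ p * (κ η * τ) : D)) = 0
    rw [← map_sub, ← map_smul, cokπ_eq_zero]
    obtain ⟨q, hq⟩ : ∃ q, p = q + 1 := ⟨p - 1, by have := hp.pos; omega⟩
    obtain ⟨y, hy⟩ := hN ((r ^ N) ^ p) (κ m ^ p * (τ ^ p - κ (c₀ f ^ p * η) * τ))
    obtain ⟨y', hy'⟩ := hN2 ((c₀ f ^ N) ^ q * (m₁ ^ N) ^ p * m ^ p)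
    have key : e₁ (y + y') - e₂ (y + y') = e₁ (i (ι (F (r ^ N)))) *
        ((κ m * τ) ^ p - κ (c₀ f * m) ^ p * (κ η * τ)) := by
      rw [hF, map_add, map_add]
      rw [map_pow c₀, map_pow c₀, e] at hy
      have e3 : c₀ f ^ N * ((c₀ f ^ N) ^ q * (m₁ ^ N) ^ p * m ^ p) =
          ((c₀ f * m₁) ^ N) ^ p * m ^ p := by
        rw [mul_pow, mul_pow, ← mul_assoc, ← mul_assoc, ← pow_succ', ← hq]
      rw [e3] at hy'
      simp only [map_mul, map_pow, mul_pow] at hy hy' ⊢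
      linear_combination hy + hy'
    exact ⟨(y + y' : B), key⟩

end Pool.Agent.Work.MP_34c70a_al
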