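import Mathlib

namespace Pool.Agent.Work.MP_34c70a_al

/-- Frobenius `x ↦ x ^ p` acts injectively on every local cohomology module of the local ring `R`
(through the `R`-linear map `R → F_* R`). -/
def FInjective (p : ℕ) (R : Type) [CommRing R] [IsLocalRing R] : Prop :=
  ∀ (F : R →+* R), (∀ x : R, F x = x ^ p) →
    ∀ φ : ModuleCat.of R R ⟶ (ModuleCat.restrictScalars F).obj (ModuleCat.of R R),
      (∀ x : R, φ.hom x = F x) → ∀ i : ℕ,
        Function.Injective ((localCohomology (IsLocalRing.maximalIdeal R) i).map φ).hom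

end Pool.Agent.Work.MP_34c70a_al
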