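import Pool.Agent.Work.MP_34c70a_al.GMain

section
/-!
Abstract criteria for injectivity and non-injectivity of Frobenius on local cohomology of a ring
obtained by gluing.
-/

set_option autoImplicit false

open CategoryTheory Pool.Agent.Lib.LocalCoh Opposite

noncomputable section

namespace Pool.Agent.Work.MP_34c70a_al.GF

variable {p : ℕ}

lemma inj_of_retr {A : Type} [CommRing A] (J : Ideal A) {M N : ModuleCat.{0} A} (φ : M ⟶ N)
    (ψ : N ⟶ M) (h : φ ≫ ψ = 𝟙 M) (i : ℕ) : Inj J i φ := by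
  rw [inj_iff]
  intro x hx
  rw [← Hmap_id J i M x, ← h, Hmap_comp, hx, map_zero]

lemma cok_eq {A : Type} [CommRing A] {M N : ModuleCat.{0} A} (f : M ⟶ N) (y y' : N) :
    (cokπ f).hom y = (cokπ f).hom y' ↔ ∃ x, f.hom x = y - y' := Submodule.Quotient.eq _

theorem finj2 {S S' T : Type} [CommRing S] [IsNoetherianRing S] [CommRing S'] [CommRing T]
    (J : Ideal S) (hp : p.Prime) (h2 : (p : S) = 0) (ι : S →+* S') (hι : Function.Injective ι)
    (κ : S' →+* T) (hκ : Function.Injective κ) (w x : S) (hw : w ∈ J) (hx : x ∈ J)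
    (hred : ∀ s : S, s ^ p = 0 → s = 0) (hreg : R2 (κ (ι w)) (κ (ι x)))
    (ψ : T →+ T) (hψ : ∀ a c, ψ (a ^ p * c) = a * ψ c) (hψ1 : ψ 1 = 1)
    (hsat : ∀ (y : T) (s : S'), κ s = κ (ι x) * y → ∃ s', κ s' = y)
    (htors : ∀ (y : T), ∀ r ∈ J, ∃ y₁ s, κ (ι r) * y = κ (ι x) * y₁ + κ s)
    (hkey : ∀ (g m : T) (s : S'), g ^ p = κ s + κ (ι x) ^ p * m →
      ∃ s' m', g = κ s' + κ (ι x) * m')
    (hsq : ∀ (v : S') (s : S), ι s = v ^ p → ∃ s', ι s' = v)
    (hcok : ∀ (v : S'), ∀ r ∈ J, ∃ s, ι r * v = ι s)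
    (F : S →+* S) (hF : ∀ x, F x = x ^ p)
    (φ : ModuleCat.of S S ⟶ (ModuleCat.restrictScalars F).obj (ModuleCat.of S S))
    (hφ : ∀ x : S, φ.hom x = F x) (i : ℕ) : Inj J i φ := by
  let ρ : S →+* T := κ.comp ι
  let f : ModuleCat.of S S ⟶ Md ι := mk0 ι
  let f' : Md F ⟶ Md (ι.comp F) := mkH F (ι.comp F) ι.toAddMonoidHom (fun r c => ι.map_mul _ _)
  let g : Md ι ⟶ Md ρ := mkH ι ρ κ.toAddMonoidHom (fun r c => κ.map_mul _ _)
  let g' : Md (ι.comp F) ⟶ Md (ρ.comp F) := mkH _ _ κ.toAddMonoidHom (fun r c => κ.map_mul _ _)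
  have hf : Function.Injective f.hom := hι
  have hf' : Function.Injective f'.hom := hι
  have hg : Function.Injective g.hom := hκ
  have hg' : Function.Injective g'.hom := hκ
  have hsqr : φ ≫ f' = f ≫ frP hp h2 F hF ι := by
    apply ModuleCat.hom_ext
    apply LinearMap.ext
    intro x
    change ι (φ.hom x) = ι x ^ p
    rw [hφ, hF, map_pow]
  have s₁ : frP hp h2 F hF ι ≫ g' = g ≫ frP hp h2 F hF ρ := by
    apply ModuleCat.hom_ext
    apply LinearMap.ext
    intro (x : S')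
    exact κ.map_pow x p
  have r1 : Reg2 w x (Md ρ) := hreg
  have r2 : Reg2 w x (Md (ρ.comp F)) := by
    have h := hreg.pow p
    rw [← map_pow, ← map_pow, ← map_pow, ← map_pow, ← hF, ← hF] at h
    exact h
  have hc : ∀ n, Van J (n + 1) (Cok f) := van_cok_tors J f (fun y r hr => by
    obtain ⟨s, hs⟩ := hcok y r hr
    exact ⟨1, s, by rw [pow_one]; exact hs⟩)
  have hT : ∀ n, Inj J n (frP hp h2 F hF ρ) := inj_of_retr J _
    (mkH (ρ.comp F) ρ ψ (fun r c => by
      change ψ (ρ (F r) * c) = ρ r * ψ c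
      rw [hF, map_pow, hψ])) (by
    apply ModuleCat.hom_ext
    apply LinearMap.ext
    intro (y : T)
    change ψ (y ^ p) = y
    have := hψ y 1
    rwa [mul_one, hψ1, mul_one] at this)
  have hsatn : ∀ (n : ℕ) (y : T) (s : S'), κ s = κ (ι x) ^ n * y → ∃ s', κ s' = y := by
    intro n
    induction n with
    | zero => intro y r e; exact ⟨r, by simpa using e⟩
    | succ n ih =>
      intro y r e
      obtain ⟨r', hr'⟩ := ih (κ (ι x) * y) r (by rw [e]; ring)
      exact hsat y r' hr'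
  have q1 : Reg1 x (Cok g) := by
    intro z hz
    obtain ⟨y, rfl⟩ := cokπ_surj _ z
    rw [← map_smul, cokπ_eq_zero] at hz
    obtain ⟨s, hs⟩ := hz
    exact (cokπ_eq_zero g y).2 (hsat y s hs)
  have q2 : Reg1 x (Cok g') := by
    intro z hz
    obtain ⟨(y : T), rfl⟩ := cokπ_surj _ z
    obtain ⟨(s : S'), hs⟩ := (cokπ_eq_zero g' (κ (ι (F x)) * y : T)).1 hz
    have hs' : κ s = κ (ι (F x)) * y := hs
    rw [hF, map_pow, map_pow] at hs'
    exact (cokπ_eq_zero g' y).2 (hsatn p y s hs')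
  have hq : ∀ n, Van J (n + 2) (Cok g) := vanTop1_cok J hx g (fun y s e => hsat y s e)
    (fun y r hr => by
      obtain ⟨y₁, s, e⟩ := htors y r hr
      exact ⟨1, y₁, s, by rw [pow_one]; exact e⟩)
  match i with
  | 0 =>
    apply H0_inj
    rw [injective_iff_map_eq_zero]
    intro x hx
    rw [hφ, hF] at hx
    exact hred x hx
  | 1 =>
    refine inj_delta J (cokSE f hf) (cokSE f' hf') (cokHom f f' φ _ hsqr)
      (van_of_inj J (inj_sub J (cokSE g hg) (van0 J hx q1)) (van1 J hw hx r1))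
      (van_of_inj J (H0_inj J g' hg') (van0 J hw r2.1)) ?_
    exact H0_inj J _ (cokMap_inj f f' φ _ hsqr (fun y x' hx' => hsq y x' hx'))
  | 2 =>
    refine inj_of_sq J hsqr (inj_sub J (cokSE f hf) (hc 0)) ?_
    rw [inj_iff]
    intro z hz
    refine inj_delta_aux J (cokSE g hg) (cokSE g' hg') (cokHom g g' _ _ s₁) (van1 J hw hx r2)
      ?_ z ?_ hz
    · refine inj_step J hx _ q1 q2 (van0 J hx q2) (H0_inj J _ (cokMap_inj _ _ _ _ _ ?_))
      intro y x' hx'
      obtain ⟨(y : T), rfl⟩ := cokπ_surj _ y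
      obtain ⟨(m : T), rfl⟩ := cokπ_surj _ x'
      obtain ⟨(s : S'), hs⟩ := (cok_eq g' (y ^ p : T) (κ (ι (F x)) * m : T)).1 hx'.symm
      have hs' : κ s = y ^ p - κ (ι (F x)) * m := hs
      rw [hF, map_pow, map_pow] at hs'
      obtain ⟨s', m', e⟩ := hkey y m s (by rw [hs']; ring)
      refine ⟨(cokπ g).hom m', ((cok_eq g y (κ (ι x) * m' : T)).2 ⟨s', ?_⟩).symm⟩
      change κ s' = y - κ (ι x) * m'
      rw [e]
      ring
    · apply (inj_iff J 2 _).1 (hT 2)
      change ((localCohomology J 2).map _).hom (((localCohomology J 2).map g).hom z) = 0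
      rw [← Hmap_sq J 2 s₁, hz, map_zero]
  | n + 3 =>
    exact inj_of_sq J hsqr (inj_sub J (cokSE f hf) (hc (n + 1)))
      (inj_of_sq J s₁ (inj_sub J (cokSE g hg) (hq n)) (hT (n + 3)))

section cls

variable {A : Type} [CommRing A] [IsNoetherianRing A] (J : Ideal A)

lemma cls1 {a : A} (ha : a ∈ J) {O N : ModuleCat.{0} A} (h : Reg1 a O) (h' : Reg1 a N)
    (κ : O ⟶ N) (ht : ∀ m : O, ∀ r ∈ J, ∃ (n : ℕ) (m₁ : O), r ^ n • m = a • m₁)
    (m₀ : O) (hm₀ : ∀ m₁ : N, a • m₁ ≠ κ.hom m₀) :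
    ∃ η : (localCohomology J 1).obj O, a • η = 0 ∧ ((localCohomology J 1).map κ).hom η ≠ 0 := by
  have hT : IsTors J (Qa a O) := isTors_of_pow J (fun z r hr => by
    obtain ⟨m, rfl⟩ := cokπ_surj _ z
    obtain ⟨n, m₁, hn⟩ := ht m r hr
    exact ⟨n, by rw [← map_smul, Qa_zero]; exact ⟨m₁, hn.symm⟩⟩)
  obtain ⟨t, ht⟩ := hT ((cokπ (a • 𝟙 O)).hom m₀)
  obtain ⟨g, hg⟩ := exists_Qt_hom J (op (op t)) _ ht
  refine ⟨(δ J (QaSE h) 0).hom (cls J _ g), ?_, fun h0 => ?_⟩
  · rw [← Hmap_sm]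
    exact δ_comp J (QaSE h) 0 _
  · have h1 := δ_nat J (QaSE h) (QaSE h') (cokHom _ _ κ κ (sm_comm a κ)) 0 (cls J _ g)
    obtain ⟨y, hy⟩ := exact₃ J (QaSE h') 0 _ (h1.symm.trans h0)
    rw [van0 J ha h' y, map_zero, cls_map] at hy
    have h2 := cls_eq_zero J _ _ hy.symm
    change (cokMap _ _ κ κ (sm_comm a κ)).hom (g.hom (one J _)) = 0 at h2
    rw [hg, cokMap_π, Qa_zero] at h2
    obtain ⟨n, hn⟩ := h2
    exact hm₀ n hn

lemma cls2 {a b : A} (ha : a ∈ J) (hb : b ∈ J) {O N : ModuleCat.{0} A} (h : Reg2 a b O)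
    (h' : Reg2 a b N) (κ : O ⟶ N)
    (ht : ∀ m : O, ∀ r ∈ J, ∃ (n : ℕ) (m₁ m₂ : O), r ^ n • m = a • m₁ + b • m₂)
    (m₀ : O) (hm₀ : ∀ m₁ m₂ : N, a • m₁ + b • m₂ ≠ κ.hom m₀) :
    ∃ η : (localCohomology J 2).obj O, a • η = 0 ∧ ((localCohomology J 2).map κ).hom η ≠ 0 := by
  obtain ⟨ζ, -, hζ⟩ := cls1 J hb (reg1_Qa h) (reg1_Qa h') (cokMap _ _ κ κ (sm_comm a κ))
    (fun z r hr => by
      obtain ⟨m, rfl⟩ := cokπ_surj _ z
      obtain ⟨n, m₁, m₂, hn⟩ := ht m r hr
      refine ⟨n, (cokπ (a • 𝟙 O)).hom m₂, ?_⟩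
      rw [← map_smul, ← map_smul, Qa_eq]
      exact ⟨m₁, hn⟩) ((cokπ (a • 𝟙 O)).hom m₀) (fun z hz => by
      obtain ⟨m₂, rfl⟩ := cokπ_surj _ z
      rw [cokMap_π, ← map_smul, eq_comm, Qa_eq] at hz
      obtain ⟨m₁, e⟩ := hz
      exact hm₀ m₁ m₂ e.symm)
  refine ⟨(δ J (QaSE h.1) 1).hom ζ, ?_, fun h0 => ?_⟩
  · rw [← Hmap_sm]
    exact δ_comp J (QaSE h.1) 1 _
  · have h1 := δ_nat J (QaSE h.1) (QaSE h'.1) (cokHom _ _ κ κ (sm_comm a κ)) 1 ζ
    obtain ⟨y, hy⟩ := exact₃ J (QaSE h'.1) 1 _ (h1.symm.trans h0)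
    rw [van1 J ha hb h' y, map_zero] at hy
    exact hζ hy.symm

end cls

/-- The map `R / ker ρ → D` sending `1` to `d`. -/
def kap {R D : Type} [CommRing R] [CommRing D] (ρ : R →+* D) (d : D) :
    ModuleCat.of R (R ⧸ RingHom.ker ρ) ⟶ Md ρ :=
  ModuleCat.ofHom (Y := Md ρ) (Submodule.liftQ (RingHom.ker ρ)
    (LinearMap.toSpanSingleton R (Md ρ) d) (fun r hr => by
      change ρ r * d = 0
      rw [(RingHom.mem_ker).1 hr, zero_mul]))

lemma kap_mk {R D : Type} [CommRing R] [CommRing D] (ρ : R →+* D) (d : D) (r : R) :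
    (kap ρ d).hom (Ideal.Quotient.mk _ r) = (ρ r * d : D) := rfl

lemma qeq {R D : Type} [CommRing R] [CommRing D] (ρ : R →+* D) (a b : R) :
    Ideal.Quotient.mk (RingHom.ker ρ) a = Ideal.Quotient.mk (RingHom.ker ρ) b ↔ ρ a = ρ b :=
  Ideal.Quotient.eq.trans (RingHom.sub_mem_ker_iff ρ)

lemma reg1_q {R D : Type} [CommRing R] [CommRing D] (ρ : R →+* D) (x : R)
    (hD : ∀ m, ρ x * m = 0 → m = 0) : Reg1 x (ModuleCat.of R (R ⧸ RingHom.ker ρ)) := by
  intro m hm
  obtain ⟨r, rfl⟩ := Ideal.Quotient.mk_surjective m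
  have h := (qeq ρ (x * r) 0).1 hm
  rw [map_mul, map_zero] at h
  exact (qeq ρ r 0).2 (by rw [hD _ h, map_zero])

lemma eta1 {R D : Type} [CommRing R] [IsNoetherianRing R] [CommRing D] (J : Ideal R)
    (ρ : R →+* D) (x : R) (hx : x ∈ J) (d : D) (hD : ∀ m, ρ x * m = 0 → m = 0)
    (ht : ∀ r ∈ J, ∃ (n : ℕ) (r₁ : R), ρ r ^ n = ρ x * ρ r₁) (hd : ∀ m, ρ x * m ≠ d) :
    ∃ η : (localCohomology J 1).obj (ModuleCat.of R (R ⧸ RingHom.ker ρ)),
      x • η = 0 ∧ ((localCohomology J 1).map (kap ρ d)).hom η ≠ 0 := by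
  refine cls1 J hx (reg1_q ρ x hD) (N := Md ρ) hD _ (fun m r hr => ?_)
    (Ideal.Quotient.mk _ 1) (fun (m : D) e => hd m ?_)
  · obtain ⟨s, rfl⟩ := Ideal.Quotient.mk_surjective m
    obtain ⟨n, r₁, e⟩ := ht r hr
    refine ⟨n, Ideal.Quotient.mk _ (r₁ * s), (qeq ρ (r ^ n * s) (x * (r₁ * s))).2 ?_⟩
    rw [map_mul, map_mul, map_mul, map_pow, e, mul_assoc]
  · have e' : ρ x * m = ρ 1 * d := e
    rwa [map_one, one_mul] at e'

lemma eta2 {R D : Type} [CommRing R] [IsNoetherianRing R] [CommRing D] (J : Ideal R)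
    (ρ : R →+* D) (x b : R) (hx : x ∈ J) (hb : b ∈ J) (d : D) (hD : R2 (ρ x) (ρ b))
    (hO : ∀ r r₁, ρ b * ρ r = ρ x * ρ r₁ → ∃ r₂, ρ r = ρ x * ρ r₂)
    (ht : ∀ r ∈ J, ∃ (n : ℕ) (r₁ r₂ : R), ρ r ^ n = ρ x * ρ r₁ + ρ b * ρ r₂)
    (hd : ∀ m₁ m₂, ρ x * m₁ + ρ b * m₂ ≠ d) :
    ∃ η : (localCohomology J 2).obj (ModuleCat.of R (R ⧸ RingHom.ker ρ)),
      x • η = 0 ∧ ((localCohomology J 2).map (kap ρ d)).hom η ≠ 0 := by
  refine cls2 J hx hb ⟨reg1_q ρ x hD.1, fun m m₁ e => ?_⟩ (N := Md ρ) hD _ (fun m r hr => ?_)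
    (Ideal.Quotient.mk _ 1) (fun (m₁ m₂ : D) e => hd m₁ m₂ ?_)
  · obtain ⟨r, rfl⟩ := Ideal.Quotient.mk_surjective m
    obtain ⟨r₁, rfl⟩ := Ideal.Quotient.mk_surjective m₁
    have h := (qeq ρ (b * r) (x * r₁)).1 e
    rw [map_mul, map_mul] at h
    obtain ⟨r₂, h₂⟩ := hO r r₁ h
    exact ⟨Ideal.Quotient.mk _ r₂, (qeq ρ r (x * r₂)).2 (by rw [map_mul, h₂])⟩
  · obtain ⟨s, rfl⟩ := Ideal.Quotient.mk_surjective m
    obtain ⟨n, r₁, r₂, e⟩ := ht r hr
    refine ⟨n, Ideal.Quotient.mk _ (r₁ * s), Ideal.Quotient.mk _ (r₂ * s),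
      (qeq ρ (r ^ n * s) (x * (r₁ * s) + b * (r₂ * s))).2 ?_⟩
    simp only [map_mul, map_add, map_pow, e]
    ring
  · have e' : ρ x * m₁ + ρ b * m₂ = ρ 1 * d := e
    rwa [map_one, one_mul] at e'

theorem not_inj_core {R T D : Type} [CommRing R] [CommRing T] [CommRing D] (J : Ideal R)
    (hp : p.Prime) (h2 : (p : R) = 0) (ι : R →+* T) (hι : Function.Injective ι) (ρ : R →+* D)
    (c : T →+ D) (hc : ∀ r y, c (ι r * y) = ρ r * c y) (hc1 : c 1 = 0) (x : R) (y₀ y₁ : T)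
    (hI₀ : ∀ r, ρ r = 0 → ∃ r', ι r' = ι r * y₀) (hI₁ : ∀ r, ρ r = 0 → ∃ r', ι r' = ι r * y₁)
    (hst : ∃ r, ι r = y₀ ^ p - ι x ^ p * y₁) (i : ℕ) (hv : Van J i (Md ι))
    (hη : ∃ η : (localCohomology J i).obj (ModuleCat.of R (R ⧸ RingHom.ker ρ)),
      x • η = 0 ∧ ((localCohomology J i).map (kap ρ (c y₀))).hom η ≠ 0)
    (F : R →+* R) (hF : ∀ x, F x = x ^ p)
    (φ : ModuleCat.of R R ⟶ (ModuleCat.restrictScalars F).obj (ModuleCat.of R R))
    (hφ : ∀ x : R, φ.hom x = F x) : ¬ Inj J (i + 1) φ := by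
  intro h3
  let u : ModuleCat.of R R ⟶ Md ι := mk0 ι
  let u' : Md F ⟶ Md (ι.comp F) := mkH F (ι.comp F) ι.toAddMonoidHom (fun r c => ι.map_mul _ _)
  have hu : Function.Injective u.hom := hι
  have hu' : Function.Injective u'.hom := hι
  have hsqr : φ ≫ u' = u ≫ frP hp h2 F hF ι := by
    apply ModuleCat.hom_ext
    apply LinearMap.ext
    intro x
    change ι (φ.hom x) = ι x ^ p
    rw [hφ, hF, map_pow]
  have h1 : Inj J i (cokMap u u' φ _ hsqr) :=
    inj_push J (cokSE u hu) (cokSE u' hu') (cokHom u u' φ _ hsqr) hv h3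
  let j : ModuleCat.of R (R ⧸ RingHom.ker ρ) ⟶ Cok u :=
    ModuleCat.ofHom (Y := Cok u) (Submodule.liftQ (RingHom.ker ρ)
      (LinearMap.toSpanSingleton R (Cok u) ((cokπ u).hom y₀)) (fun r hr => by
        exact (cokπ_eq_zero u (ι r * y₀ : T)).2 (hI₀ r hr)))
  let G : ModuleCat.of R (R ⧸ RingHom.ker ρ) ⟶ Cok u' :=
    ModuleCat.ofHom (Y := Cok u') (Submodule.liftQ (RingHom.ker ρ)
      (LinearMap.toSpanSingleton R (Cok u') ((cokπ u').hom y₁)) (fun r hr => by
        exact (cokπ_eq_zero u' (ι (F r) * y₁ : T)).2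
          (hI₁ (F r) (by rw [hF, map_pow, (RingHom.mem_ker).1 hr, zero_pow hp.ne_zero]))))
  let cc : Cok u ⟶ Md ρ := ModuleCat.ofHom (Y := Md ρ) (Submodule.liftQ _
    (mkH ι ρ c hc).hom (by
      rintro _ ⟨r, rfl⟩
      change c (ι r) = 0
      rw [← mul_one (ι r), hc, hc1, mul_zero]))
  have e1 : j ≫ cc = kap ρ (c y₀) := by
    apply ModuleCat.hom_ext
    apply LinearMap.ext
    intro z
    obtain ⟨r, rfl⟩ := Ideal.Quotient.mk_surjective z
    exact hc r y₀
  have e2 : j ≫ cokMap u u' φ _ hsqr = (x • 𝟙 _) ≫ G := by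
    apply ModuleCat.hom_ext
    apply LinearMap.ext
    intro z
    obtain ⟨r, rfl⟩ := Ideal.Quotient.mk_surjective z
    change (cokπ u').hom ((ι r * y₀) ^ p : T) = (cokπ u').hom (ι (F (x * r)) * y₁ : T)
    obtain ⟨s, hs⟩ := hst
    refine (cok_eq u' _ _).2 ⟨(r ^ p * s : R), ?_⟩
    change ι (r ^ p * s) = (ι r * y₀) ^ p - ι (F (x * r)) * y₁
    rw [hF, map_mul, hs, map_pow, map_pow, map_mul]
    ring
  obtain ⟨η, h4, h5⟩ := hη
  apply h5
  have h6 : ((localCohomology J i).map j).hom η = 0 := by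
    apply (inj_iff J i _).1 h1
    rw [← Hmap_comp, e2, Hmap_comp, Hmap_sm, h4, map_zero]
  rw [← e1, Hmap_comp, h6, map_zero]

end Pool.Agent.Work.MP_34c70a_al.GF
end
end

section
/-!
Power series: approximation, Frobenius splitting, substitution, and the key computation.
-/

set_option autoImplicit false

open PowerSeries

noncomputable section

namespace Pool.Agent.Work.MP_34c70a_al.GF

section general

variable {A S : Type} [CommRing A] [CommRing S]

lemma sep_X (s : A⟦X⟧) (hs : constantCoeff s = 0) (g : A⟦X⟧) (h : ∀ n, s ^ n ∣ g) : g = 0 := by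
  obtain ⟨e, rfl⟩ := ps_div hs
  ext n
  exact X_pow_dvd_iff.1 ((pow_dvd_pow_of_dvd (dvd_mul_right X e) (n + 1)).trans (h (n + 1))) n
    (Nat.lt_succ_self n)

lemma ps_hom_ext (φ ψ : A⟦X⟧ →+* S) (hX : φ X = ψ X) (hC : ∀ a, φ (C a) = ψ (C a))
    (hs : ∀ g, (∀ n, ψ X ^ n ∣ g) → g = 0) (h : A⟦X⟧) : φ h = ψ h := by
  have key : ∀ (n : ℕ) (h : A⟦X⟧), ψ X ^ n ∣ φ h - ψ h := by
    intro n
    induction n with
    | zero => intro h; simp
    | succ n ih =>
      intro h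
      obtain ⟨e, he⟩ := ps_dec h
      obtain ⟨q, hq⟩ := ih e
      refine ⟨q, ?_⟩
      rw [he, map_add, map_add, map_mul, map_mul, hC, hX]
      linear_combination ψ X * hq
  exact sub_eq_zero.1 (hs _ fun n => key n h)

lemma ps_nak (φ : A⟦X⟧ →+* S) (hs : ∀ g, (∀ n, φ X ^ n ∣ g) → g = 0) {ι : Type} [Fintype ι]
    (s : ι → S) (h : ∀ g, ∃ (c : ι → A) (g' : S), g = ∑ i, φ (C (c i)) * s i + φ X * g')
    (g : S) : ∃ b : ι → A⟦X⟧, g = ∑ i, φ (b i) * s i := by
  choose c nx hc using h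
  let b : S → ι → A⟦X⟧ := fun g i => mk fun k => c (nx^[k] g) i
  have hb : ∀ g i, b g i = X * b (nx g) i + C (c g i) := by
    intro g i
    ext k
    rcases k with _ | k
    · simp [b]
    · simp [b, coeff_succ_X_mul, coeff_succ_C]
  have key : ∀ (n : ℕ) (g : S), φ X ^ n ∣ g - ∑ i, φ (b g i) * s i := by
    intro n
    induction n with
    | zero => intro g; simp
    | succ n ih =>
      intro g
      obtain ⟨q, hq⟩ := ih (nx g)
      refine ⟨q, ?_⟩
      have h1 : ∑ i, φ (b g i) * s i =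
          φ X * ∑ i, φ (b (nx g) i) * s i + ∑ i, φ (C (c g i)) * s i := by
        rw [Finset.mul_sum, ← Finset.sum_add_distrib]
        refine Finset.sum_congr rfl fun i _ => ?_
        rw [hb g i, map_add, map_mul]
        ring
      rw [h1]
      linear_combination hc g + φ X * hq
  exact ⟨b g, sub_eq_zero.1 (hs _ fun n => key n g)⟩

lemma finite_of_fun (g : A →+* S) {ι : Type} [Fintype ι] (s : ι → S)
    (h : ∀ b, ∃ c : ι → A, b = ∑ i, g (c i) * s i) : g.Finite := by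
  let := g.toAlgebra
  exact Module.finite_def.2 (Submodule.fg_def.2 ⟨Set.range s, Set.finite_range _,
    eq_top_iff.2 fun b _ => (Submodule.mem_span_range_iff_exists_fun A).2
      ((h b).imp fun _ hc => hc.symm)⟩)

lemma ps_fin (n : ℕ) : ∀ a : A⟦X⟧, ∃ (c : Fin n → A) (e : A⟦X⟧),
    a = ∑ i, C (c i) * X ^ (i : ℕ) + X ^ n * e := by
  induction n with
  | zero => intro a; exact ⟨fun _ => 0, a, by simp⟩
  | succ n ih =>
    intro a
    obtain ⟨e, he⟩ := ps_dec a
    obtain ⟨c, e', he'⟩ := ih e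
    refine ⟨Fin.cons (constantCoeff a) c, e', ?_⟩
    rw [Fin.sum_univ_succ]
    simp only [Fin.cons_zero, Fin.cons_succ, Fin.val_zero, Fin.val_succ, pow_zero, mul_one,
      pow_succ, ← mul_assoc, ← Finset.sum_mul]
    linear_combination he + X * he'

lemma ps_gen (n : ℕ) (hn : n ≠ 0) (φ : A⟦X⟧ →+* A⟦X⟧) (hC : ∀ a, φ (C a) = C a) (u v : A⟦X⟧)
    (huv : u * v = 1) (hX : φ X = X ^ n * u) (a : A⟦X⟧) :
    ∃ c : Fin n → A⟦X⟧, a = ∑ i, φ (c i) * X ^ (i : ℕ) := by
  refine ps_nak φ (sep_X _ (by simp [hX, hn])) _ (fun g => ?_) a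
  obtain ⟨c, e, he⟩ := ps_fin n g
  refine ⟨c, v * e, ?_⟩
  simp only [hC, hX]
  linear_combination he - X ^ n * e * huv

/-- The coefficients in an arithmetic progression. -/
def dec (p r : ℕ) : A⟦X⟧ →+ A⟦X⟧ where
  toFun g := mk fun j => coeff (p * j + r) g
  map_zero' := by ext; simp
  map_add' a b := by ext; simp

lemma coeff_dec (p r j : ℕ) (g : A⟦X⟧) : coeff j (dec p r g) = coeff (p * j + r) g :=
  coeff_mk j fun j => coeff (p * j + r) g

lemma dec_X_pow {p r : ℕ} (hr : r < p) (g : A⟦X⟧) : dec p r (X ^ p * g) = X * dec p r g := by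
  ext j
  rcases j with _ | j
  · rw [coeff_dec, coeff_X_pow_mul', if_neg (by omega)]
    simp
  · rw [coeff_dec, coeff_succ_X_mul, coeff_dec, show p * (j + 1) + r = p * j + r + p by ring,
      coeff_X_pow_mul]

lemma dec_expand {p r : ℕ} (hp : p ≠ 0) (hr : r < p) (h g : A⟦X⟧) :
    dec p r (expand p hp h * g) = h * dec p r g := by
  have key : ∀ (n : ℕ) (h : A⟦X⟧), X ^ n ∣ dec p r (expand p hp h * g) - h * dec p r g := by
    intro n
    induction n with
    | zero => intro h; simp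
    | succ n ih =>
      intro h
      obtain ⟨e, he⟩ := ps_dec h
      obtain ⟨q, hq⟩ := ih e
      refine ⟨q, ?_⟩
      have h1 : dec p r (C (constantCoeff h) * g) = C (constantCoeff h) * dec p r g := by
        ext j
        rw [coeff_dec, coeff_C_mul, coeff_C_mul, coeff_dec]
      generalize constantCoeff h = c at he h1
      rw [he, map_add, map_mul (expand p hp), expand_X, expand_C, add_mul, map_add, mul_assoc, dec_X_pow hr, h1]
      linear_combination X * hq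
  exact sub_eq_zero.1 (sep_X X constantCoeff_X _ fun n => key n h)

lemma pow_eq_expand (p : ℕ) [hp : Fact p.Prime] [CharP A p] (a : A⟦X⟧) :
    a ^ p = expand p hp.out.ne_zero (map (frobenius A p) a) := by
  rw [← map_expand]
  exact (MvPowerSeries.map_frobenius_expand p hp.out.ne_zero).symm

lemma coeff_pow_p (p : ℕ) [hp : Fact p.Prime] [CharP A p] (a : A⟦X⟧) (j : ℕ) :
    coeff (p * j) (a ^ p) = coeff j a ^ p := by
  rw [pow_eq_expand, coeff_expand_mul, coeff_map, frobenius_def]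

lemma ps_split (p : ℕ) [hp : Fact p.Prime] [CharP A p]
    (h : ∃ ψ : A →+ A, (∀ a c, ψ (a ^ p * c) = a * ψ c) ∧ ψ 1 = 1) :
    ∃ ψ : A⟦X⟧ →+ A⟦X⟧, (∀ a c, ψ (a ^ p * c) = a * ψ c) ∧ ψ 1 = 1 := by
  obtain ⟨ψ, h1, h2⟩ := h
  refine ⟨{ toFun := fun g => mk fun j => ψ (coeff j (dec p 0 g))
            map_zero' := by ext; simp
            map_add' := fun a b => by ext; simp }, fun a c => ?_, ?_⟩
  · ext j
    simp only [AddMonoidHom.coe_mk, ZeroHom.coe_mk, coeff_mk]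
    rw [pow_eq_expand, dec_expand _ hp.out.pos, coeff_mul, coeff_mul, map_sum]
    refine Finset.sum_congr rfl fun x _ => ?_
    rw [coeff_map, frobenius_def, h1, coeff_mk]
  · ext j
    simp only [AddMonoidHom.coe_mk, ZeroHom.coe_mk, coeff_mk, coeff_dec, coeff_one]
    by_cases hj : j = 0
    · simp [hj, h2]
    · simp [hj, hp.out.ne_zero]

lemma exists_sub2 (a b : A2 A) (ha : cc0 a = 0) (hb : cc0 b = 0) :
    ∃ θ : A2 A →+* A2 A, θ X = a ∧ θ (C X) = b ∧ ∀ l, θ (CC l) = CC l := by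
  let E : MvPowerSeries (Option Unit) A ≃ₐ[A] A2 A := MvPowerSeries.optionEquivLeft Unit A
  have hc : ∀ z, MvPowerSeries.constantCoeff (E.symm z) = cc0 z := by
    intro z
    obtain ⟨z, rfl⟩ := E.surjective z
    rw [AlgEquiv.symm_apply_apply]
    have := MvPowerSeries.coeff_coeff_optionEquivLeft z 0 0
    rw [show Finsupp.optionElim 0 (0 : Unit →₀ ℕ) = 0 from by ext x; cases x <;> simp] at this
    rw [← MvPowerSeries.coeff_zero_eq_constantCoeff_apply, ← this, cc0_apply,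
      MvPowerSeries.coeff_zero_eq_constantCoeff_apply, coeff_zero_eq_constantCoeff_apply]
    rfl
  let s : Option Unit → MvPowerSeries (Option Unit) A := fun o => o.elim (E.symm a) fun _ => E.symm b
  have hs : MvPowerSeries.HasSubst s := MvPowerSeries.hasSubst_of_constantCoeff_zero (fun o => by
    cases o
    · exact (hc a).trans ha
    · exact (hc b).trans hb)
  let θ : A2 A →ₐ[A] A2 A :=
    (E : _ →ₐ[A] _).comp ((MvPowerSeries.substAlgHom hs).comp (E.symm : _ →ₐ[A] _))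
  have h1 : E.symm X = MvPowerSeries.X none :=
    E.symm_apply_eq.2 MvPowerSeries.optionEquivLeft_X_none.symm
  have h2 : E.symm (C X) = MvPowerSeries.X (some ()) :=
    E.symm_apply_eq.2 (MvPowerSeries.optionEquivLeft_X_some ()).symm
  have h3 : ∀ l, CC l = algebraMap A (A2 A) l := fun l => by
    simp [CC_apply, PowerSeries.algebraMap_apply]
  refine ⟨θ, ?_, ?_, fun l => by rw [h3]; exact θ.commutes l⟩
  · change E (MvPowerSeries.substAlgHom hs (E.symm X)) = a
    rw [h1, MvPowerSeries.substAlgHom_X]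
    exact E.apply_symm_apply a
  · change E (MvPowerSeries.substAlgHom hs (E.symm (C X))) = b
    rw [h2, MvPowerSeries.substAlgHom_X]
    exact E.apply_symm_apply b

/-- Restriction to the first axis. -/
def ev1 : A2 A →+* A⟦X⟧ := constantCoeff

/-- Restriction to the second axis. -/
def ev2 : A2 A →+* A⟦X⟧ := map constantCoeff

/-- The equation of the two axes. -/
def ww (A : Type) [CommRing A] : A2 A := X * C X

/-- A series with given restrictions to the axes. -/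
def lift (a b : A⟦X⟧) : A2 A := C a + map C b - CC (constantCoeff b)

@[simp] lemma ev1_C (a : A⟦X⟧) : ev1 (C a) = a := by simp [ev1]

@[simp] lemma ev1_X : ev1 (X : A2 A) = 0 := by simp [ev1]

@[simp] lemma ev1_CC (a : A) : ev1 (CC a) = C a := by simp [ev1]

@[simp] lemma ev2_C (a : A⟦X⟧) : ev2 (C a) = C (constantCoeff a) := by simp [ev2]

@[simp] lemma ev2_X : ev2 (X : A2 A) = X := by simp [ev2]

@[simp] lemma ev2_CC (a : A) : ev2 (CC a) = C a := by simp [ev2, CC_apply]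

@[simp] lemma ev1_ww : ev1 (ww A) = 0 := by simp [ww]

@[simp] lemma ev2_ww : ev2 (ww A) = 0 := by simp [ww]

lemma cc_ev1 (g : A2 A) : constantCoeff (ev1 g) = cc0 g := rfl

lemma cc_ev2 (g : A2 A) : constantCoeff (ev2 g) = cc0 g := cc_map _ _

lemma ev1_lift (a b : A⟦X⟧) : ev1 (lift a b) = a := by
  rw [lift, map_sub, map_add, ev1_C, ev1_CC, ev1, cc_map]
  ring

lemma ev2_lift {a b : A⟦X⟧} (h : constantCoeff a = constantCoeff b) : ev2 (lift a b) = b := by
  have : ev2 (map C b) = b := by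
    ext n
    simp [ev2, coeff_map]
  rw [lift, map_sub, map_add, ev2_C, ev2_CC, this, h]
  ring

lemma ker_ev {g : A2 A} (h1 : ev1 g = 0) (h2 : ev2 g = 0) : ∃ e, g = ww A * e := by
  obtain ⟨e, rfl⟩ := ps_div (a := g) h1
  rw [map_mul, ev2_X] at h2
  obtain ⟨e', rfl⟩ := ps_ker constantCoeff X (fun o => ps_div) e (ps_X_reg _ h2)
  exact ⟨e', by rw [ww, mul_assoc]⟩

lemma eq_of_ev {g g' : A2 A} (h1 : ev1 g = ev1 g') (h2 : ev2 g = ev2 g') :
    ∃ e, g = g' + ww A * e := by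
  obtain ⟨e, he⟩ := ker_ev (g := g - g') (by rw [map_sub, h1, sub_self])
    (by rw [map_sub, h2, sub_self])
  exact ⟨e, by rw [← he]; ring⟩

lemma ww_reg (m : A2 A) (h : ww A * m = 0) : m = 0 :=
  ps_C_reg ps_X_reg _ (ps_X_reg _ (by rw [← h, ww, mul_assoc]))

lemma ev1_mA (g : A →+* S) (a : A2 A) : ev1 (G.mA g a) = map g (ev1 a) := G.cc_mA g a

lemma ev2_mA (g : A →+* S) (a : A2 A) : ev2 (G.mA g a) = map g (ev2 a) := by
  ext n
  simp [ev2, G.mA, coeff_map, cc_map]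

lemma mA_ww (g : A →+* S) : G.mA g (ww A) = ww S := by simp [ww]

lemma X_pow_reg (n : ℕ) (m : A⟦X⟧) (h : X ^ n * m = 0) : m = 0 := by
  induction n with
  | zero => simpa using h
  | succ n ih => exact ih (ps_X_reg _ (by rw [← h]; ring))

end general

end Pool.Agent.Work.MP_34c70a_al.GF
end
end

section
/-!
The two parametrisations of the double surface and the key computation.
-/

set_option autoImplicit false

open PowerSeries

noncomputable section

namespace Pool.Agent.Work.MP_34c70a_al.GF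

variable {A : Type} [CommRing A] (p : ℕ) [hp : Fact p.Prime] (t : A)

/-- The unit part of the parameter on the first axis. -/
def uu : A⟦X⟧ := 1 + X ^ p * (C t + X)

/-- The parameter on the first axis. -/
def x1 : A⟦X⟧ := X ^ p * uu p t

lemma cc_uu : constantCoeff (uu p t) = 1 := by simp [uu, hp.out.ne_zero]

lemma cc_x1 : constantCoeff (x1 p t) = 0 := by simp [x1, hp.out.ne_zero]

lemma uu_inv : ∃ v, uu p t * v = 1 ∧ constantCoeff v = 1 := by
  obtain ⟨v, hv⟩ := (isUnit_iff_constantCoeff.2 (by rw [cc_uu]; exact isUnit_one) :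
    IsUnit (uu p t)).exists_right_inv
  refine ⟨v, hv, ?_⟩
  have := congrArg constantCoeff hv
  rwa [map_mul, cc_uu, one_mul, map_one] at this

lemma x1_reg (m : A⟦X⟧) (h : x1 p t * m = 0) : m = 0 := by
  obtain ⟨v, hv, -⟩ := uu_inv p t
  have := X_pow_reg p (uu p t * m) (by rw [← h, x1, mul_assoc])
  linear_combination v * this - m * hv

omit hp in
lemma map_x1 {B : Type} [CommRing B] (g : A →+* B) : map g (x1 p t) = x1 p (g t) := by
  simp [x1, uu]

/-- Substitution of the first parameter. -/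
def th1 : A⟦X⟧ →+* A⟦X⟧ :=
  (substAlgHom (R := A) (HasSubst.of_constantCoeff_zero' (cc_x1 p t))).toRingHom

/-- Substitution of the second parameter. -/
def th2 (A : Type) [CommRing A] : A⟦X⟧ →+* A⟦X⟧ := (expand (R := A) p hp.out.ne_zero).toRingHom

@[simp] lemma th1_X : th1 p t X = x1 p t := substAlgHom_X _

@[simp] lemma th1_C (a : A) : th1 p t (C a) = C a :=
  (substAlgHom (R := A) (HasSubst.of_constantCoeff_zero' (cc_x1 p t))).commutes a

@[simp] lemma th2_X : th2 p A X = X ^ p := expand_X p _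

@[simp] lemma th2_C (a : A) : th2 p A (C a) = C a := expand_C p _ a

lemma cc_th1 (h : A⟦X⟧) : constantCoeff (th1 p t h) = constantCoeff h := by
  obtain ⟨e, he⟩ := ps_dec h
  conv_lhs => rw [he]
  simp [cc_x1]

lemma cc_th2 (h : A⟦X⟧) : constantCoeff (th2 p A h) = constantCoeff h :=
  constantCoeff_expand p _ h

lemma th2_inj : Function.Injective (th2 p A) := by
  intro a b h
  ext n
  rw [← coeff_expand_mul p hp.out.ne_zero a n, ← coeff_expand_mul p hp.out.ne_zero b n]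
  exact congrArg (coeff (p * n)) h

lemma map_th1 {B : Type} [CommRing B] (g : A →+* B) (h : A⟦X⟧) :
    map g (th1 p t h) = th1 p (g t) (map g h) :=
  ps_hom_ext ((map g).comp (th1 p t)) ((th1 p (g t)).comp (map g)) (by simp [map_x1])
    (by simp) (sep_X _ (by simp [cc_x1])) h

lemma map_th2 {B : Type} [CommRing B] (g : A →+* B) (h : A⟦X⟧) :
    map g (th2 p A h) = th2 p B (map g h) := map_expand p _ g h

/-- A common lift of the two parameters. -/
def xt : A2 A := C (x1 p t) + X ^ p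

@[simp] lemma ev1_xt : ev1 (xt p t) = x1 p t := by simp [xt, hp.out.ne_zero]

@[simp] lemma ev2_xt : ev2 (xt p t) = X ^ p := by simp [xt, cc_x1]

omit hp in
lemma mA_xt {B : Type} [CommRing B] (g : A →+* B) : G.mA g (xt p t) = xt p (g t) := by
  simp [xt, G.mA, map_x1]

lemma ww_xt : R2 (ww A) (xt p t) := by
  refine ⟨ww_reg, fun m m₁ e => ker_ev ?_ ?_⟩
  · have := congrArg ev1 e
    rw [map_mul, map_mul, ev1_ww, zero_mul, ev1_xt] at this
    exact x1_reg p t _ this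
  · have := congrArg ev2 e
    rw [map_mul, map_mul, ev2_ww, zero_mul, ev2_xt] at this
    exact X_pow_reg p _ this

lemma X_pow_dvd_of_C {f : A} (hf : ∀ m, f * m = 0 → m = 0) (n : ℕ) (a b : A⟦X⟧)
    (h : C f * a = X ^ n * b) : ∃ e, a = X ^ n * e :=
  X_pow_dvd_iff.2 fun m hm => hf _ (by
    rw [← coeff_C_mul, h]
    exact X_pow_dvd_iff.1 (dvd_mul_right _ _) m hm)

lemma ww_xt_f {f : A} (hf : ∀ m, f * m = 0 → m = 0) : R3 (ww A) (xt p t) (CC f) := by
  refine ⟨ww_xt p t, fun m m₁ m₂ e => ?_⟩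
  have e1 := congrArg ev1 e
  have e2 := congrArg ev2 e
  simp only [map_mul, map_add, ev1_ww, ev2_ww, zero_mul, zero_add, ev1_xt, ev2_xt, ev1_CC,
    ev2_CC] at e1 e2
  obtain ⟨v, hv, -⟩ := uu_inv p t
  obtain ⟨a, ha⟩ := X_pow_dvd_of_C hf p _ _ (e1.trans (mul_assoc _ _ _))
  obtain ⟨b, hb⟩ := X_pow_dvd_of_C hf p _ _ e2
  have ha' : ev1 m = x1 p t * (v * a) := by
    rw [ha, x1]
    linear_combination - X ^ p * a * hv
  have h1 : C f * (v * a) - ev1 m₂ = 0 := x1_reg p t _ (by rw [ha'] at e1; linear_combination e1)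
  have h2 : C f * b - ev2 m₂ = 0 := X_pow_reg p _ (by rw [hb] at e2; linear_combination e2)
  have h3 : constantCoeff (v * a) = constantCoeff b := by
    have h4 := congrArg constantCoeff h1
    have h5 := congrArg constantCoeff h2
    rw [map_sub, map_mul, constantCoeff_C, map_zero] at h4 h5
    rw [cc_ev1] at h4
    rw [cc_ev2] at h5
    exact sub_eq_zero.1 (hf _ (by linear_combination h4 - h5))
  obtain ⟨q, hq⟩ := eq_of_ev (g := m) (g' := xt p t * lift (v * a) b)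
    (by rw [map_mul, ev1_xt, ev1_lift, ha']) (by rw [map_mul, ev2_xt, ev2_lift h3, hb])
  exact ⟨q, _, by rw [hq, add_comm]⟩

lemma exists_theta : ∃ θ : A2 A →+* A2 A, θ X = ww A ∧ (∀ b, ev1 (θ (C b)) = th1 p t b) ∧
    (∀ b, ev2 (θ (C b)) = th2 p A b) ∧ θ (C X) = xt p t ∧ (∀ l, θ (CC l) = CC l) ∧ θ.Finite := by
  obtain ⟨θ, h1, h2, h3⟩ := exists_sub2 (ww A) (xt p t) (by rw [← cc_ev1, ev1_ww, map_zero])
    (by rw [← cc_ev1, ev1_xt, cc_x1])
  have h3' : ∀ l, θ (C (C l)) = CC l := h3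
  have k1 : ∀ b, ev1 (θ (C b)) = th1 p t b :=
    ps_hom_ext (ev1.comp (θ.comp C)) (th1 p t) (by simp [h2]) (by simp [h3'])
      (sep_X _ (by simp [cc_x1]))
  have k2 : ∀ b, ev2 (θ (C b)) = th2 p A b :=
    ps_hom_ext (ev2.comp (θ.comp C)) (th2 p A) (by simp [h2]) (by simp [h3'])
      (sep_X _ (by simp [hp.out.ne_zero]))
  refine ⟨θ, h1, k1, k2, h2, h3, ?_⟩
  refine finite_of_fun θ (ι := Unit ⊕ Fin p ⊕ Fin p)
    (Sum.elim (fun _ => 1) (Sum.elim (fun i => C X ^ (i.1 + 1)) fun i => X ^ (i.1 + 1)))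
    (ps_nak θ (sep_X _ (by rw [h1]; exact ev1_ww)) _ fun g => ?_)
  obtain ⟨a, ha⟩ := ps_dec (ev1 g)
  obtain ⟨b, hb⟩ := ps_dec (ev2 g)
  rw [cc_ev1] at ha
  rw [cc_ev2] at hb
  obtain ⟨v, hv, -⟩ := uu_inv p t
  obtain ⟨c, hc⟩ := ps_gen p hp.out.ne_zero (th1 p t) (th1_C p t) _ v hv (th1_X p t) a
  obtain ⟨d, hd⟩ := ps_gen p hp.out.ne_zero (th2 p A) (th2_C p) 1 1 (mul_one 1)
    (by simp) b
  refine ⟨Sum.elim (fun _ => C (cc0 g)) (Sum.elim c d), ?_⟩
  rw [h1]
  refine eq_of_ev ?_ ?_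
  · rw [ha, hc]
    simp [k1, pow_succ, ← mul_assoc, ← Finset.sum_mul]
    ring
  · rw [hb, hd]
    simp [k2, pow_succ, ← mul_assoc, ← Finset.sum_mul]
    ring

omit hp in
lemma der_x1 (h : (p : A) = 0) : d⁄dX A (x1 p t) = X ^ (2 * p) := by
  have h1 : (p : A⟦X⟧) = 0 := cast_eq_zero C h
  have h2 : d⁄dX A (X ^ p : A⟦X⟧) = 0 := by rw [derivative_pow, h1]; simp
  simp only [x1, uu, Derivation.leibniz, h2, map_add, derivative_C, derivative_X,
    Derivation.map_one_eq_zero, smul_eq_mul]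
  ring

lemma dvd_of_th1 (n : ℕ) : ∀ g : A⟦X⟧, X ^ (p * n) ∣ th1 p t g → X ^ n ∣ g := by
  induction n with
  | zero => intro g _; simp
  | succ n ih =>
    rintro g ⟨e, he⟩
    have h0 : constantCoeff g = 0 := by
      rw [← cc_th1 p t, he]
      simp [hp.out.ne_zero]
    obtain ⟨g', rfl⟩ := ps_div h0
    obtain ⟨v, hv, -⟩ := uu_inv p t
    rw [map_mul, th1_X, x1] at he
    have h1 : uu p t * th1 p t g' - X ^ (p * n) * e = 0 :=
      X_pow_reg p _ (by rw [mul_add, pow_add] at he; linear_combination he)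
    obtain ⟨q, rfl⟩ := ih g' ⟨v * e, by linear_combination v * h1 - th1 p t g' * hv⟩
    exact ⟨q, by ring⟩

lemma key_low [IsDomain A] [CharP A p] (a m h : A⟦X⟧)
    (e : a ^ p = th1 p t h + x1 p t ^ p * m) :
    ∃ c₀ c₁ h₂, h = C c₀ + X ^ (p - 1) * (C c₁ + X * h₂) := by
  have h0 : (p : A) = 0 := CharP.cast_eq_zero A p
  have h1 : (p : A⟦X⟧) = 0 := cast_eq_zero C h0
  obtain ⟨q, hq⟩ : ∃ q, p = q + 2 := ⟨p - 2, by have := hp.out.two_le; omega⟩
  have h2 := congrArg (d⁄dX A) e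
  have h3 : d⁄dX A (th1 p t h) = th1 p t (d⁄dX A h) * X ^ (2 * p) := by
    have := derivative_subst (f := h) (HasSubst.of_constantCoeff_zero' (cc_x1 p t))
    rw [der_x1 p t h0, ← coe_substAlgHom (HasSubst.of_constantCoeff_zero' (cc_x1 p t))] at this
    exact this
  rw [map_add, Derivation.leibniz, derivative_pow, derivative_pow, h1, h3] at h2
  simp only [zero_mul, smul_eq_mul, mul_zero, add_zero] at h2
  have h4 : X ^ q ∣ d⁄dX A h := dvd_of_th1 p t q _ ⟨- uu p t ^ p * d⁄dX A m, sub_eq_zero.1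
    (X_pow_reg (2 * p) _ (by
      rw [x1, mul_pow, ← pow_mul, show p * p = 2 * p + p * q by rw [hq]; ring, pow_add] at h2
      linear_combination - h2))⟩
  obtain ⟨h', hh⟩ := ps_dec h
  have h5 : X ^ q ∣ h' := X_pow_dvd_iff.2 fun i hi => by
    have h6 := X_pow_dvd_iff.1 h4 i hi
    rw [coeff_derivative, hh, map_add, coeff_succ_X_mul, coeff_succ_C, add_zero,
      mul_eq_zero] at h6
    refine h6.resolve_right fun h7 => ?_
    have : p ∣ i + 1 := (CharP.cast_eq_zero_iff A p _).1 (by exact_mod_cast h7)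
    have := Nat.le_of_dvd (by omega) this
    omega
  obtain ⟨k, rfl⟩ := h5
  obtain ⟨h₂, hk⟩ := ps_dec k
  refine ⟨constantCoeff h, constantCoeff k, h₂, ?_⟩
  rw [show p - 1 = q + 1 by omega]
  linear_combination hh + X ^ (q + 1) * hk

lemma key_axes [IsDomain A] [CharP A p] (ht : ∀ l m : A, l ^ p = t * m ^ p → m = 0)
    (a b m₁ m₂ h : A⟦X⟧) (e₁ : a ^ p = th1 p t h + x1 p t ^ p * m₁)
    (e₂ : b ^ p = th2 p A h + (X ^ p) ^ p * m₂) (e₃ : constantCoeff m₁ = constantCoeff m₂) :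
    ∃ c a' b', a = C c + X ^ p * a' ∧ b = C c + X ^ p * b' ∧
      constantCoeff a' = constantCoeff b' := by
  have h0 : (p : A) = 0 := CharP.cast_eq_zero A p
  obtain ⟨c₀, c₁, h₂, rfl⟩ := key_low p t a m₁ h e₁
  obtain ⟨q, hq⟩ : ∃ q, p = q + 2 := ⟨p - 2, by have := hp.out.two_le; omega⟩
  rw [show p - 1 = q + 1 by omega] at e₁ e₂
  simp only [map_add, map_mul, map_pow, th1_C, th1_X, th2_C, th2_X] at e₁ e₂
  obtain ⟨z, hz⟩ := sq_dvd_add_pow_sub_sub (X ^ p * (C t + X) : A⟦X⟧) 1 (q + 1)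
  have hq1 : ((q + 1 : ℕ) : A⟦X⟧) = -1 := by
    have : ((q + 2 : ℕ) : A⟦X⟧) = 0 := hq ▸ cast_eq_zero C h0
    push_cast at this ⊢
    linear_combination this
  rw [hq1, one_pow, one_pow] at hz
  have hu : uu p t ^ (q + 1) = 1 + X ^ p * (- (C t + X) + X ^ p * ((C t + X) ^ 2 * z)) := by
    rw [uu]
    linear_combination hz
  obtain ⟨M₁, hM₁⟩ : ∃ M₁, M₁ = C c₁ * (- (C t + X) + X ^ p * ((C t + X) ^ 2 * z)) +
    uu p t ^ p * (th1 p t h₂ + m₁) := ⟨_, rfl⟩
  have f₁ : a ^ p = C c₀ + X ^ (p * (q + 1)) * (C c₁ + X ^ p * M₁) := by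
    have h3 : uu p t ^ p = uu p t ^ (q + 1) * uu p t := by rw [← pow_succ, ← hq]
    have h4 : (X ^ p : A⟦X⟧) ^ p = (X ^ p) ^ (q + 1) * X ^ p := by rw [← pow_succ, ← hq]
    rw [e₁, hM₁, x1, mul_pow, mul_pow, h4, h3, pow_mul]
    linear_combination (X ^ p) ^ (q + 1) * C c₁ * hu
  have f₂ : b ^ p = C c₀ + X ^ (p * (q + 1)) * (C c₁ + X ^ p * (th2 p A h₂ + m₂)) := by
    have h4 : (X ^ p : A⟦X⟧) ^ p = (X ^ p) ^ (q + 1) * X ^ p := by rw [← pow_succ, ← hq]
    rw [e₂, h4, pow_mul]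
    ring
  have hpos : 0 < p * (q + 1) := Nat.mul_pos hp.out.pos (Nat.succ_pos q)
  have top : ∀ a M : A⟦X⟧, a ^ p = C c₀ + X ^ (p * (q + 1)) * (C c₁ + X ^ p * M) →
      coeff (q + 1) a ^ p = c₁ ∧ coeff p a ^ p = constantCoeff M := by
    intro a M e
    constructor
    · rw [← coeff_pow_p, e, map_add, coeff_C, if_neg hpos.ne', zero_add, coeff_X_pow_mul',
        if_pos le_rfl, Nat.sub_self]
      simp [hp.out.ne_zero]
    · have h5 : p * p = 0 + p + p * (q + 1) := by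
        conv_lhs => rw [show p * p = p * (q + 2) from congrArg _ hq]
        ring
      rw [← coeff_pow_p, e, map_add, coeff_C, if_neg (by omega), zero_add, h5, coeff_X_pow_mul,
        map_add, coeff_X_pow_mul, coeff_C, if_neg (by have := hp.out.pos; omega)]
      simp
  obtain ⟨-, g₁⟩ := top a _ f₁
  obtain ⟨g₂, g₃⟩ := top b _ f₂
  rw [hM₁] at g₁
  simp only [map_add, map_mul, map_pow, map_neg, constantCoeff_C, constantCoeff_X, cc_uu, cc_th1,
    cc_th2, zero_pow hp.out.ne_zero, one_pow] at g₁ g₃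
  have g₄ : (coeff p b - coeff p a) ^ p = t * coeff (q + 1) b ^ p := by
    rw [sub_pow_char, g₁, g₂, g₃, e₃]
    ring
  have g₅ := ht _ _ g₄
  rw [g₅, zero_pow hp.out.ne_zero] at g₂ g₄
  rw [mul_zero, pow_eq_zero_iff hp.out.ne_zero, sub_eq_zero] at g₄
  subst g₂
  have low : ∀ a M : A⟦X⟧, a ^ p = C c₀ + X ^ (p * (q + 1)) * (C 0 + X ^ p * M) →
      coeff 0 a ^ p = c₀ ∧
        ∃ a', a = C (coeff 0 a) + X ^ p * a' ∧ constantCoeff a' = coeff p a := by
    intro a M e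
    have e' : a ^ p = C c₀ + X ^ (p * p) * M := by
      rw [e, map_zero, zero_add, ← mul_assoc, ← pow_add, ← Nat.mul_succ]
      congr 4
      exact hq.symm
    refine ⟨?_, ?_⟩
    · rw [← coeff_pow_p, e', mul_zero]
      simp [hp.out.ne_zero]
    · obtain ⟨a', ha'⟩ : X ^ p ∣ a - C (coeff 0 a) := X_pow_dvd_iff.2 fun i hi => by
        rw [map_sub, coeff_C]
        split_ifs with h6
        · rw [h6, sub_self]
        · rw [sub_zero, ← pow_eq_zero_iff hp.out.ne_zero, ← coeff_pow_p, e', map_add, coeff_C,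
            if_neg (Nat.mul_ne_zero hp.out.ne_zero h6), coeff_X_pow_mul',
            if_neg (not_le.2 (Nat.mul_lt_mul_of_pos_left hi hp.out.pos)), add_zero]
      refine ⟨a', by linear_combination ha', ?_⟩
      have := congrArg (coeff (0 + p)) ha'
      rw [coeff_X_pow_mul, map_sub, coeff_C, if_neg (by have := hp.out.pos; omega), zero_add,
        sub_zero, coeff_zero_eq_constantCoeff_apply] at this
      exact this.symm
  obtain ⟨k₁, a', k₂, k₃⟩ := low a _ f₁
  obtain ⟨k₄, b', k₅, k₆⟩ := low b _ f₂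
  have k₇ : coeff 0 b = coeff 0 a := by
    rw [← sub_eq_zero, ← pow_eq_zero_iff hp.out.ne_zero, sub_pow_char, k₁, k₄, sub_self]
  exact ⟨_, a', b', k₂, k₇ ▸ k₅, by rw [k₃, k₆, g₄]⟩

end Pool.Agent.Work.MP_34c70a_al.GF
end
end

section
/-!
The glued domain.
-/

set_option autoImplicit false

open PowerSeries

noncomputable section

namespace Pool.Agent.Work.MP_34c70a_al.GF

variable {O Λ : Type} [CommRing O] [CommRing Λ] [Algebra O Λ] (p : ℕ) [hp : Fact p.Prime]
  (σ : Λ →ₐ[O] Λ) (t : O)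

/-- The twisted parametrisation of the first surface. -/
def pi1 : Λ⟦X⟧ →+* Λ⟦X⟧ := (th1 p (algebraMap O Λ t)).comp (map (σ : Λ →+* Λ))

lemma pi1_apply (h : Λ⟦X⟧) :
    pi1 p σ t h = th1 p (algebraMap O Λ t) (map (σ : Λ →+* Λ) h) := rfl

@[simp] lemma pi1_X : pi1 p σ t X = x1 p (algebraMap O Λ t) := by simp [pi1_apply]

@[simp] lemma pi1_C (a : Λ) : pi1 p σ t (C a) = C (σ a) := by simp [pi1_apply]

lemma cc_pi1 (h : Λ⟦X⟧) : constantCoeff (pi1 p σ t h) = σ (constantCoeff h) := by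
  rw [pi1_apply, cc_th1, cc_map]
  rfl

/-- The intermediate ring. -/
def R1 : Subring (A2 Λ × Λ⟦X⟧) :=
  RingHom.eqLocus (ev1.comp (RingHom.fst _ _)) ((pi1 p σ t).comp (RingHom.snd _ _)) ⊓
    RingHom.eqLocus (ev2.comp (RingHom.fst _ _)) ((th2 p Λ).comp (RingHom.snd _ _))

/-- The glued ring. -/
def RR : Subring (A2 Λ × Λ⟦X⟧) :=
  R1 p σ t ⊓ (algebraMap O Λ).range.comap (constantCoeff.comp (RingHom.snd _ _))

lemma mem_R1 (b : A2 Λ × Λ⟦X⟧) :
    b ∈ R1 p σ t ↔ ev1 b.1 = pi1 p σ t b.2 ∧ ev2 b.1 = th2 p Λ b.2 := Iff.rfl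

lemma mem_RR (b : A2 Λ × Λ⟦X⟧) :
    b ∈ RR p σ t ↔ (ev1 b.1 = pi1 p σ t b.2 ∧ ev2 b.1 = th2 p Λ b.2) ∧
      ∃ o, algebraMap O Λ o = constantCoeff b.2 := Iff.rfl

/-- The inclusion of the intermediate ring in the power series ring. -/
def ka : R1 p σ t →+* A2 Λ := (RingHom.fst _ _).comp (R1 p σ t).subtype

/-- The inclusion of the glued ring in the intermediate ring. -/
def inc : RR p σ t →+* R1 p σ t := (RR p σ t).subtype.codRestrict (R1 p σ t) (fun r => r.2.1)

/-- The inclusion of the glued ring in the power series ring. -/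
def io : RR p σ t →+* A2 Λ := (RingHom.fst _ _).comp (RR p σ t).subtype

/-- Restriction to the double surface. -/
def rho : RR p σ t →+* Λ⟦X⟧ := (RingHom.snd _ _).comp (RR p σ t).subtype

lemma ka_inc (r : RR p σ t) : ka p σ t (inc p σ t r) = io p σ t r := rfl

lemma ka_inj : Function.Injective (ka p σ t) := by
  intro a b h
  have h' : a.1.1 = b.1.1 := h
  refine Subtype.ext (Prod.ext h' (th2_inj p ?_))
  rw [← ((mem_R1 p σ t _).1 a.2).2, ← ((mem_R1 p σ t _).1 b.2).2]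
  exact congrArg ev2 h'

lemma inc_inj : Function.Injective (inc p σ t) := fun _ _ h =>
  Subtype.ext (congrArg (fun z : R1 p σ t => z.1) h)

lemma io_inj : Function.Injective (io p σ t) := (ka_inj p σ t).comp (inc_inj p σ t)

lemma ev1_io (r : RR p σ t) : ev1 (io p σ t r) = pi1 p σ t (rho p σ t r) := r.2.1.1

lemma ev2_io (r : RR p σ t) : ev2 (io p σ t r) = th2 p Λ (rho p σ t r) := r.2.1.2

lemma cc0_io (r : RR p σ t) : cc0 (io p σ t r) = constantCoeff (rho p σ t r) := by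
  rw [← cc_ev2, ev2_io, cc_th2]

instance [IsDomain Λ] : IsDomain (RR p σ t) := (io_inj p σ t).isDomain _

lemma cond (g : A2 Λ) : ∃ r, io p σ t r = ww Λ * g ∧ rho p σ t r = 0 :=
  ⟨⟨(ww Λ * g, 0), (mem_RR p σ t _).2 ⟨by simp, 0, by simp⟩⟩, rfl, rfl⟩

lemma rho_surj (o : O) (h : Λ⟦X⟧) : ∃ r, rho p σ t r = C (algebraMap O Λ o) + X * h :=
  ⟨⟨(lift (pi1 p σ t (C (algebraMap O Λ o) + X * h)) (th2 p Λ (C (algebraMap O Λ o) + X * h)), _),
    (mem_RR p σ t _).2 ⟨⟨ev1_lift _ _, ev2_lift (by rw [cc_pi1, cc_th2]; simp)⟩, o, by simp⟩⟩, rfl⟩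

lemma ker_rho (r : RR p σ t) (h : rho p σ t r = 0) : ∃ e, io p σ t r = ww Λ * e :=
  ker_ev (by rw [ev1_io, h, map_zero]) (by rw [ev2_io, h, map_zero])

lemma ker_rho_mul (r : RR p σ t) (h : rho p σ t r = 0) (y : A2 Λ) :
    ∃ r', io p σ t r' = io p σ t r * y := by
  obtain ⟨e, he⟩ := ker_rho p σ t r h
  obtain ⟨r', hr, -⟩ := cond p σ t (e * y)
  exact ⟨r', by rw [hr, he, mul_assoc]⟩

/-- The finite map given by the parameters. -/
def theta : A2 Λ →+* A2 Λ := (exists_theta p (algebraMap O Λ t)).choose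

/-- The structure map of the glued ring. -/
def alR : A2 O →+* RR p σ t :=
  (((theta p t).comp (G.mA (algebraMap O Λ))).prod ((map (algebraMap O Λ)).comp ev1)).codRestrict
    (RR p σ t) (fun a => by
      obtain ⟨h1, h2, h3, -⟩ := (exists_theta p (algebraMap O Λ t)).choose_spec
      obtain ⟨e, he⟩ := ps_dec (G.mA (algebraMap O Λ) a)
      have h4 : constantCoeff (G.mA (algebraMap O Λ) a) = map (algebraMap O Λ) (ev1 a) :=
        ev1_mA _ a
      rw [h4] at he
      rw [mem_RR]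
      simp only [RingHom.prod_apply, RingHom.comp_apply, theta]
      rw [he, map_add, map_mul, h1, pi1_apply, G.map_σ_map]
      refine ⟨⟨by simp [h2], by simp [h3]⟩, _, (cc_map _ _).symm⟩)

lemma io_alR (a : A2 O) : io p σ t (alR p σ t a) = theta p t (G.mA (algebraMap O Λ) a) := rfl

lemma rho_alR (a : A2 O) : rho p σ t (alR p σ t a) = map (algebraMap O Λ) (ev1 a) := rfl

lemma io_W : io p σ t (alR p σ t X) = ww Λ := by
  rw [io_alR, G.mA_W]
  exact (exists_theta p (algebraMap O Λ t)).choose_spec.1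

lemma io_x : io p σ t (alR p σ t (C X)) = xt p (algebraMap O Λ t) := by
  rw [io_alR, G.mA_x]
  exact (exists_theta p (algebraMap O Λ t)).choose_spec.2.2.2.1

lemma io_CC (a : O) : io p σ t (alR p σ t (CC a)) = CC (algebraMap O Λ a) := by
  rw [io_alR, G.mA_CC]
  exact (exists_theta p (algebraMap O Λ t)).choose_spec.2.2.2.2.1 _

lemma rho_W : rho p σ t (alR p σ t X) = 0 := by simp [rho_alR]

lemma rho_x : rho p σ t (alR p σ t (C X)) = X := by simp [rho_alR]

lemma rho_CC (a : O) : rho p σ t (alR p σ t (CC a)) = C (algebraMap O Λ a) := by simp [rho_alR]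

lemma alR_finite [IsNoetherianRing O] [Module.Finite O Λ] : (alR p σ t).Finite := by
  have h1 : (theta p t : A2 Λ →+* A2 Λ).Finite :=
    (exists_theta p (algebraMap O Λ t)).choose_spec.2.2.2.2.2
  have h2 : (G.mA (algebraMap O Λ)).Finite :=
    G.ps_map_finite _ (G.ps_map_finite _ (RingHom.finite_algebraMap.2 inferInstance))
  refine G.finite_of_inj (alR p σ t) (io p σ t) (io_inj p σ t) ?_
  rw [show (io p σ t).comp (alR p σ t) = (theta p t).comp (G.mA (algebraMap O Λ)) from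
    RingHom.ext fun a => io_alR p σ t a]
  exact h1.comp h2

lemma three_le {α : Type} [Preorder α] {a b c d : α} (h1 : a < b) (h2 : b < c) (h3 : c < d) :
    (3 : WithBot ℕ∞) ≤ Order.krullDim α :=
  Order.LTSeries.length_le_krullDim (LTSeries.mk 3 ![a, b, c, d]
    (Fin.strictMono_iff_lt_succ.2 fun i => by fin_cases i <;> assumption))

instance [IsNoetherianRing O] [Module.Finite O Λ] : IsNoetherianRing (RR p σ t) := by
  let := (alR p σ t).toAlgebra
  have : Module.Finite (A2 O) (RR p σ t) := alR_finite p σ t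
  exact IsNoetherianRing.of_finite (A2 O) (RR p σ t)

section faithful

variable [FaithfulSMul O Λ]

/-- Restriction to the special curve. -/
def c0 : RR p σ t →+* O :=
  (RingEquiv.ofBijective (algebraMap O Λ).rangeRestrict
    ⟨fun _ _ h => FaithfulSMul.algebraMap_injective O Λ (congrArg Subtype.val h),
      (algebraMap O Λ).rangeRestrict_surjective⟩).symm.toRingHom.comp
    ((constantCoeff.comp (rho p σ t)).codRestrict (algebraMap O Λ).range (fun r => r.2.2))

lemma c0_spec (r : RR p σ t) : algebraMap O Λ (c0 p σ t r) = constantCoeff (rho p σ t r) :=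
  congrArg Subtype.val ((RingEquiv.ofBijective (algebraMap O Λ).rangeRestrict
    ⟨fun _ _ h => FaithfulSMul.algebraMap_injective O Λ (congrArg Subtype.val h),
      (algebraMap O Λ).rangeRestrict_surjective⟩).apply_symm_apply
        ⟨constantCoeff (rho p σ t r), r.2.2⟩)

lemma c0_alR (a : A2 O) : c0 p σ t (alR p σ t a) = cc0 a := by
  apply FaithfulSMul.algebraMap_injective O Λ
  rw [c0_spec, rho_alR, cc_map, cc_ev1]

lemma c0_unit (r : RR p σ t) (h : IsUnit (c0 p σ t r)) : IsUnit r := by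
  obtain ⟨v, hv⟩ := h.exists_right_inv
  have h0 : constantCoeff (rho p σ t r) * algebraMap O Λ v = 1 := by
    rw [← c0_spec, ← map_mul, hv, map_one]
  obtain ⟨g, hg⟩ := (cc0_unit (io p σ t r)
    (by rw [cc0_io]; exact IsUnit.of_mul_eq_one _ h0)).exists_right_inv
  obtain ⟨u, hu⟩ := (isUnit_iff_constantCoeff.2 (IsUnit.of_mul_eq_one _ h0)).exists_right_inv
  have h1 := congrArg ev1 hg
  have h2 := congrArg ev2 hg
  have h3 := congrArg (pi1 p σ t) hu
  have h4 := congrArg (th2 p Λ) hu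
  have h5 := congrArg constantCoeff hu
  rw [map_mul, map_one] at h1 h2 h3 h4 h5
  rw [ev1_io] at h1
  rw [ev2_io] at h2
  refine IsUnit.of_mul_eq_one ⟨(g, u), (mem_RR p σ t _).2 ⟨⟨?_, ?_⟩, v, ?_⟩⟩
    (Subtype.ext (Prod.ext hg hu))
  · linear_combination pi1 p σ t u * h1 - ev1 g * h3
  · linear_combination th2 p Λ u * h2 - ev2 g * h4
  · linear_combination constantCoeff u * h0 - algebraMap O Λ v * h5

instance : IsLocalHom (c0 p σ t) := ⟨c0_unit p σ t⟩

instance [IsLocalRing O] : IsLocalRing (RR p σ t) := (c0 p σ t).domain_isLocalRing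

lemma mem_max [IsLocalRing O] (r : RR p σ t) :
    r ∈ IsLocalRing.maximalIdeal (RR p σ t) ↔ ¬ IsUnit (c0 p σ t r) := by
  rw [IsLocalRing.mem_maximalIdeal, mem_nonunits_iff, isUnit_map_iff]

theorem dim_eq [IsLocalRing O] [IsNoetherianRing O] [Module.Finite O Λ]
    [IsDomain Λ] (f : O) (hf : f ≠ 0) (hu : ¬ IsUnit f)
    (hm : ∀ o : O, ¬ IsUnit o → ∃ m, o = f * m) : ringKrullDim (RR p σ t) = 3 := by
  classical
  have hW : alR p σ t X ∈ IsLocalRing.maximalIdeal (RR p σ t) := by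
    rw [mem_max, c0_alR, cc0_W]; exact not_isUnit_zero
  have hx : alR p σ t (C X) ∈ IsLocalRing.maximalIdeal (RR p σ t) := by
    rw [mem_max, c0_alR, cc0_x]; exact not_isUnit_zero
  have hff : alR p σ t (CC f) ∈ IsLocalRing.maximalIdeal (RR p σ t) := by
    rw [mem_max, c0_alR, cc0_CC]; exact hu
  apply le_antisymm
  · rw [← IsLocalRing.maximalIdeal_height_eq_ringKrullDim]
    have key : ∀ P : Ideal (RR p σ t), P.IsPrime → alR p σ t X ∈ P → alR p σ t (C X) ∈ P →
        alR p σ t (CC f) ∈ P → P = IsLocalRing.maximalIdeal (RR p σ t) := by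
      intro P hP h1 h2 h3
      let := (alR p σ t).toAlgebra
      have : Module.Finite (A2 O) (RR p σ t) := alR_finite p σ t
      have h4 : IsLocalRing.maximalIdeal (A2 O) ≤ P.comap (alR p σ t) := by
        intro a ha
        obtain ⟨m, hm'⟩ := hm (cc0 a) (fun h => ha (cc0_unit a h))
        obtain ⟨u, v, huv⟩ := cc0_dec (a := a - CC f * CC m) (by simp [hm'])
        rw [show a = X * u + C X * v + CC f * CC m by linear_combination huv]
        exact add_mem (add_mem (Ideal.mul_mem_right _ _ h1) (Ideal.mul_mem_right _ _ h2))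
          (Ideal.mul_mem_right _ _ h3)
      have h5 : (P.comap (algebraMap (A2 O) (RR p σ t))).IsMaximal := by
        change (P.comap (alR p σ t)).IsMaximal
        rw [← (IsLocalRing.maximalIdeal.isMaximal (A2 O)).eq_of_le
          (Ideal.comap_ne_top _ hP.ne_top) h4]
        infer_instance
      exact IsLocalRing.eq_maximalIdeal (Ideal.isMaximal_of_isIntegral_of_isMaximal_comap P h5)
    have hmin : IsLocalRing.maximalIdeal (RR p σ t) ∈ (Ideal.span
        (({alR p σ t X, alR p σ t (C X), alR p σ t (CC f)} : Finset (RR p σ t)) :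
          Set (RR p σ t))).minimalPrimes := by
      refine ⟨⟨inferInstance, Ideal.span_le.2 ?_⟩, fun P hP _ => ?_⟩
      · intro z hz
        simp only [Finset.coe_insert, Finset.coe_singleton, Set.mem_insert_iff,
          Set.mem_singleton_iff] at hz
        rcases hz with rfl | rfl | rfl <;> assumption
      · exact (key P hP.1 (hP.2 (Ideal.subset_span (by simp))) (hP.2 (Ideal.subset_span (by simp)))
          (hP.2 (Ideal.subset_span (by simp)))).ge
    have := (Ideal.height_le_card_of_mem_minimalPrimes_span_finset hmin).trans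
      (Nat.cast_le.2 Finset.card_le_three)
    exact WithBot.coe_le_coe.2 this
  · let P₁ : PrimeSpectrum (RR p σ t) := ⟨RingHom.ker (rho p σ t), RingHom.ker_isPrime _⟩
    let P₂ : PrimeSpectrum (RR p σ t) :=
      ⟨RingHom.ker (constantCoeff.comp (rho p σ t)), RingHom.ker_isPrime _⟩
    have m1 : ∀ r : RR p σ t, r ∈ P₁.asIdeal ↔ rho p σ t r = 0 := fun _ => Iff.rfl
    have m2 : ∀ r : RR p σ t, r ∈ P₂.asIdeal ↔ constantCoeff (rho p σ t r) = 0 := fun _ => Iff.rfl
    have l1 : (⟨⊥, Ideal.isPrime_bot⟩ : PrimeSpectrum (RR p σ t)) < P₁ := by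
      refine lt_of_le_of_ne bot_le fun h => ?_
      have : alR p σ t X ∈ P₁.asIdeal := by rw [m1, rho_W]
      rw [← h] at this
      have h3 := congrArg (io p σ t) (Ideal.mem_bot.1 this)
      rw [io_W, map_zero] at h3
      exact one_ne_zero (ww_reg 1 (by rw [h3, zero_mul]))
    have l2 : P₁ < P₂ := by
      refine lt_of_le_of_ne (fun r hr => ?_) fun h => ?_
      · rw [m2, (m1 r).1 hr, map_zero]
      · have : alR p σ t (C X) ∈ P₂.asIdeal := by rw [m2, rho_x, constantCoeff_X]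
        rw [← h, m1, rho_x] at this
        exact X_ne_zero this
    have l3 : P₂ < ⟨IsLocalRing.maximalIdeal (RR p σ t), inferInstance⟩ := by
      refine lt_of_le_of_ne (IsLocalRing.le_maximalIdeal P₂.2.ne_top) fun h => ?_
      have : alR p σ t (CC f) ∈ P₂.asIdeal := by rw [h]; exact hff
      rw [m2, rho_CC, constantCoeff_C] at this
      exact hf (FaithfulSMul.algebraMap_injective O Λ (by rw [this, map_zero]))
    exact three_le l1 l2 l3

end faithful

section proj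

variable {O' Λ' : Type} [CommRing O'] [CommRing Λ'] [Algebra O' Λ'] (pO : O →+* O')
  (pΛ : Λ →+* Λ') (hc : ∀ o, pΛ (algebraMap O Λ o) = algebraMap O' Λ' (pO o))
  (hσ : ∀ l, pΛ (σ l) = pΛ l)

include hc hσ in
lemma map_pi1 (h : Λ⟦X⟧) :
    map pΛ (pi1 p σ t h) = pi1 p (AlgHom.id O' Λ') (pO t) (map pΛ h) := by
  rw [pi1_apply, pi1_apply, map_th1, hc]
  congr 1
  ext n
  simp [coeff_map, hσ]

/-- Base change on the glued ring. -/
def mR : RR p σ t →+* RR p (AlgHom.id O' Λ') (pO t) :=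
  (((G.mA pΛ).comp (io p σ t)).prod ((map pΛ).comp (rho p σ t))).codRestrict _ (fun r => by
    obtain ⟨o, ho⟩ := r.2.2
    have ho' : algebraMap O Λ o = constantCoeff (rho p σ t r) := ho
    rw [mem_RR]
    simp only [RingHom.prod_apply, RingHom.comp_apply]
    rw [ev1_mA, ev2_mA, ev1_io, ev2_io, map_pi1 p σ t pO pΛ hc hσ, map_th2, cc_map, ← ho', hc]
    exact ⟨⟨rfl, rfl⟩, _, rfl⟩)

lemma io_mR (r : RR p σ t) :
    io p _ _ (mR p σ t pO pΛ hc hσ r) = G.mA pΛ (io p σ t r) := rfl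

lemma rho_mR (r : RR p σ t) :
    rho p _ _ (mR p σ t pO pΛ hc hσ r) = map pΛ (rho p σ t r) := rfl

lemma ps_surj' {A B : Type} [CommRing A] [CommRing B] {g : A →+* B} (h : Function.Surjective g) :
    Function.Surjective (PowerSeries.map g) := fun b =>
  ⟨mk fun n => (h (coeff n b)).choose, by
    ext n; rw [coeff_map, coeff_mk, (h (coeff n b)).choose_spec]⟩

lemma mR_surj (hO : Function.Surjective pO) (hΛ : Function.Surjective pΛ) :
    Function.Surjective (mR p σ t pO pΛ hc hσ) := by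
  intro s
  obtain ⟨o, ho⟩ := s.2.2
  have ho' : algebraMap O' Λ' o = constantCoeff (rho p _ _ s) := ho
  obtain ⟨e, he⟩ := ps_dec (rho p _ _ s)
  obtain ⟨o, rfl⟩ := hO o
  obtain ⟨e, rfl⟩ := ps_surj' hΛ e
  obtain ⟨r, hr⟩ := rho_surj p σ t o e
  obtain ⟨g, hg⟩ := ker_rho p _ _ (s - mR p σ t pO pΛ hc hσ r) (by
    rw [map_sub, rho_mR, hr, he, ← ho']
    simp [hc, add_comm])
  obtain ⟨g, rfl⟩ := ps_surj' (ps_surj' hΛ) g
  obtain ⟨r', hr', -⟩ := cond p σ t g
  refine ⟨r + r', io_inj p _ _ ?_⟩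
  rw [map_sub] at hg
  rw [map_add, map_add, io_mR p σ t pO pΛ hc hσ r', hr', map_mul, mA_ww]
  change _ + _ * map (map pΛ) g = _
  linear_combination - hg

lemma mR_ker (f : O) (hpf : pO f = 0) (hf : ∀ m : Λ, algebraMap O Λ f * m = 0 → m = 0)
    (hsat : ∀ (l : Λ) (o : O), algebraMap O Λ o = algebraMap O Λ f * l →
      ∃ o', algebraMap O Λ o' = l)
    (hk : ∀ l, pΛ l = 0 → ∃ l', l = algebraMap O Λ f * l') :
    RingHom.ker (mR p σ t pO pΛ hc hσ) = Ideal.span {alR p σ t (CC f)} := by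
  apply le_antisymm
  · intro r h
    have h1 := io_mR p σ t pO pΛ hc hσ r
    have h2 := rho_mR p σ t pO pΛ hc hσ r
    rw [RingHom.mem_ker.1 h, map_zero] at h1 h2
    obtain ⟨g, hg⟩ := ps_ker (map pΛ) (C (algebraMap O Λ f)) (ps_ker pΛ _ hk) _ h1.symm
    obtain ⟨e, he⟩ := ps_ker pΛ _ hk _ h2.symm
    have e1 := ev1_io p σ t r
    have e2 := ev2_io p σ t r
    obtain ⟨o, ho⟩ := r.2.2
    have ho' : algebraMap O Λ o = constantCoeff (rho p σ t r) := ho
    rw [hg, he, map_mul, map_mul] at e1 e2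
    rw [he, map_mul, constantCoeff_C] at ho'
    rw [ev1_C, pi1_C, AlgHom.commutes] at e1
    rw [ev2_C, th2_C, constantCoeff_C] at e2
    rw [Ideal.mem_span_singleton]
    refine ⟨⟨(g, e), (mem_RR p σ t _).2 ⟨⟨sub_eq_zero.1 (ps_C_reg hf _ ?_),
      sub_eq_zero.1 (ps_C_reg hf _ ?_)⟩, hsat _ o ho'⟩⟩, io_inj p σ t ?_⟩
    · linear_combination e1
    · linear_combination e2
    · rw [map_mul, io_CC, hg]
      rfl
  · rw [Ideal.span_le, Set.singleton_subset_iff]
    apply io_inj p _ _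
    rw [io_mR, io_CC, G.mA_CC, hc, hpf, map_zero, map_zero, map_zero]

end proj

end Pool.Agent.Work.MP_34c70a_al.GF
end
end

section
/-!
Frobenius on the local cohomology of the special fibre, of the total space and of the generic
fibre.
-/

set_option autoImplicit false

open PowerSeries CategoryTheory Pool.Agent.Lib.LocalCoh

noncomputable section

namespace Pool.Agent.Work.MP_34c70a_al.GF

variable (p : ℕ) [hp : Fact p.Prime]

section fibre

variable {k L : Type} [Field k] [CommRing L] [IsDomain L] [Algebra k L] (t : k)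

omit [IsDomain L] in
lemma pi1_id (h : L⟦X⟧) : pi1 p (AlgHom.id k L) t h = th1 p (algebraMap k L t) h := by
  have : map ((AlgHom.id k L : L →ₐ[k] L) : L →+* L) h = h := by
    ext n
    simp
  rw [pi1_apply, this]

theorem finj_S [Module.Finite k L] [CharP L p]
    (hP : ∀ (l : L) (o : k), algebraMap k L o = l ^ p → ∃ o', algebraMap k L o' = l)
    (ht : ∀ l m : L, l ^ p = algebraMap k L t * m ^ p → m = 0)
    (hs : ∃ ψ : L →+ L, (∀ a c, ψ (a ^ p * c) = a * ψ c) ∧ ψ 1 = 1)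
    (F : RR p (AlgHom.id k L) t →+* RR p (AlgHom.id k L) t) (hF : ∀ x, F x = x ^ p)
    (φ : ModuleCat.of (RR p (AlgHom.id k L) t) (RR p (AlgHom.id k L) t) ⟶
      (ModuleCat.restrictScalars F).obj (ModuleCat.of _ (RR p (AlgHom.id k L) t)))
    (hφ : ∀ x : RR p (AlgHom.id k L) t, φ.hom x = F x) (i : ℕ) :
    Inj (IsLocalRing.maximalIdeal (RR p (AlgHom.id k L) t)) i φ := by
  have hmax : ∀ r ∈ IsLocalRing.maximalIdeal (RR p (AlgHom.id k L) t),
      constantCoeff (rho p _ t r) = 0 := fun r hr => by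
    rw [mem_max, isUnit_iff_ne_zero, not_not] at hr
    rw [← c0_spec, hr, map_zero]
  have hL : (p : L) = 0 := CharP.cast_eq_zero L p
  have c1 : CharP L⟦X⟧ p := (CharP.charP_iff_prime_eq_zero hp.out).2 (cast_eq_zero C hL)
  obtain ⟨ψ, hψ, hψ1⟩ := ps_split p (ps_split p hs)
  have h2 : (p : RR p (AlgHom.id k L) t) = 0 := io_inj p _ t (by
    rw [map_natCast, map_zero]
    exact cast_eq_zero CC hL)
  obtain ⟨v, hv, hv1⟩ := uu_inv p (algebraMap k L t)
  refine finj2 _ hp.out h2 (inc p _ t) (inc_inj p _ t) (ka p _ t) (ka_inj p _ t) (alR p _ t X)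
    (alR p _ t (C X)) ?_ ?_ ?_ ?_ ψ hψ hψ1 ?_ ?_ ?_ ?_ ?_ F hF φ hφ i
  · rw [mem_max, c0_alR, cc0_W]
    exact not_isUnit_zero
  · rw [mem_max, c0_alR, cc0_x]
    exact not_isUnit_zero
  · exact fun s hs => (pow_eq_zero_iff hp.out.ne_zero).1 hs
  · rw [ka_inc, ka_inc, io_W, io_x]
    exact ww_xt p _
  · rintro y ⟨⟨g, h⟩, hs⟩ e
    rw [ka_inc, io_x] at e
    obtain rfl : g = _ := e
    obtain ⟨e1, e2⟩ := (mem_R1 p _ t _).1 hs
    simp only [map_mul, ev1_xt, ev2_xt] at e1 e2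
    have h0 : constantCoeff h = 0 := by
      rw [← cc_th2 p, ← e2]
      simp [hp.out.ne_zero]
    obtain ⟨h', rfl⟩ := ps_div h0
    rw [map_mul, pi1_X] at e1
    rw [map_mul, th2_X] at e2
    exact ⟨⟨(y, h'), (mem_R1 p _ t _).2
      ⟨sub_eq_zero.1 (x1_reg p (algebraMap k L t) _ (by linear_combination e1)),
        sub_eq_zero.1 (X_pow_reg p _ (by linear_combination e2))⟩⟩, rfl⟩
  · intro y r hr
    obtain ⟨h', hh⟩ := ps_div (hmax r hr)
    obtain ⟨e, he⟩ := eq_of_ev (g := io p _ t r)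
      (g' := xt p (algebraMap k L t) * lift (pi1 p (AlgHom.id k L) t h') (th2 p L h'))
      (by rw [ev1_io, hh, map_mul, map_mul, ev1_xt, ev1_lift, pi1_X])
      (by rw [ev2_io, hh, map_mul, map_mul, ev2_xt, ev2_lift (by rw [cc_pi1, cc_th2]; rfl), th2_X])
    obtain ⟨r', hr', -⟩ := cond p (AlgHom.id k L) t (e * y)
    refine ⟨lift (pi1 p (AlgHom.id k L) t h') (th2 p L h') * y, inc p _ t r', ?_⟩
    rw [ka_inc, ka_inc, ka_inc, io_x, hr', he]
    ring
  · rintro g m ⟨⟨s, h⟩, hs⟩ e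
    rw [ka_inc, io_x] at e ⊢
    have e' : g ^ p = s + xt p (algebraMap k L t) ^ p * m := e
    obtain ⟨e1, e2⟩ := (mem_R1 p _ t _).1 hs
    rw [pi1_id] at e1
    have e3 := congrArg ev1 e'
    have e4 := congrArg ev2 e'
    simp only [map_add, map_mul, map_pow, ev1_xt, ev2_xt] at e1 e2 e3 e4
    rw [e1] at e3
    rw [e2] at e4
    obtain ⟨c, a', b', ha, hb, hab⟩ := key_axes p _ ht _ _ _ _ h e3 e4 (by rw [cc_ev1, cc_ev2])
    obtain ⟨q, hq⟩ := eq_of_ev (g := g) (g' := CC c + xt p (algebraMap k L t) * lift (v * a') b')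
      (by
        rw [map_add, map_mul, ev1_xt, ev1_lift, ev1_CC, ha, x1]
        linear_combination - X ^ p * a' * hv)
      (by rw [map_add, map_mul, ev2_xt, ev2_lift (by rw [map_mul, hv1, one_mul, hab]), ev2_CC, hb])
    refine ⟨⟨(CC c + ww L * q, C c), (mem_R1 p _ t _).2 ⟨by simp, by simp⟩⟩, lift (v * a') b', ?_⟩
    change g = CC c + ww L * q + _
    rw [hq]
    ring
  · intro w s e
    have e' : rho p _ t s = w.1.2 ^ p := congrArg (fun z => z.1.2) e
    obtain ⟨o, ho⟩ := s.2.2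
    have ho' : algebraMap k L o = constantCoeff (rho p _ t s) := ho
    rw [e', map_pow] at ho'
    exact ⟨⟨w, w.2, hP _ o ho'⟩, rfl⟩
  · intro w r hr
    refine ⟨⟨r.1 * w.1, (inc p _ t r * w).2, 0, ?_⟩, rfl⟩
    change _ = constantCoeff (rho p _ t r * w.1.2)
    rw [map_zero, map_mul, hmax r hr, zero_mul]

end fibre

section detect

variable {A : Type} [CommRing A]

/-- The linear form detecting the class. -/
def cU : A2 A →+ A⟦X⟧ := (dec p (p - 1)).comp ev2.toAddMonoidHom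

lemma cU_mul (g y : A2 A) (h : A⟦X⟧) (e : ev2 g = th2 p A h) : cU p (g * y) = h * cU p y := by
  change dec p (p - 1) (ev2 (g * y)) = h * dec p (p - 1) (ev2 y)
  rw [map_mul, e]
  exact dec_expand hp.out.ne_zero (Nat.sub_lt hp.out.pos one_pos) h _

lemma cU_one : cU p (1 : A2 A) = 0 := by
  change dec p (p - 1) (ev2 (1 : A2 A)) = 0
  ext j
  rw [map_one, coeff_dec, coeff_one, if_neg (by have := hp.out.two_le; omega), map_zero]

/-- The numerator of the class. -/
def y0 (t f : A) : A2 A := CC f * (C (X ^ (p - 1) * uu p t) + X ^ (p - 1))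

lemma ev1_y0 (t f : A) : ev1 (y0 p t f) = C f * (X ^ (p - 1) * uu p t) := by
  have : p - 1 ≠ 0 := by have := hp.out.two_le; omega
  simp [y0, this]

lemma ev2_y0 (t f : A) : ev2 (y0 p t f) = C f * X ^ (p - 1) := by
  have : p - 1 ≠ 0 := by have := hp.out.two_le; omega
  simp [y0, this]

lemma cU_y0 (t f : A) : cU p (y0 p t f) = C f := by
  change dec p (p - 1) (ev2 (y0 p t f)) = _
  ext j
  rw [ev2_y0, coeff_dec, coeff_mul_X_pow, coeff_C, coeff_C]
  simp [hp.out.ne_zero]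

omit hp in
lemma mA_y0 {B : Type} [CommRing B] (g : A →+* B) (t f : A) :
    G.mA g (y0 p t f) = y0 p (g t) (g f) := by
  simp [y0, G.mA, uu, CC_apply]

end detect

section total

variable {O Λ : Type} [CommRing O] [CommRing Λ] [Algebra O Λ] (σ : Λ →ₐ[O] Λ) (t : O)

lemma star (f : O) (τ : Λ) (hτ : σ τ = τ + algebraMap O Λ f) :
    ∃ (r : RR p σ t) (y₁ : A2 Λ), io p σ t r =
      y0 p (algebraMap O Λ t) (algebraMap O Λ f) ^ p - xt p (algebraMap O Λ t) ^ p * y₁ := by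
  obtain ⟨q, hq⟩ : ∃ q, p = q + 2 := ⟨p - 2, by have := hp.out.two_le; omega⟩
  obtain ⟨v, hv, hv1⟩ := uu_inv p (algebraMap O Λ t)
  obtain ⟨r₀, hr₀⟩ := rho_surj p σ t 0 (C (algebraMap O Λ f) ^ (q + 2) * X ^ q +
    C (algebraMap O Λ f) ^ (q + 1) * C (algebraMap O Λ t) * C τ * X ^ (q + 1))
  have hpw : ∀ z : Λ⟦X⟧, z ^ p = z ^ (q + 2) := fun z => congrArg _ hq
  have h1 : p - 1 = q + 1 := by omega
  obtain ⟨e, he⟩ := eq_of_ev (g' := io p σ t r₀)
    (g := y0 p (algebraMap O Λ t) (algebraMap O Λ f) ^ p - xt p (algebraMap O Λ t) ^ p *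
      lift (C (algebraMap O Λ f) ^ (q + 2) * v * (C (algebraMap O Λ t) + X) -
        C (algebraMap O Λ f) ^ (q + 1) * C (algebraMap O Λ t) * (C τ + C (algebraMap O Λ f)))
        (- (C (algebraMap O Λ f) ^ (q + 1) * C (algebraMap O Λ t) * C τ)))
    (by
      rw [map_sub, map_mul, map_pow, map_pow, ev1_y0, ev1_xt, ev1_lift, ev1_io, hr₀, h1]
      simp only [map_add, map_mul, map_pow, pi1_C, pi1_X, map_zero, AlgHom.commutes, hτ]
      have h2 : (X ^ (q + 1) : Λ⟦X⟧) ^ p = (X ^ p) ^ (q + 1) := by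
        rw [← pow_mul, ← pow_mul, mul_comm]
      have h3 : uu p (algebraMap O Λ t) = 1 + X ^ p * (C (algebraMap O Λ t) + X) := rfl
      rw [mul_pow, mul_pow, h2, x1]
      generalize uu p (algebraMap O Λ t) = u at hv h3 ⊢
      generalize (X ^ p : Λ⟦X⟧) = Y at h3 ⊢
      rw [hpw, hpw, hpw]
      linear_combination C (algebraMap O Λ f) ^ (q + 2) * Y ^ (q + 1) * u ^ (q + 1) * h3 -
        C (algebraMap O Λ f) ^ (q + 2) * Y ^ (q + 2) * u ^ (q + 1) *
          (C (algebraMap O Λ t) + X) * hv)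
    (by
      rw [map_sub, map_mul, map_pow, map_pow, ev2_y0, ev2_xt, ev2_lift (by simp [hv1]; ring),
        ev2_io, hr₀, h1]
      simp only [map_add, map_mul, map_pow, th2_C, th2_X, map_zero]
      have h2 : (X ^ (q + 1) : Λ⟦X⟧) ^ p = (X ^ p) ^ (q + 1) := by
        rw [← pow_mul, ← pow_mul, mul_comm]
      rw [mul_pow, h2]
      generalize (X ^ p : Λ⟦X⟧) = Y
      rw [hpw, hpw]
      ring)
  obtain ⟨r₁, hr₁, -⟩ := cond p σ t e
  exact ⟨r₀ + r₁, _, by rw [map_add, hr₁, he]⟩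

theorem not_finj_R [FaithfulSMul O Λ] [IsLocalRing O] [IsNoetherianRing O] [Module.Finite O Λ]
    (h2 : (p : O) = 0) (f : O)
    (hf : ∀ m : Λ, algebraMap O Λ f * m = 0 → m = 0) (hu : ¬ IsUnit f)
    (hm : ∀ o : O, ¬ IsUnit o → ∃ m, o = f * m)
    (hsat : ∀ (l : Λ) (o : O), algebraMap O Λ o = algebraMap O Λ f * l →
      ∃ o', algebraMap O Λ o' = l)
    (τ : Λ) (hτ : σ τ = τ + algebraMap O Λ f)
    (F : RR p σ t →+* RR p σ t) (hF : ∀ x, F x = x ^ p)
    (φ : ModuleCat.of (RR p σ t) (RR p σ t) ⟶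
      (ModuleCat.restrictScalars F).obj (ModuleCat.of (RR p σ t) (RR p σ t)))
    (hφ : ∀ x : RR p σ t, φ.hom x = F x) :
    ¬ Inj (IsLocalRing.maximalIdeal (RR p σ t)) 3 φ := by
  have hW : alR p σ t X ∈ IsLocalRing.maximalIdeal (RR p σ t) := by
    rw [mem_max, c0_alR, cc0_W]; exact not_isUnit_zero
  have hx : alR p σ t (C X) ∈ IsLocalRing.maximalIdeal (RR p σ t) := by
    rw [mem_max, c0_alR, cc0_x]; exact not_isUnit_zero
  have hff : alR p σ t (CC f) ∈ IsLocalRing.maximalIdeal (RR p σ t) := by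
    rw [mem_max, c0_alR, cc0_CC]; exact hu
  have hR : (p : RR p σ t) = 0 := cast_eq_zero ((alR p σ t).comp CC) h2
  have hΛ : (p : Λ⟦X⟧) = 0 := cast_eq_zero (rho p σ t) hR
  obtain ⟨r₀, y₁, hst⟩ := star p σ t f τ hτ
  have hff2 : ∀ m : Λ, algebraMap O Λ f * algebraMap O Λ f * m = 0 → m = 0 :=
    fun m e => hf _ (hf _ (by rw [← e, mul_assoc]))
  have hb : rho p σ t (alR p σ t (CC f) * alR p σ t (CC f)) =
      C (algebraMap O Λ f * algebraMap O Λ f) := by rw [map_mul, rho_CC, map_mul]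
  refine not_inj_core _ hp.out hR (io p σ t) (io_inj p σ t) (rho p σ t) (cU p)
    (fun r y => cU_mul p _ y _ (ev2_io p σ t r)) (cU_one p) (alR p σ t (C X))
    (y0 p (algebraMap O Λ t) (algebraMap O Λ f)) y₁ (fun r hr => ker_rho_mul p σ t r hr _)
    (fun r hr => ker_rho_mul p σ t r hr _) ⟨r₀, by rw [io_x, hst]⟩ 2
    (van2 _ hW hx hff (M := Md (io p σ t)) ?_)
    (eta2 _ _ _ (alR p σ t (CC f) * alR p σ t (CC f)) hx (Ideal.mul_mem_left _ _ hff) _
      ?_ ?_ ?_ ?_) F hF φ hφ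
  · have := ww_xt_f p (algebraMap O Λ t) hf
    rw [← io_W p σ t, ← io_x p σ t, ← io_CC p σ t] at this
    exact this
  · rw [rho_x, hb]
    exact ps_R2 hff2
  · intro r r₁ e
    rw [rho_x, hb] at e
    obtain ⟨h, hh⟩ := (ps_R2 hff2).2 _ _ e
    have e1 : C (algebraMap O Λ f * algebraMap O Λ f) * h - rho p σ t r₁ = 0 :=
      ps_X_reg _ (by rw [hh] at e; linear_combination e)
    have e2 := congrArg constantCoeff e1
    rw [map_sub, map_mul, constantCoeff_C, map_zero, ← c0_spec, sub_eq_zero, mul_assoc] at e2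
    obtain ⟨o₁, h₁⟩ := hsat _ _ e2.symm
    obtain ⟨o₂, h₂⟩ := hsat _ _ h₁
    obtain ⟨h', hh'⟩ := ps_dec h
    obtain ⟨r₂, hr₂⟩ := rho_surj p σ t o₂ h'
    exact ⟨r₂, by rw [rho_x, hr₂, h₂, add_comm, ← hh', hh]⟩
  · intro r hr
    obtain ⟨o, ho⟩ := hm _ ((mem_max p σ t r).1 hr)
    obtain ⟨h', hh'⟩ := ps_dec (rho p σ t r)
    rw [← c0_spec, ho] at hh'
    obtain ⟨q, hq⟩ : ∃ q, p = q + 2 := ⟨p - 2, by have := hp.out.two_le; omega⟩
    obtain ⟨r₁, hr₁⟩ := rho_surj p σ t 0 (X ^ q * h' ^ (q + 2))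
    refine ⟨p, r₁, alR p σ t (CC (f ^ q * o ^ (q + 2))), ?_⟩
    rw [rho_x, hb, hr₁, rho_CC, hh', add_pow_p hp.out hΛ]
    have hpw : ∀ z : Λ⟦X⟧, z ^ p = z ^ (q + 2) := fun z => congrArg _ hq
    rw [hpw, hpw]
    simp only [map_mul, map_pow, map_zero]
    ring
  · intro m₁ m₂ e
    rw [rho_x, hb, cU_y0] at e
    have e1 := congrArg constantCoeff e
    simp only [map_add, map_mul, constantCoeff_X, zero_mul, zero_add, constantCoeff_C] at e1
    have e2 : algebraMap O Λ f * constantCoeff m₂ - 1 = 0 := hf _ (by linear_combination e1)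
    obtain ⟨o, ho⟩ := hsat (constantCoeff m₂) 1 (by rw [map_one]; linear_combination - e2)
    refine hu (IsUnit.of_mul_eq_one o (FaithfulSMul.algebraMap_injective O Λ ?_))
    rw [map_mul, ho, map_one]
    linear_combination e2

/-- The prime of the special curve. -/
def PP : Ideal (RR p σ t) := RingHom.ker (constantCoeff.comp (rho p σ t))

instance [IsDomain Λ] : (PP p σ t).IsPrime := RingHom.ker_isPrime _

lemma mem_PP (r : RR p σ t) : r ∈ PP p σ t ↔ constantCoeff (rho p σ t r) = 0 := Iff.rfl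

theorem not_finj_P [IsDomain Λ] [IsNoetherianRing O] [Module.Finite O Λ]
    (h2 : (p : O) = 0) (f : O) (hf : algebraMap O Λ f ≠ 0)
    (τ : Λ) (hτ : σ τ = τ + algebraMap O Λ f)
    (Q : Type) [CommRing Q] [Algebra (RR p σ t) Q] [IsLocalization.AtPrime Q (PP p σ t)]
    [IsLocalRing Q] (F : Q →+* Q) (hF : ∀ x, F x = x ^ p)
    (φ : ModuleCat.of Q Q ⟶ (ModuleCat.restrictScalars F).obj (ModuleCat.of Q Q))
    (hφ : ∀ x : Q, φ.hom x = F x) : ¬ Inj (IsLocalRing.maximalIdeal Q) 2 φ := by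
  have hN : IsNoetherianRing Q :=
    IsLocalization.isNoetherianRing (PP p σ t).primeCompl Q inferInstance
  let g : Λ →+* FractionRing Λ := algebraMap _ _
  have hg : Function.Injective g := IsFractionRing.injective _ _
  have hu1 : ∀ y : (PP p σ t).primeCompl, IsUnit (((G.mA g).comp (io p σ t)) y) := fun y =>
    cc0_unit _ (by
      rw [RingHom.comp_apply, G.cc0_mA, cc0_io, isUnit_iff_ne_zero, map_ne_zero_iff _ hg]
      exact y.2)
  have hu2 : ∀ y : (PP p σ t).primeCompl, IsUnit (((map g).comp (rho p σ t)) y) := fun y =>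
    isUnit_iff_constantCoeff.2 (by
      rw [RingHom.comp_apply, cc_map, isUnit_iff_ne_zero, map_ne_zero_iff _ hg]
      exact y.2)
  obtain ⟨ι, hι, hιi⟩ : ∃ ι : Q →+* A2 (FractionRing Λ),
      (∀ r, ι (algebraMap (RR p σ t) Q r) = G.mA g (io p σ t r)) ∧ Function.Injective ι := by
    refine ⟨IsLocalization.lift hu1, IsLocalization.lift_eq hu1,
      (IsLocalization.lift_injective_iff hu1).2 fun x y => ⟨fun h => ?_, fun h => ?_⟩⟩
    · rw [IsLocalization.injective Q (PP p σ t).primeCompl_le_nonZeroDivisors h]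
    · rw [io_inj p σ t (map_injective _ (map_injective _ hg) h)]
  obtain ⟨ρ, hρ⟩ : ∃ ρ : Q →+* (FractionRing Λ)⟦X⟧,
      ∀ r, ρ (algebraMap (RR p σ t) Q r) = map g (rho p σ t r) :=
    ⟨IsLocalization.lift hu2, IsLocalization.lift_eq hu2⟩
  have hev : ev2.comp ι = (th2 p _).comp ρ :=
    IsLocalization.ringHom_ext (PP p σ t).primeCompl (RingHom.ext fun r => by
      simp only [RingHom.comp_apply]
      rw [hι, hρ, ev2_mA, ev2_io, map_th2])
  have rep : ∀ z : Q, ∃ (r u : RR p σ t) (w : Q), algebraMap _ Q u * w = 1 ∧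
      z = algebraMap _ Q r * w := fun z => by
    obtain ⟨⟨r, u⟩, h⟩ := IsLocalization.surj (PP p σ t).primeCompl z
    obtain ⟨w, hw⟩ := (IsLocalization.map_units Q u).exists_right_inv
    exact ⟨r, u, w, hw, by linear_combination w * h - z * hw⟩
  have hI : ∀ (y : A2 Λ) (z : Q), ρ z = 0 → ∃ z', ι z' = ι z * G.mA g y := by
    intro y z hz
    obtain ⟨r, u, w, hw, rfl⟩ := rep z
    have h1 := congrArg ρ hw
    rw [map_mul, map_one] at h1
    rw [map_mul] at hz
    have h3 : map g (rho p σ t r) = map g 0 := by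
      rw [← hρ, map_zero]
      linear_combination ρ (algebraMap _ Q u) * hz - ρ (algebraMap _ Q r) * h1
    obtain ⟨r', hr'⟩ := ker_rho_mul p σ t r (map_injective _ hg h3) y
    refine ⟨algebraMap _ Q r' * w, ?_⟩
    rw [map_mul, map_mul, hι, hι, hr', map_mul]
    ring
  have hW : algebraMap _ Q (alR p σ t X) ∈ IsLocalRing.maximalIdeal Q :=
    (IsLocalization.AtPrime.to_map_mem_maximal_iff Q (PP p σ t) _).2
      (by rw [mem_PP, rho_W, map_zero])
  have hx : algebraMap _ Q (alR p σ t (C X)) ∈ IsLocalRing.maximalIdeal Q :=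
    (IsLocalization.AtPrime.to_map_mem_maximal_iff Q (PP p σ t) _).2
      (by rw [mem_PP, rho_x, constantCoeff_X])
  have hρx : ρ (algebraMap _ Q (alR p σ t (C X))) = X := by rw [hρ, rho_x, map_X]
  have hιx : ι (algebraMap _ Q (alR p σ t (C X))) = xt p (g (algebraMap O Λ t)) := by
    rw [hι, io_x, mA_xt]
  obtain ⟨r₀, y₁, hst⟩ := star p σ t f τ hτ
  refine not_inj_core _ hp.out
    (cast_eq_zero ((algebraMap _ Q).comp ((alR p σ t).comp CC)) h2) ι hιi ρ (cU p)
    (fun r y => cU_mul p _ y _ (RingHom.congr_fun hev r)) (cU_one p)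
    (algebraMap _ Q (alR p σ t (C X)))
    (G.mA g (y0 p (algebraMap O Λ t) (algebraMap O Λ f))) (G.mA g y₁) (hI _) (hI _)
    ⟨algebraMap _ Q r₀, by rw [hι, hι, io_x, hst, map_sub, map_mul, map_pow, map_pow]⟩ 1
    (van1 _ hW hx (M := Md ι) ?_) (eta1 _ _ _ hx _ ?_ ?_ ?_) F hF φ hφ
  · have := ww_xt p (g (algebraMap O Λ t))
    rw [← hιx, ← mA_ww g, ← io_W p σ t, ← hι] at this
    exact this
  · rw [hρx]
    exact ps_X_reg
  · intro z hz
    obtain ⟨r, u, w, hw, rfl⟩ := rep z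
    have h1 : algebraMap _ Q r ∈ IsLocalRing.maximalIdeal Q := by
      have := Ideal.mul_mem_left _ (algebraMap _ Q u) hz
      rwa [mul_left_comm, hw, mul_one] at this
    obtain ⟨h', hh'⟩ := ps_div ((mem_PP p σ t r).1
      ((IsLocalization.AtPrime.to_map_mem_maximal_iff Q (PP p σ t) _).1 h1))
    obtain ⟨r₁, hr₁⟩ := rho_surj p σ t 0 (h' ^ 2)
    refine ⟨2, algebraMap _ Q r₁ * w ^ 2, ?_⟩
    rw [hρx, map_mul, map_mul, hρ, hρ, hr₁, hh']
    simp only [map_mul, map_pow, map_zero, map_X, zero_add]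
    ring
  · intro m e
    rw [hρx, mA_y0, cU_y0] at e
    have e1 := congrArg constantCoeff e
    simp only [map_mul, constantCoeff_X, zero_mul, constantCoeff_C] at e1
    exact hf (hg (by rw [← e1, map_zero]))

end total

end Pool.Agent.Work.MP_34c70a_al.GF
end
end

section
/-!
A three dimensional domain whose special fibre is F-injective and whose generic fibre is not.
-/

set_option autoImplicit false

open PowerSeries CategoryTheory Pool.Agent.Lib.LocalCoh

noncomputable section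

namespace Pool.Agent.Work.MP_34c70a_al.GF

lemma field_split (L : Type) [Field L] (p : ℕ) [Fact p.Prime] [CharP L p] :
    ∃ ψ : L →+ L, (∀ a c, ψ (a ^ p * c) = a * ψ c) ∧ ψ 1 = 1 := by
  obtain ⟨l, hl⟩ := LinearMap.exists_leftInverse_of_injective
    (Algebra.linearMap (frobenius L p).fieldRange L)
    (LinearMap.ker_eq_bot.2 (algebraMap (frobenius L p).fieldRange L).injective)
  have hl1 : l 1 = 1 := by simpa using LinearMap.congr_fun hl 1
  let e := (frobenius L p).rangeRestrictFieldEquiv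
  refine ⟨e.symm.toAddMonoidHom.comp l.toAddMonoidHom, fun a c => ?_, ?_⟩
  · change e.symm (l (e a • c)) = a * e.symm (l c)
    rw [map_smul, smul_eq_mul, map_mul, RingEquiv.symm_apply_apply]
  · change e.symm (l 1) = 1
    rw [hl1, map_one]

lemma exists_not_pow (k k' : Type) [Field k] [Field k'] [Algebra k k'] [Module.Finite k k']
    (p : ℕ) [Fact p.Prime] [CharP k p] [CharP k' p] (s : k') (hs : ∀ b : k', b ^ p ≠ s) :
    ∃ t : k, ∀ o : k, o ^ p ≠ t := by
  by_contra h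
  push Not at h
  have h1 : PerfectRing k p := PerfectRing.ofSurjective k p h
  have h2 : PerfectField k := PerfectRing.toPerfectField k p
  have h3 : PerfectField k' := Algebra.IsAlgebraic.perfectField k
  obtain ⟨b, hb⟩ := surjective_frobenius k' p s
  exact hs b hb

open G (LL gAS gAS_monic gAS_degree gAS_map sg pL pL_mk pL_sg pL_surj pL_ker exists_rep pow_char
  finite_of_inj ps_map_finite ps_frob_finite)

theorem generic (n : ℕ) [hp : Fact (n + 2).Prime] (k k' : Type) [Field k] [Field k']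
    [Algebra k k'] [Module.Finite k k'] [CharP k' (n + 2)] (s : k')
    (hP : ∀ q : Polynomial k', q.natDegree < n + 2 → ∀ o : k,
      algebraMap k k' o = (q.map (frobenius k' (n + 2))).eval s →
        ∃ o' : k, q = Polynomial.C (algebraMap k k' o'))
    (hF : (frobenius k' (n + 2)).Finite) :
    ∃ (R S : Type) (_ : CommRing R) (_ : IsDomain R) (_ : IsLocalRing R)
      (_ : IsNoetherianRing R) (_ : CharP R (n + 2)) (_ : CommRing S) (_ : IsLocalRing S)
      (f : R) (π : R →+* S) (P : Ideal R) (_ : P.IsPrime), ringKrullDim R = 3 ∧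
      (∀ F : R →+* R, (∀ x, F x = x ^ (n + 2)) → F.Finite) ∧
      f ∈ IsLocalRing.maximalIdeal R ∧ f ∉ P ∧ Function.Surjective π ∧
      RingHom.ker π = Ideal.span {f} ∧ FInjective (n + 2) S ∧ ¬ FInjective (n + 2) R ∧
      ¬ FInjective (n + 2) (Localization.AtPrime P) := by
  have hk' : ((n + 2 : ℕ) : k') = 0 := CharP.cast_eq_zero _ _
  have hk : ((n + 2 : ℕ) : k) = 0 := (algebraMap k k').injective (by rw [map_natCast, hk', map_zero])
  have hO : ((n + 2 : ℕ) : k⟦X⟧) = 0 := cast_eq_zero C hk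
  have hO' : ((n + 2 : ℕ) : k'⟦X⟧) = 0 := cast_eq_zero C hk'
  have ck : CharP k (n + 2) := (CharP.charP_iff_prime_eq_zero hp.out).2 hk
  have hs : ∀ b : k', b ^ (n + 2) ≠ s := by
    intro b hb
    obtain ⟨o, ho⟩ := hP (Polynomial.C b - Polynomial.X)
      (by rw [← Polynomial.natDegree_neg, neg_sub, Polynomial.natDegree_X_sub_C]; omega) 0
      (by simp [frobenius_def, hb])
    have := congrArg (fun q => Polynomial.coeff q 1) ho
    simp at this
  obtain ⟨t, ht⟩ := exists_not_pow k k' (n + 2) s hs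
  have hirr : Irreducible (gAS n (0 : k') s) := by
    have := X_pow_sub_C_irreducible_of_prime hp.out hs
    simpa [gAS] using this
  have hε : constantCoeff (X : k'⟦X⟧) = 0 := by simp
  have hirr' : Irreducible (gAS n (X : k'⟦X⟧) (C s)) :=
    Polynomial.Monic.irreducible_of_irreducible_map constantCoeff _ (gAS_monic _ _ _)
      (by rwa [gAS_map, hε, constantCoeff_C])
  have dL : IsDomain (LL n (0 : k') s) := AdjoinRoot.isDomain_of_prime hirr.prime
  have dΛ : IsDomain (LL n (X : k'⟦X⟧) (C s)) := AdjoinRoot.isDomain_of_prime hirr'.prime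
  have f1 : Module.Finite k' (LL n (0 : k') s) := (gAS_monic _ _ _).finite_adjoinRoot
  have f2 : Module.Finite k (LL n (0 : k') s) := Module.Finite.trans k' _
  have f3 : Module.Finite k'⟦X⟧ (LL n (X : k'⟦X⟧) (C s)) := (gAS_monic _ _ _).finite_adjoinRoot
  have f4 : Module.Finite k⟦X⟧ k'⟦X⟧ :=
    ps_map_finite (algebraMap k k') (RingHom.finite_algebraMap.2 inferInstance)
  have f5 : Module.Finite k⟦X⟧ (LL n (X : k'⟦X⟧) (C s)) := Module.Finite.trans k'⟦X⟧ _
  have halg : ∀ o : k⟦X⟧, algebraMap k⟦X⟧ (LL n (X : k'⟦X⟧) (C s)) o =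
      AdjoinRoot.of _ (map (algebraMap k k') o) := fun o => rfl
  have hofi : Function.Injective (AdjoinRoot.of (gAS n (X : k'⟦X⟧) (C s))) :=
    AdjoinRoot.of.injective_of_degree_ne_zero
      (by rw [gAS_degree]; exact_mod_cast Nat.succ_ne_zero (n + 1))
  have f6 : FaithfulSMul k⟦X⟧ (LL n (X : k'⟦X⟧) (C s)) :=
    (faithfulSMul_iff_algebraMap_injective _ _).2
      (hofi.comp (map_injective _ (algebraMap k k').injective))
  let σ : LL n (X : k'⟦X⟧) (C s) →ₐ[k⟦X⟧] LL n (X : k'⟦X⟧) (C s) :=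
    (sg n _ _ hp.out hO').restrictScalars k⟦X⟧
  let pΛ := pL n (X : k'⟦X⟧) (C s) constantCoeff hε (constantCoeff_C s)
  have hc : ∀ o : k⟦X⟧, pΛ (algebraMap _ _ o) =
      algebraMap k (LL n (0 : k') s) (constantCoeff o) := fun o => by
    rw [halg, ← AdjoinRoot.mk_C, pL_mk, Polynomial.map_C, cc_map]; rfl
  have hσ : ∀ l, pΛ (σ l) = pΛ l := pL_sg n _ _ hp.out hO' constantCoeff hε _
  have hX : algebraMap k⟦X⟧ (LL n (X : k'⟦X⟧) (C s)) X = AdjoinRoot.of _ X := by
    rw [halg, map_X]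
  have hX0 : algebraMap k⟦X⟧ (LL n (X : k'⟦X⟧) (C s)) X ≠ 0 := by
    rw [hX]
    exact (map_ne_zero_iff _ hofi).2 X_ne_zero
  have hf : ∀ m : LL n (X : k'⟦X⟧) (C s), algebraMap k⟦X⟧ _ X * m = 0 → m = 0 := fun m e =>
    (mul_eq_zero.1 e).resolve_left hX0
  have hu : ¬ IsUnit (X : k⟦X⟧) := by
    rw [isUnit_iff_constantCoeff, constantCoeff_X]
    exact not_isUnit_zero
  have hm : ∀ o : k⟦X⟧, ¬ IsUnit o → ∃ m, o = X * m := fun o ho => ps_div (by
    rwa [isUnit_iff_constantCoeff, isUnit_iff_ne_zero, not_not] at ho)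
  have hsat : ∀ (l : LL n (X : k'⟦X⟧) (C s)) (o : k⟦X⟧),
      algebraMap _ _ o = algebraMap k⟦X⟧ _ X * l → ∃ o' : k⟦X⟧, algebraMap _ _ o' = l := by
    intro l o e
    have h1 := congrArg pΛ e
    rw [map_mul, hc, hc, constantCoeff_X, map_zero, zero_mul, _root_.map_eq_zero] at h1
    obtain ⟨o', rfl⟩ := ps_div h1
    exact ⟨o', sub_eq_zero.1 (hf _ (by rw [map_mul] at e; linear_combination e))⟩
  have hτ : σ (AdjoinRoot.root _) = AdjoinRoot.root _ + algebraMap k⟦X⟧ _ X := by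
    have := G.sg_mk n (X : k'⟦X⟧) (C s) hp.out hO' Polynomial.X
    rw [Polynomial.taylor_X, map_add, AdjoinRoot.mk_X, AdjoinRoot.mk_C] at this
    rw [hX]
    exact this
  have hR : ((n + 2 : ℕ) : RR (n + 2) σ (C t)) = 0 := cast_eq_zero ((alR _ σ (C t)).comp CC) hO
  have cR : CharP (RR (n + 2) σ (C t)) (n + 2) := (CharP.charP_iff_prime_eq_zero hp.out).2 hR
  refine ⟨RR (n + 2) σ (C t), RR (n + 2) (AlgHom.id k (LL n (0 : k') s)) (constantCoeff (C t)),
    inferInstance, inferInstance, inferInstance, inferInstance, cR, inferInstance, inferInstance,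
    alR _ σ (C t) (CC X), mR _ σ (C t) constantCoeff pΛ hc hσ, PP _ σ (C t), inferInstance,
    dim_eq _ σ (C t) X X_ne_zero hu hm, ?_, ?_, ?_, ?_, ?_, ?_, ?_, ?_⟩
  · intro F hF'
    have c1 : CharP k⟦X⟧ (n + 2) := (CharP.charP_iff_prime_eq_zero hp.out).2 hO
    have c2 : CharP k⟦X⟧⟦X⟧ (n + 2) :=
      (CharP.charP_iff_prime_eq_zero hp.out).2 (cast_eq_zero C hO)
    have c3 : CharP k⟦X⟧⟦X⟧⟦X⟧ (n + 2) :=
      (CharP.charP_iff_prime_eq_zero hp.out).2 (cast_eq_zero CC hO)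
    have g0 : (frobenius k (n + 2)).Finite := by
      refine finite_of_inj _ (algebraMap k k') (algebraMap k k').injective ?_
      rw [show (algebraMap k k').comp (frobenius k (n + 2)) =
        (frobenius k' (n + 2)).comp (algebraMap k k') from
          RingHom.ext fun x => by simp [frobenius_def]]
      exact hF.comp (RingHom.finite_algebraMap.2 inferInstance)
    have g3 := ps_frob_finite _ _ (ps_frob_finite _ _ (ps_frob_finite _ _ g0))
    refine RingHom.Finite.of_comp_finite (f := alR _ σ (C t)) ?_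
    rw [show F.comp (alR _ σ (C t)) = (alR _ σ (C t)).comp (frobenius _ (n + 2)) from
      RingHom.ext fun x => by simp [frobenius_def, hF']]
    exact (alR_finite _ σ (C t)).comp g3
  · rw [mem_max, c0_alR, cc0_CC]; exact hu
  · rw [mem_PP, rho_CC, constantCoeff_C]
    exact hX0
  · exact mR_surj _ σ _ _ _ hc hσ (fun a => ⟨C a, constantCoeff_C a⟩)
      (pL_surj _ _ _ _ _ _ (fun a => ⟨C a, constantCoeff_C a⟩))
  · refine mR_ker _ σ _ _ _ hc hσ X constantCoeff_X hf hsat fun l hl => ?_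
    rw [hX]
    exact pL_ker n _ _ _ _ _ X (fun _ => ps_div) l hl
  · intro F hF' φ hφ i
    have cL : CharP (LL n (0 : k') s) (n + 2) := (CharP.charP_iff_prime_eq_zero hp.out).2
      (cast_eq_zero (algebraMap k _) hk)
    have hP' : ∀ (l : LL n (0 : k') s) (o : k), algebraMap k _ o = l ^ (n + 2) →
        ∃ o', algebraMap k _ o' = l := by
      intro l o e
      obtain ⟨q, hq, rfl⟩ := exists_rep n _ _ l
      rw [pow_char] at e
      have hi : Function.Injective (AdjoinRoot.of (gAS n (0 : k') s)) := RingHom.injective _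
      obtain ⟨o', rfl⟩ := hP q (by
        by_cases h0 : q = 0
        · simp [h0]
        · exact (Polynomial.natDegree_lt_iff_degree_lt h0).2 hq) o (hi e)
      exact ⟨o', rfl⟩
    have : Fact (Irreducible (gAS n (0 : k') s)) := ⟨hirr⟩
    refine finj_S _ _ hP' (fun l m e => ?_) (field_split (LL n (0 : k') s) (n + 2)) F hF' φ hφ i
    by_contra h0
    rw [constantCoeff_C] at e
    obtain ⟨o, ho⟩ := hP' (l / m) t (by rw [div_pow, e, mul_div_cancel_right₀ _ (pow_ne_zero _ h0)])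
    refine ht o ((algebraMap k (LL n (0 : k') s)).injective ?_)
    rw [map_pow, ho, div_pow, e, mul_div_cancel_right₀ _ (pow_ne_zero _ h0)]
  · intro hI
    exact not_finj_R _ σ (C t) hO X hf hu hm hsat _ hτ
      (frobenius _ (n + 2)) (fun _ => rfl) (mk0 _) (fun _ => rfl)
      (hI (frobenius _ (n + 2)) (fun _ => rfl) (mk0 _) (fun _ => rfl) 3)
  · intro hI
    have cQ : CharP (Localization.AtPrime (PP (n + 2) σ (C t))) (n + 2) :=
      (CharP.charP_iff_prime_eq_zero hp.out).2 (cast_eq_zero (algebraMap _ _) hR)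
    exact not_finj_P _ σ (C t) hO X hX0 _ hτ (Localization.AtPrime (PP (n + 2) σ (C t)))
      (frobenius _ (n + 2)) (fun _ => rfl) (mk0 _) (fun _ => rfl)
      (hI (frobenius _ (n + 2)) (fun _ => rfl) (mk0 _) (fun _ => rfl) 2)

theorem main (p : ℕ) (hp : p.Prime) :
    ∃ (R S : Type) (_ : CommRing R) (_ : IsDomain R) (_ : IsLocalRing R)
      (_ : IsNoetherianRing R) (_ : CharP R p) (_ : CommRing S) (_ : IsLocalRing S)
      (f : R) (π : R →+* S) (P : Ideal R) (_ : P.IsPrime), ringKrullDim R = 3 ∧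
      (∀ F : R →+* R, (∀ x, F x = x ^ p) → F.Finite) ∧
      f ∈ IsLocalRing.maximalIdeal R ∧ f ∉ P ∧ Function.Surjective π ∧
      RingHom.ker π = Ideal.span {f} ∧ FInjective p S ∧ ¬ FInjective p R ∧
      ¬ FInjective p (Localization.AtPrime P) := by
  obtain ⟨n, rfl⟩ := Nat.exists_eq_add_of_le' hp.two_le
  have : Fact (n + 2).Prime := ⟨hp⟩
  exact generic n (G.K0 (n + 2)) (G.K1 (n + 2)) (G.ss _) (G.K_prop _) (G.K1_frob_finite _)

end Pool.Agent.Work.MP_34c70a_al.GF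
end
end
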