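import Pool.Agent.Work.MP_34c70a_al.GRing

/-!
Frobenius on the local cohomology of the special fibre and of the total space.
-/

set_option autoImplicit false

open PowerSeries CategoryTheory Pool.Agent.Lib.LocalCoh

noncomputable section

namespace Pool.Agent.Work.MP_34c70a_al.G

variable {p : ℕ}

section fibre

variable {k L : Type} [Field k] [CommRing L] [IsDomain L] [Algebra k L]

lemma mem_R1_id (z : BG L) : z ∈ R1 (AlgHom.id k L) ↔ constantCoeff z.im = 0 := by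
  have : map ((AlgHom.id k L : L →ₐ[k] L) : L →+* L) (constantCoeff z.re) =
      constantCoeff z.re := by ext n; simp
  rw [mem_R1, e1_apply, e2_apply, this]
  simp

lemma par_mem (a c : A2 L) : (⟨a, X * c⟩ : BG L) ∈ R1 (AlgHom.id k L) := by
  rw [mem_R1_id]; simp

lemma par_surj (u : R1 (AlgHom.id k L)) : ∃ a c, (u : BG L) = ⟨a, X * c⟩ := by
  obtain ⟨⟨a, b⟩, hu⟩ := u
  obtain ⟨c, rfl⟩ := ps_div (a := b) ((mem_R1_id _).1 hu)
  exact ⟨a, c, rfl⟩

omit [IsDomain L] in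
lemma inc_W : ((inc (AlgHom.id k L) (alR (AlgHom.id k L) X) : R1 (AlgHom.id k L)) : BG L) =
    algebraMap (A2 L) (BG L) X := by
  change (alR (AlgHom.id k L) X : BG L) = _
  rw [alR_coe, mA_W]

omit [IsDomain L] in
lemma inc_x : ((inc (AlgHom.id k L) (alR (AlgHom.id k L) (C X)) : R1 (AlgHom.id k L)) : BG L) =
    algebraMap (A2 L) (BG L) (C X) := by
  change (alR (AlgHom.id k L) (C X) : BG L) = _
  rw [alR_coe, mA_x]

lemma span_lemma (u : R1 (AlgHom.id k L)) (a c : A2 L) (hu : (u : BG L) = ⟨a, X * c⟩)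
    (h₀ : cc0 a = 0) (h₁ : cc0 c = 0) :
    ∃ n₁ n₂ : R1 (AlgHom.id k L), u = inc _ (alR _ X) * n₁ + inc _ (alR _ (C X)) * n₂ := by
  obtain ⟨p₀, q₀, rfl⟩ := cc0_dec h₀
  obtain ⟨p₁, q₁, rfl⟩ := cc0_dec h₁
  refine ⟨⟨_, par_mem p₀ p₁⟩, ⟨_, par_mem q₀ q₁⟩, Subtype.ext ?_⟩
  rw [Subring.coe_add, Subring.coe_mul, Subring.coe_mul, inc_W, inc_x, hu, qa_mul, qa_mul]
  ext : 1
  · simp
  · simp; ring

theorem finj_S [Module.Finite k L] (hp : p.Prime) (h2 : (p : k) = 0)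
    (hP : ∀ (l : L) (o : k), algebraMap k L o = l ^ p → ∃ o', algebraMap k L o' = l)
    (F : RR (AlgHom.id k L) →+* RR (AlgHom.id k L)) (hF : ∀ x, F x = x ^ p)
    (φ : ModuleCat.of (RR (AlgHom.id k L)) (RR (AlgHom.id k L)) ⟶
      (ModuleCat.restrictScalars F).obj (ModuleCat.of _ (RR (AlgHom.id k L))))
    (hφ : ∀ x : RR (AlgHom.id k L), φ.hom x = F x) (i : ℕ) :
    Inj (IsLocalRing.maximalIdeal (RR (AlgHom.id k L))) i φ := by
  have hmax : ∀ r ∈ IsLocalRing.maximalIdeal (RR (AlgHom.id k L)), cG (r : BG L) = 0 :=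
    fun r hr => by
      rw [mem_max, isUnit_iff_ne_zero, not_not] at hr
      rw [← c0_spec, hr, map_zero]
  have hB : (p : BG L) = 0 := cast_eq_zero ((al k L).comp CC) h2
  refine finj_ofP _ hp (cast_eq_zero ((alR _).comp CC) h2) (inc _) (inc_inj _) (alR _ X)
    (alR _ (C X)) ?_ ?_ ?_ ?_ ?_ ?_ ?_ ?_ F hF φ hφ i
  · rw [mem_max, c0_alR, cc0_W]
    exact not_isUnit_zero
  · rw [mem_max, c0_alR, cc0_x]
    exact not_isUnit_zero
  · exact fun s hs => (pow_eq_zero_iff hp.ne_zero).1 hs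
  · refine sub_R2 _ _ _ (by rw [inc_W, inc_x]; exact qa_R2 A2_R2) (fun n hn => ?_)
    rw [inc_x] at hn
    exact R1_sat _ (by simp) (by rw [constantCoeff_C]; exact ps_X_reg) n hn
  · intro u m₁ m₂ e
    obtain ⟨a, c, hu⟩ := par_surj u
    obtain ⟨a₁, c₁, h₁⟩ := par_surj m₁
    obtain ⟨a₂, c₂, h₂⟩ := par_surj m₂
    have e' := congrArg Subtype.val e
    simp only [Subring.coe_add, Subring.coe_mul, SubmonoidClass.coe_pow, inc_W, inc_x] at e'
    obtain ⟨q, hq⟩ : ∃ q, p = q + 1 := ⟨p - 1, by have := hp.pos; omega⟩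
    obtain ⟨α, β, hω⟩ : ∃ α β, (QuadraticAlgebra.omega : BG L) ^ p = ⟨α, β⟩ := ⟨_, _, rfl⟩
    have hα : constantCoeff α = 0 := by
      have := congrArg ev0 hω
      rw [map_pow, ev0_apply, ev0_apply] at this
      simpa [hp.ne_zero] using this.symm
    have hβ : constantCoeff β = X ^ q := by
      have := congrArg e1 hω
      rw [map_pow, e1_apply, e1_apply] at this
      simp only [QuadraticAlgebra.omega_re, QuadraticAlgebra.omega_im, map_zero, map_one, mul_one,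
        zero_add, hα] at this
      exact sub_eq_zero.1 (ps_X_reg _ (by rw [hq] at this; linear_combination -this))
    have hup : (u : BG L) = algebraMap (A2 L) (BG L) a +
        algebraMap (A2 L) (BG L) (X * c) * QuadraticAlgebra.omega := by
      rw [hu]; ext : 1 <;> simp
    rw [hup, add_pow_p hp hB, mul_pow, hω, h₁, h₂, ← map_pow, ← map_pow, ← map_pow, ← map_pow,
      qa_mul, qa_mul, qa_mul] at e'
    have er0 := congrArg (fun z : BG L => z.re) e'
    simp only [QuadraticAlgebra.re_add, QuadraticAlgebra.algebraMap_re] at er0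
    have er := congrArg cc0 er0
    have ei := congrArg (fun z : BG L => z.im) e'
    simp only [map_add, map_mul, map_pow,
      cc0_W, cc0_x, zero_pow hp.ne_zero, zero_mul, add_zero] at er
    simp only [QuadraticAlgebra.im_add, QuadraticAlgebra.algebraMap_im, zero_add] at ei
    have e₄ : X ^ q * (c ^ p * β) - (X ^ (q + 1) * c₁ + C X ^ p * c₂) = 0 :=
      ps_X_reg _ (by rw [mul_pow, hq] at ei; rw [hq]; linear_combination ei)
    have f₄ := congrArg (coeff q) (sub_eq_zero.1 e₄)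
    rw [map_add, coeff_X_pow_mul', if_pos le_rfl, coeff_X_pow_mul', if_neg (by omega), zero_add,
      ← map_pow, coeff_C_mul, Nat.sub_self, coeff_zero_eq_constantCoeff_apply, map_mul, hβ,
      map_pow] at f₄
    have f₅ : constantCoeff c ^ p - X * coeff q c₂ = 0 :=
      mul_left_cancel₀ (pow_ne_zero q X_ne_zero) (by rw [hq] at f₄ ⊢; linear_combination f₄)
    have f₆ := congrArg constantCoeff f₅
    simp only [map_sub, map_pow, map_mul, constantCoeff_X, zero_mul, sub_zero, map_zero] at f₆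
    exact span_lemma u a c hu ((pow_eq_zero_iff hp.ne_zero).1 er)
      ((pow_eq_zero_iff hp.ne_zero).1 f₆)
  · intro r hr
    obtain ⟨a, c, hu⟩ := par_surj (inc _ r)
    have hu' : (r : BG L) = ⟨a, X * c⟩ := hu
    have h0 : cc0 a = 0 := by
      have := hmax r hr
      rwa [hu', cG_apply] at this
    refine span_lemma _ (a * a + X * (X * c) * (X * c)) (a * c + a * c + C X * c * (X * c))
      ?_ (by simp [h0]) (by simp [h0])
    change (r : BG L) ^ 2 = _
    rw [hu', pow_two]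
    ext : 1
    · simp
    · simp; ring
  · intro v s e
    have e' : (s : BG L) = (v : BG L) ^ p := congrArg Subtype.val e
    obtain ⟨o, ho⟩ := s.2.2
    rw [e', map_pow] at ho
    exact ⟨⟨v, v.2, hP _ o ho⟩, rfl⟩
  · intro v r hr
    refine ⟨⟨(r : BG L) * v, (inc _ r * v).2, 0, ?_⟩, rfl⟩
    rw [map_zero, map_mul, hmax r hr, zero_mul]

end fibre

section total

variable {O Λ : Type} [CommRing O] [CommRing Λ] [Algebra O Λ] (σ : Λ →ₐ[O] Λ)

lemma alR_CC (a : O) :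
    (alR σ (CC a) : BG Λ) = algebraMap (A2 Λ) (BG Λ) (CC (algebraMap O Λ a)) := by
  rw [alR_coe, mA_CC]

theorem not_finj_R [FaithfulSMul O Λ] [IsLocalRing O] [IsNoetherianRing O] [Module.Finite O Λ]
    (hp : p.Prime) (h2 : (p : O) = 0) (f : O)
    (hf : ∀ m : Λ, algebraMap O Λ f * m = 0 → m = 0) (hu : ¬ IsUnit f)
    (hm : ∀ o : O, ¬ IsUnit o → ∃ m, o = f * m)
    (hsat : ∀ (l : Λ) (o : O), algebraMap O Λ o = algebraMap O Λ f * l →
      ∃ o', algebraMap O Λ o' = l)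
    (τ l₁ : Λ) (η : O) (N : ℕ)
    (hτ : algebraMap O Λ f ^ N * (τ ^ p - algebraMap O Λ (f ^ p * η) * τ) = l₁ - σ l₁)
    (ℓ : Λ →ₗ[O] O) (hℓ : ∀ l, ℓ (σ l) = ℓ l) (hℓτ : ℓ τ = 1)
    (F : RR σ →+* RR σ) (hF : ∀ x, F x = x ^ p)
    (φ : ModuleCat.of (RR σ) (RR σ) ⟶
      (ModuleCat.restrictScalars F).obj (ModuleCat.of (RR σ) (RR σ)))
    (hφ : ∀ x : RR σ, φ.hom x = F x) :
    ¬ Inj (IsLocalRing.maximalIdeal (RR σ)) 3 φ := by
  have hOJ : ∀ r ∈ IsLocalRing.maximalIdeal (RR σ), ∃ m, c0 σ r = f * m :=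
    fun r hr => hm _ ((mem_max _ r).1 hr)
  have hcf : c0 σ (alR σ (CC f)) = f := by rw [c0_alR, cc0_CC]
  have hW : (R1 σ).subtype (inc σ (alR σ X)) = algebraMap (A2 Λ) (BG Λ) X := by
    rw [inc_coe, alR_coe, mA_W]
  have hx : (R1 σ).subtype (inc σ (alR σ (C X))) = algebraMap (A2 Λ) (BG Λ) (C X) := by
    rw [inc_coe, alR_coe, mA_x]
  have hff : (R1 σ).subtype (inc σ (alR σ (CC f))) =
      algebraMap (A2 Λ) (BG Λ) (CC (algebraMap O Λ f)) := by rw [inc_coe, alR_CC]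
  let cb : Λ⟦X⟧ →+ O := ℓ.toAddMonoidHom.comp constantCoeff.toAddMonoidHom
  have hcb : ∀ d, cb d = ℓ (constantCoeff d) := fun _ => rfl
  refine not_finj_ofP (D := Λ⟦X⟧) (O := O) _ hp (cast_eq_zero ((alR σ).comp CC) h2) (inc σ)
    (inc_inj σ) (R1 σ).subtype Subtype.val_injective e1 (e2 σ)
    ?_ (c0 σ) (C.comp (algebraMap O Λ)) (C τ) η N cb (alR σ X) (alR σ (C X)) (alR σ (CC f))
    ?_ ?_ ?_ ?_ ?_ ?_ ?_ ?_ ?_ ?_ ?_ ?_ ?_ ?_ ?_ F hF φ hφ
  · intro y
    exact ⟨fun h => ⟨⟨y, h⟩, rfl⟩, fun ⟨x, hx⟩ => hx ▸ x.2⟩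
  · rw [mem_max, c0_alR, cc0_W]
    exact not_isUnit_zero
  · rw [mem_max, c0_alR, cc0_x]
    exact not_isUnit_zero
  · rw [mem_max, hcf]
    exact hu
  · rw [hW, hx, hff]
    exact qa_R3 (ps_R3 (ps_R2 hf))
  · rw [hx, hff, e1_alg, e1_alg, constantCoeff_C, cc_CC]
    exact ps_R2 hf
  · intro y r e
    have e' := congrArg (fun z => cG ((R1 σ).subtype z)) e
    simp only [map_mul, hff, cG_alg, cc0_CC] at e'
    rw [inc_coe, ← c0_spec] at e'
    exact ⟨⟨y, y.2, hsat _ _ e'⟩, rfl⟩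
  · intro y r hr
    obtain ⟨m, hm⟩ := hOJ r hr
    have hy₁ : algebraMap (A2 Λ) (BG Λ) (CC (algebraMap O Λ m * cG (y : BG Λ))) ∈ R1 σ := by
      rw [mem_R1, e1_alg, e2_alg, cc_CC, map_C]
      simp [fixed_of_mem σ y.2]
    refine ⟨⟨_, hy₁⟩, ⟨(r : BG Λ) * y - alR σ (CC f) *
      algebraMap (A2 Λ) (BG Λ) (CC (algebraMap O Λ m * cG (y : BG Λ))), ?_, 0, ?_⟩, ?_⟩
    · exact (R1 σ).sub_mem ((R1 σ).mul_mem r.2.1 y.2) ((R1 σ).mul_mem (alR σ (CC f)).2.1 hy₁)
    · rw [map_sub, map_mul cG, map_mul cG, ← c0_spec, hm, alR_CC, cG_alg, cG_alg, cc0_CC, cc0_CC,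
        map_zero, map_mul]
      ring
    · apply Subtype.ext
      change (r : BG Λ) * y = alR σ (CC f) * _ + (_ - _)
      rw [add_sub_cancel]
  · rw [hcf]
    intro m e
    apply FaithfulSMul.algebraMap_injective O Λ
    rw [map_zero]
    exact hf _ (by rw [← map_mul, e, map_zero])
  · rw [hcf]
    exact hOJ
  · rw [hcf]
    exact fun m e => hu (IsUnit.of_mul_eq_one m e)
  · intro r d
    obtain ⟨q, hq⟩ := ps_dec (e1 (r : BG Λ))
    rw [cc_e1, ← c0_spec] at hq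
    refine ⟨⟨0, C (q * d)⟩, ?_⟩
    rw [inc_coe, hq, e1_apply, e2_apply]
    simp
    ring
  · intro m
    refine ⟨algebraMap (A2 Λ) (BG Λ) (CC (algebraMap O Λ m * l₁)), ?_⟩
    rw [hcf, e1_alg, e2_alg, cc_CC, map_C]
    have := congrArg (C : Λ →+* Λ⟦X⟧) hτ
    simp only [map_mul, map_pow, map_sub, RingHom.coe_coe, AlgHom.commutes, RingHom.comp_apply]
      at this ⊢
    linear_combination - C (algebraMap O Λ m) * this
  · intro y
    rw [hcb, map_sub, cc_e1, cc_e2, map_sub, hℓ, sub_self]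
  · intro r d
    rw [hcb, hcb, inc_coe, map_mul, cc_e1, ← c0_spec, ← Algebra.smul_def, map_smul, smul_eq_mul]
  · intro m
    rw [hcb, RingHom.comp_apply, ← map_mul, constantCoeff_C, ← Algebra.smul_def, map_smul, hℓτ,
      smul_eq_mul, mul_one]

theorem dim_eq [FaithfulSMul O Λ] [IsLocalRing O] [IsNoetherianRing O] [Module.Finite O Λ]
    [IsDomain Λ] (f : O) (hf : f ≠ 0) (hu : ¬ IsUnit f)
    (hm : ∀ o : O, ¬ IsUnit o → ∃ m, o = f * m) : ringKrullDim (RR σ) = 3 := by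
  classical
  have hW : alR σ X ∈ IsLocalRing.maximalIdeal (RR σ) := by
    rw [mem_max, c0_alR, cc0_W]; exact not_isUnit_zero
  have hx : alR σ (C X) ∈ IsLocalRing.maximalIdeal (RR σ) := by
    rw [mem_max, c0_alR, cc0_x]; exact not_isUnit_zero
  have hff : alR σ (CC f) ∈ IsLocalRing.maximalIdeal (RR σ) := by
    rw [mem_max, c0_alR, cc0_CC]; exact hu
  apply le_antisymm
  · rw [← IsLocalRing.maximalIdeal_height_eq_ringKrullDim]
    have key : ∀ P : Ideal (RR σ), P.IsPrime → alR σ X ∈ P → alR σ (C X) ∈ P →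
        alR σ (CC f) ∈ P → P = IsLocalRing.maximalIdeal (RR σ) := by
      intro P hP h1 h2 h3
      let := (alR σ).toAlgebra
      have : Module.Finite (A2 O) (RR σ) := alR_finite σ
      have h4 : IsLocalRing.maximalIdeal (A2 O) ≤ P.comap (alR σ) := by
        intro a ha
        obtain ⟨m, hm'⟩ := hm (cc0 a) (fun h => ha (cc0_unit a h))
        obtain ⟨u, v, huv⟩ := cc0_dec (a := a - CC f * CC m) (by simp [hm'])
        rw [show a = X * u + C X * v + CC f * CC m by linear_combination huv]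
        exact add_mem (add_mem (Ideal.mul_mem_right _ _ h1) (Ideal.mul_mem_right _ _ h2))
          (Ideal.mul_mem_right _ _ h3)
      have h5 : (P.comap (algebraMap (A2 O) (RR σ))).IsMaximal := by
        change (P.comap (alR σ)).IsMaximal
        rw [← (IsLocalRing.maximalIdeal.isMaximal (A2 O)).eq_of_le
          (Ideal.comap_ne_top _ hP.ne_top) h4]
        infer_instance
      exact IsLocalRing.eq_maximalIdeal (Ideal.isMaximal_of_isIntegral_of_isMaximal_comap P h5)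
    have hmin : IsLocalRing.maximalIdeal (RR σ) ∈ (Ideal.span
        (({alR σ X, alR σ (C X), alR σ (CC f)} : Finset (RR σ)) : Set (RR σ))).minimalPrimes := by
      refine ⟨⟨inferInstance, Ideal.span_le.2 ?_⟩, fun P hP _ => ?_⟩
      · intro z hz
        simp only [Finset.coe_insert, Finset.coe_singleton, Set.mem_insert_iff,
          Set.mem_singleton_iff] at hz
        rcases hz with rfl | rfl | rfl <;> assumption
      · exact (key P hP.1 (hP.2 (Ideal.subset_span (by simp))) (hP.2 (Ideal.subset_span (by simp)))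
          (hP.2 (Ideal.subset_span (by simp)))).ge
    have := (Ideal.height_le_card_of_mem_minimalPrimes_span_finset hmin).trans
      (Nat.cast_le.2 Finset.card_le_three)
    exact WithBot.coe_le_coe.2 this
  · let P₁ : PrimeSpectrum (RR σ) := ⟨RingHom.ker (ev0.comp (RR σ).subtype), RingHom.ker_isPrime _⟩
    let P₂ : PrimeSpectrum (RR σ) := ⟨RingHom.ker (cG.comp (RR σ).subtype), RingHom.ker_isPrime _⟩
    have m1 : ∀ r : RR σ, r ∈ P₁.asIdeal ↔ ev0 (r : BG Λ) = 0 := fun _ => Iff.rfl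
    have m2 : ∀ r : RR σ, r ∈ P₂.asIdeal ↔ cG (r : BG Λ) = 0 := fun _ => Iff.rfl
    have l1 : (⟨⊥, Ideal.isPrime_bot⟩ : PrimeSpectrum (RR σ)) < P₁ := by
      refine lt_of_le_of_ne bot_le fun h => ?_
      have : alR σ X ∈ P₁.asIdeal := by rw [m1, alR_coe, mA_W, ev0_apply]; simp
      rw [← h] at this
      have h3 := congrArg (fun z : RR σ => (z : BG Λ).re) (Ideal.mem_bot.1 this)
      simp only [alR_coe, mA_W] at h3
      exact X_ne_zero h3
    have l2 : P₁ < P₂ := by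
      refine lt_of_le_of_ne (fun r hr => ?_) fun h => ?_
      · rw [m2, cG, RingHom.comp_apply, (m1 r).1 hr, map_zero]
      · have : alR σ (C X) ∈ P₂.asIdeal := by rw [m2, alR_coe, mA_x, cG_alg, cc0_x]
        rw [← h, m1, alR_coe, mA_x, ev0_apply] at this
        simp at this
    have l3 : P₂ < ⟨IsLocalRing.maximalIdeal (RR σ), inferInstance⟩ := by
      refine lt_of_le_of_ne (IsLocalRing.le_maximalIdeal P₂.2.ne_top) fun h => ?_
      have : alR σ (CC f) ∈ P₂.asIdeal := by rw [h]; exact hff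
      rw [m2, alR_CC, cG_alg, cc0_CC] at this
      exact hf (FaithfulSMul.algebraMap_injective O Λ (by rw [this, map_zero]))
    exact Order.LTSeries.length_le_krullDim
      ((((RelSeries.singleton _ _).snoc P₁ l1).snoc P₂ (by simpa using l2)).snoc _
        (by simpa using l3))

end total

section proj

variable {O Λ O' Λ' : Type} [CommRing O] [CommRing Λ] [Algebra O Λ] (σ : Λ →ₐ[O] Λ)
  [CommRing O'] [CommRing Λ'] [Algebra O' Λ'] (pO : O →+* O') (pΛ : Λ →+* Λ')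

/-- Base change on the normalisation. -/
def mB : BG Λ →+* BG Λ' := qmap (mA pΛ) (mA_W pΛ) (mA_x pΛ)

lemma map_map_σ (hσ : ∀ l, pΛ (σ l) = pΛ l) (a : Λ⟦X⟧) :
    map pΛ (map (σ : Λ →+* Λ) a) = map pΛ a := by
  ext n; simp [coeff_map, hσ]

lemma mB_mem (hc : ∀ o, pΛ (algebraMap O Λ o) = algebraMap O' Λ' (pO o))
    (hσ : ∀ l, pΛ (σ l) = pΛ l) (r : RR σ) : mB pΛ r ∈ RR (AlgHom.id O' Λ') := by
  obtain ⟨h1, o, h2⟩ := (mem_RR σ _).1 r.2
  have h0 : ∀ a : Λ'⟦X⟧, map ((AlgHom.id O' Λ' : Λ' →ₐ[O'] Λ') : Λ' →+* Λ') a = a := fun a => by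
    ext n; simp
  rw [mem_RR, e1_apply, e2_apply, cG_apply, h0]
  simp only [mB, qmap_re, qmap_im, cc_mA, cc0_mA]
  refine ⟨?_, pO o, by rw [← hc, h2, cG_apply]⟩
  have := congrArg (map pΛ) h1
  rwa [e1_apply, e2_apply, map_map_σ σ pΛ hσ, map_add, map_mul, map_X] at this

/-- Base change on the glued ring. -/
def mR (hc : ∀ o, pΛ (algebraMap O Λ o) = algebraMap O' Λ' (pO o))
    (hσ : ∀ l, pΛ (σ l) = pΛ l) : RR σ →+* RR (AlgHom.id O' Λ') :=
  ((mB pΛ).comp (RR σ).subtype).codRestrict _ (mB_mem σ pO pΛ hc hσ)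

lemma ps_surj {A B : Type} [CommRing A] [CommRing B] {g : A →+* B} (h : Function.Surjective g) :
    Function.Surjective (PowerSeries.map g) := fun b =>
  ⟨mk fun n => (h (coeff n b)).choose, by
    ext n; rw [coeff_map, coeff_mk, (h (coeff n b)).choose_spec]⟩

lemma mR_surj (hc : ∀ o, pΛ (algebraMap O Λ o) = algebraMap O' Λ' (pO o))
    (hσ : ∀ l, pΛ (σ l) = pΛ l) (hO : Function.Surjective pO) (hΛ : Function.Surjective pΛ) :
    Function.Surjective (mR σ pO pΛ hc hσ) := by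
  rintro ⟨⟨a, b⟩, hr⟩
  obtain ⟨h1, o, h2⟩ := (mem_RR _ _).1 hr
  have h0 : ∀ a : Λ'⟦X⟧, map ((AlgHom.id O' Λ' : Λ' →ₐ[O'] Λ') : Λ' →+* Λ') a = a := fun a => by
    ext n; simp
  rw [e1_apply, e2_apply, h0] at h1
  obtain ⟨c, rfl⟩ := ps_div (a := b) (ps_X_reg _ (by linear_combination h1))
  obtain ⟨a', ha'⟩ := ps_dec a
  obtain ⟨e, he⟩ := ps_dec (constantCoeff a)
  rw [cG_apply, cc0_apply] at h2
  rw [he, ← h2] at ha'
  subst ha'
  obtain ⟨a', rfl⟩ := ps_surj (ps_surj hΛ) a'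
  obtain ⟨c, rfl⟩ := ps_surj (ps_surj hΛ) c
  obtain ⟨e, rfl⟩ := ps_surj hΛ e
  obtain ⟨o, rfl⟩ := hO o
  refine ⟨⟨⟨X * a' + C (X * e + C (algebraMap O Λ o)), X * c + C (map (σ : Λ →+* Λ) e - e)⟩,
    (mem_RR σ _).2 ⟨?_, o, ?_⟩⟩, Subtype.ext ?_⟩
  · rw [e1_apply, e2_apply]
    simp
    ring
  · simp [cG_apply, cc0_apply]
  · change mB pΛ _ = _
    ext : 1
    · simp [mB, mA, hc]
    · simp [mB, mA, map_map_σ σ pΛ hσ]

lemma mR_ker (hc : ∀ o, pΛ (algebraMap O Λ o) = algebraMap O' Λ' (pO o))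
    (hσ : ∀ l, pΛ (σ l) = pΛ l) (f : O) (hpf : pO f = 0)
    (hf : ∀ m : Λ, algebraMap O Λ f * m = 0 → m = 0)
    (hsat : ∀ (l : Λ) (o : O), algebraMap O Λ o = algebraMap O Λ f * l →
      ∃ o', algebraMap O Λ o' = l)
    (hk : ∀ l, pΛ l = 0 → ∃ l', l = algebraMap O Λ f * l') :
    RingHom.ker (mR σ pO pΛ hc hσ) = Ideal.span {alR σ (CC f)} := by
  have hk2 : ∀ a : A2 Λ, mA pΛ a = 0 → ∃ a', a = CC (algebraMap O Λ f) * a' :=
    ps_ker (map pΛ) (C (algebraMap O Λ f)) (ps_ker pΛ _ hk)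
  apply le_antisymm
  · rintro ⟨⟨a, b⟩, hr⟩ h
    have h' : mB pΛ ⟨a, b⟩ = 0 := congrArg Subtype.val h
    obtain ⟨a, rfl⟩ := hk2 a (congrArg QuadraticAlgebra.re h')
    obtain ⟨b, rfl⟩ := hk2 b (congrArg QuadraticAlgebra.im h')
    have hr' : algebraMap (A2 Λ) (BG Λ) (CC (algebraMap O Λ f)) * ⟨a, b⟩ ∈ RR σ := by
      rw [qa_mul]
      exact hr
    obtain ⟨o, ho⟩ := hr'.2
    rw [map_mul, cG_alg, cc0_CC] at ho
    have hm : (⟨a, b⟩ : BG Λ) ∈ RR σ :=
      ⟨R1_sat σ (a := CC (algebraMap O Λ f)) (by simp) (by rw [cc_CC]; exact ps_C_reg hf) _ hr'.1,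
        hsat _ o ho⟩
    rw [Ideal.mem_span_singleton]
    refine ⟨⟨_, hm⟩, Subtype.ext ?_⟩
    rw [Subring.coe_mul, alR_CC, qa_mul]
  · rw [Ideal.span_le, Set.singleton_subset_iff]
    apply Subtype.ext
    change mB pΛ (alR σ (CC f)) = 0
    rw [alR_CC]
    ext : 1 <;> simp [mB, mA_CC, hc, hpf]

end proj

end Pool.Agent.Work.MP_34c70a_al.G
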