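import Mathlib
import Pool.Agent.Work.MP_34c70a_al.GSide
import Pool.Agent.Work.MP_34c70a_al.GDefs

-- merged part: Pool.Agent.Work.MP_34c70a_al.GField
section
/-!
The residue fields.
-/

set_option autoImplicit false

open Polynomial

noncomputable section

namespace Pool.Agent.Work.MP_34c70a_al.G

section der

variable {R A : Type} [CommRing R] [CommRing A] [Algebra R A] (D : Derivation R A A)

lemma der_eval (Q : A[X]) (h : ∀ i, D (Q.coeff i) = 0) (t : A) :
    D (Q.eval t) = (derivative Q).eval t * D t := by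
  rw [derivative_eval, eval_eq_sum, Polynomial.sum, Polynomial.sum, map_sum, Finset.sum_mul]
  refine Finset.sum_congr rfl fun i _ => ?_
  rw [D.leibniz, h, D.leibniz_pow]
  simp only [smul_eq_mul, nsmul_eq_mul]
  ring

lemma der_const [IsDomain A] (p : ℕ) [CharP A p] (s : A) (hs : D s = 1) (n : ℕ) :
    ∀ Q : A[X], Q.natDegree = n → n < p → (∀ i, D (Q.coeff i) = 0) → D (Q.eval s) = 0 →
      Q = C (Q.coeff 0) := by
  induction n using Nat.strong_induction_on with
  | _ n ih =>
    intro Q hn hp h e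
    by_cases h0 : n = 0
    · exact eq_C_of_natDegree_eq_zero (hn.trans h0)
    rw [der_eval D Q h, hs, mul_one] at e
    have h1 : (derivative Q).natDegree < n := hn ▸ natDegree_derivative_lt (hn ▸ h0)
    have h2 := ih _ h1 (derivative Q) rfl (by omega) (fun i => by
      rw [coeff_derivative, D.leibniz, h]
      have : D ((i : A) + 1) = 0 := by simp
      simp [this]) (by rw [e, map_zero])
    rw [h2, eval_C] at e
    rw [e, map_zero] at h2
    ext i
    rcases i with _ | i
    · simp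
    · rw [coeff_C_succ]
      by_cases hi : n < i + 1
      · exact coeff_eq_zero_of_natDegree_lt (hn ▸ hi)
      have h3 := congrArg (fun r => coeff r i) h2
      simp only [coeff_derivative, coeff_zero, mul_eq_zero] at h3
      refine h3.resolve_right fun h4 => ?_
      have : p ∣ i + 1 := (CharP.cast_eq_zero_iff A p _).1 (by exact_mod_cast h4)
      have := Nat.le_of_dvd (by omega) this
      omega

end der

lemma finite_iff_fun {A B : Type} [CommRing A] [CommRing B] (g : A →+* B) :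
    g.Finite ↔ ∃ (n : ℕ) (s : Fin n → B), ∀ b, ∃ c : Fin n → A, ∑ i, g (c i) * s i = b := by
  let := g.toAlgebra
  constructor
  · intro h
    have : Module.Finite A B := h
    obtain ⟨n, s, hs⟩ := Module.Finite.exists_fin (R := A) (M := B)
    exact ⟨n, s, fun b => (Submodule.mem_span_range_iff_exists_fun A).1 (hs ▸ Submodule.mem_top)⟩
  · rintro ⟨n, s, hs⟩
    exact Module.finite_def.2 (Submodule.fg_def.2 ⟨Set.range s, Set.finite_range _,
      eq_top_iff.2 fun b _ => (Submodule.mem_span_range_iff_exists_fun A).2 (hs b)⟩)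

lemma frac_frob_finite (p : ℕ) [Fact p.Prime] (A K : Type) [CommRing A] [IsDomain A] [Field K]
    [Algebra A K] [IsFractionRing A K] [CharP A p] [CharP K p] (h : (frobenius A p).Finite) :
    (frobenius K p).Finite := by
  obtain ⟨n, s, hs⟩ := (finite_iff_fun _).1 h
  refine (finite_iff_fun _).2 ⟨n, fun i => algebraMap A K (s i), fun x => ?_⟩
  obtain ⟨a, b, hb, rfl⟩ := IsFractionRing.div_surjective (A := A) x
  have hb' : algebraMap A K b ≠ 0 := IsFractionRing.to_map_ne_zero_of_mem_nonZeroDivisors hb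
  obtain ⟨c, hc⟩ := hs (a * b ^ (p - 1))
  refine ⟨fun i => algebraMap A K (c i) / algebraMap A K b, ?_⟩
  simp only [frobenius_def] at hc ⊢
  have h1 := congrArg (algebraMap A K) hc
  simp only [map_sum, map_mul, map_pow] at h1
  obtain ⟨q, hq⟩ : ∃ q, p = q + 1 := ⟨p - 1, by have := (Fact.out : p.Prime).pos; omega⟩
  simp only [div_pow, div_mul_eq_mul_div]
  rw [← Finset.sum_div, h1, show p - 1 = q by omega, hq, pow_succ]
  field_simp

variable (p : ℕ) [Fact p.Prime]

/-- Polynomials in two variables. -/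
abbrev PP : Type := MvPolynomial (Fin 2) (ZMod p)

/-- Rational functions in two variables. -/
abbrev K1 : Type := FractionRing (PP p)

/-- The swap on polynomials. -/
def sw0 : PP p ≃+* PP p := (MvPolynomial.renameEquiv (ZMod p) (Equiv.swap 0 1)).toRingEquiv

/-- The swap on rational functions. -/
def sw : K1 p ≃+* K1 p := IsFractionRing.ringEquivOfRingEquiv (sw0 p)

lemma sw_alg (a : PP p) : sw p (algebraMap _ _ a) = algebraMap _ _ (sw0 p a) :=
  IsFractionRing.ringEquivOfRingEquiv_algebraMap _ _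

lemma sw0_sw0 (a : PP p) : sw0 p (sw0 p a) = a := by
  change MvPolynomial.rename _ (MvPolynomial.rename _ a) = a
  rw [MvPolynomial.rename_rename]
  have : (Equiv.swap (0 : Fin 2) 1) ∘ (Equiv.swap (0 : Fin 2) 1) = id := by
    ext i; simp
  rw [this, MvPolynomial.rename_id_apply]

lemma sw_sw (x : K1 p) : sw p (sw p x) = x := by
  obtain ⟨a, b, -, rfl⟩ := IsFractionRing.div_surjective (A := PP p) x
  rw [map_div₀, map_div₀, sw_alg, sw_alg, sw_alg, sw_alg, sw0_sw0, sw0_sw0]

lemma sw0_X0 : sw0 p (MvPolynomial.X 0) = MvPolynomial.X 1 := by simp [sw0]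

/-- Symmetric rational functions. -/
def K0 : Subfield (K1 p) := RingHom.eqLocusField (sw p).toRingHom (RingHom.id _)

lemma mem_K0 (x : K1 p) : x ∈ K0 p ↔ sw p x = x := Iff.rfl

/-- The first variable. -/
def ss : K1 p := algebraMap (PP p) _ (MvPolynomial.X 0)

instance : CharP (K1 p) p := IsFractionRing.charP (PP p) p

instance : Module.Finite (K0 p) (K1 p) := by
  refine ⟨Submodule.fg_def.2 ⟨{1, ss p}, Set.toFinite _, eq_top_iff.2 fun x _ => ?_⟩⟩
  have hd : ss p - sw p (ss p) ≠ 0 := by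
    rw [ss, sw_alg, sw0_X0, ← map_sub, Ne, map_eq_zero_iff _ (IsFractionRing.injective _ _),
      sub_eq_zero, MvPolynomial.X_inj]
    decide
  have h1 : (x - sw p x) / (ss p - sw p (ss p)) ∈ K0 p := by
    rw [mem_K0, map_div₀, map_sub, map_sub, sw_sw, sw_sw, ← neg_sub x, ← neg_sub (ss p),
      neg_div_neg_eq]
  have h2 : x - (x - sw p x) / (ss p - sw p (ss p)) * ss p ∈ K0 p := by
    rw [mem_K0, map_sub, map_mul, (mem_K0 p _).1 h1]
    field_simp
    ring
  refine Submodule.mem_span_pair.2 ⟨⟨_, h2⟩, ⟨_, h1⟩, ?_⟩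
  change (x - _) * 1 + _ * ss p = x
  ring

lemma K_prop (q : (K1 p)[X]) (hq : q.natDegree < p) (o : K0 p)
    (h : algebraMap (K0 p) (K1 p) o = (q.map (frobenius (K1 p) p)).eval (ss p)) :
    ∃ o' : K0 p, q = C (algebraMap (K0 p) (K1 p) o') := by
  have hp : p.Prime := Fact.out
  have hinj := IsFractionRing.injective (PP p) (K1 p)
  obtain ⟨b, hb, hq'⟩ := IsLocalization.integerNormalization_spec (nonZeroDivisors (PP p)) q
  set q' := IsLocalization.integerNormalization (nonZeroDivisors (PP p)) q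
  have hb0 : b ≠ 0 := nonZeroDivisors.ne_zero hb
  have hb1 : algebraMap (PP p) (K1 p) b ≠ 0 := (map_ne_zero_iff _ hinj).2 hb0
  have hq'' : q'.map (algebraMap (PP p) (K1 p)) = C (algebraMap (PP p) (K1 p) b) * q := by
    rw [hq', C_mul', algebraMap_smul]
  have hd : q'.natDegree < p := by
    rw [← natDegree_map_eq_of_injective hinj, hq'']
    exact (natDegree_C_mul_le _ _).trans_lt hq
  set E := (q'.map (frobenius (PP p) p)).eval (MvPolynomial.X 0) with hE
  have h1 : algebraMap (PP p) (K1 p) E = algebraMap (PP p) (K1 p) b ^ p * o.1 := by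
    have : (algebraMap (PP p) (K1 p)).comp (frobenius (PP p) p) =
        (frobenius (K1 p) p).comp (algebraMap (PP p) (K1 p)) := by
      exact RingHom.ext fun x => by simp [frobenius_def]
    rw [hE, ← eval₂_at_apply, ← eval_map, map_map, this, ← map_map, hq'', Polynomial.map_mul,
      map_C, eval_mul, eval_C]
    exact congrArg _ h.symm
  have h2 := congrArg (sw p) h1
  rw [map_mul, map_pow, sw_alg, sw_alg, (mem_K0 p _).1 o.2] at h2
  have h3 : sw0 p b ^ p * E = b ^ p * sw0 p E := hinj (by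
    rw [map_mul, map_mul, map_pow, map_pow, h1, h2]; ring)
  let D : Derivation (ZMod p) (PP p) (PP p) := MvPolynomial.pderiv 0
  have hD : ∀ x : PP p, D (x ^ p) = 0 := fun x => by
    rw [D.leibniz_pow, nsmul_eq_mul, CharP.cast_eq_zero, zero_mul]
  have h4 : D (sw0 p E) = 0 := by
    rw [hE, ← RingEquiv.coe_toRingHom, ← eval₂_at_apply, ← eval_map, der_eval]
    · simp [D, sw0_X0]
    · intro i
      rw [coeff_map, coeff_map, frobenius_def, map_pow, hD]
  have h5 := congrArg D h3
  rw [D.leibniz, D.leibniz, hD, hD, h4] at h5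
  have h6 : D E = 0 := by
    have h7 : sw0 p b ≠ 0 := (map_ne_zero_iff _ (sw0 p).injective).2 hb0
    simpa [h7, hp.ne_zero] using h5
  have h7 := der_const D p (MvPolynomial.X 0) (by simp [D]) _ (q'.map (frobenius (PP p) p)) rfl
    (natDegree_map_le.trans_lt hd) (fun i => by rw [coeff_map, frobenius_def, hD]) h6
  have h8 : q = C (q.coeff 0) := by
    ext i
    rcases i with _ | i
    · simp
    have h9 := congrArg (fun r => coeff r (i + 1)) h7
    simp only [coeff_map, frobenius_def, coeff_C_succ, pow_eq_zero_iff hp.ne_zero] at h9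
    have h10 := congrArg (fun r => coeff r (i + 1)) hq''
    simp only [coeff_map, h9, map_zero, coeff_C_mul] at h10
    rw [coeff_C_succ]
    exact (mul_eq_zero.1 h10.symm).resolve_left hb1
  rw [h8, map_C, eval_C, frobenius_def] at h
  have h9 : sw p (q.coeff 0) = q.coeff 0 := by
    apply frobenius_inj (K1 p) p
    rw [frobenius_def, frobenius_def, ← map_pow, ← h]
    exact o.2
  exact ⟨⟨_, h9⟩, h8⟩

lemma PP_frob_finite : (frobenius (PP p) p).Finite := by
  refine RingHom.IsIntegral.to_finite ?_ ?_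
  · intro x
    refine ⟨X ^ p - C x, monic_X_pow_sub_C _ (Fact.out : p.Prime).ne_zero, ?_⟩
    simp [frobenius_def]
  · refine RingHom.FiniteType.of_comp_finiteType (f := algebraMap (ZMod p) (PP p)) ?_
    rw [Subsingleton.elim ((frobenius (PP p) p).comp (algebraMap (ZMod p) (PP p)))
      (algebraMap (ZMod p) (PP p))]
    exact RingHom.finiteType_algebraMap.2 inferInstance

lemma K1_frob_finite : (frobenius (K1 p) p).Finite :=
  frac_frob_finite p (PP p) (K1 p) (PP_frob_finite p)

end Pool.Agent.Work.MP_34c70a_al.G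
end
end

-- merged part: Pool.Agent.Work.MP_34c70a_al.GAS
section
/-!
Artin-Schreier type extensions degenerating to purely inseparable ones.
-/

set_option autoImplicit false

open Polynomial

noncomputable section

namespace Pool.Agent.Work.MP_34c70a_al.G

variable {A : Type} [CommRing A] (n : ℕ) (ε t : A)

/-- The defining polynomial, of degree `n + 2`. -/
def gAS : A[X] := X ^ (n + 2) - (C (ε ^ (n + 1)) * X + C t)

lemma gAS_monic : (gAS n ε t).Monic := by
  nontriviality A
  refine (monic_X_pow (n + 2)).sub_of_left ?_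
  rw [degree_X_pow]
  exact degree_linear_le.trans_lt (by exact_mod_cast (by omega : 1 < n + 2))

lemma aeval_gAS {B : Type} [CommRing B] [Algebra A B] (x : B) : aeval x (gAS n ε t) =
    x ^ (n + 2) - (algebraMap A B ε ^ (n + 1) * x + algebraMap A B t) := by simp [gAS]

lemma gAS_degree [Nontrivial A] : (gAS n ε t).degree = (n + 2 : ℕ) := by
  rw [gAS, degree_sub_eq_left_of_degree_lt, degree_X_pow]
  rw [degree_X_pow]
  exact degree_linear_le.trans_lt (by exact_mod_cast (by omega : 1 < n + 2))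

lemma gAS_map {A' : Type} [CommRing A'] (g : A →+* A') :
    (gAS n ε t).map g = gAS n (g ε) (g t) := by simp [gAS]

/-- The extension. -/
abbrev LL : Type := AdjoinRoot (gAS n ε t)

lemma root_pow : AdjoinRoot.root (gAS n ε t) ^ (n + 2) =
    AdjoinRoot.mk _ (C (ε ^ (n + 1)) * X + C t) := by
  rw [← AdjoinRoot.mk_X, ← map_pow, AdjoinRoot.mk_eq_mk]
  exact dvd_rfl

lemma exists_rep [Nontrivial A] (l : LL n ε t) :
    ∃ q : A[X], q.degree < (n + 2 : ℕ) ∧ AdjoinRoot.mk _ q = l := by
  obtain ⟨q, rfl⟩ := AdjoinRoot.mk_surjective l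
  refine ⟨q %ₘ gAS n ε t, gAS_degree n ε t ▸ degree_modByMonic_lt _ (gAS_monic n ε t), ?_⟩
  exact AdjoinRoot.mk_leftInverse (gAS_monic n ε t) (AdjoinRoot.mk _ q)

/-- The translation automorphism. -/
def sg (hp : (n + 2).Prime) (h : ((n + 2 : ℕ) : A) = 0) : LL n ε t →ₐ[A] LL n ε t :=
  AdjoinRoot.liftAlgHom _ (Algebra.ofId A _) (AdjoinRoot.root _ + AdjoinRoot.of _ ε) (by
    have h1 := root_pow n ε t
    simp only [map_add, map_mul, AdjoinRoot.mk_C, AdjoinRoot.mk_X, map_pow] at h1
    change aeval _ (gAS n ε t) = 0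
    rw [aeval_gAS, add_pow_p hp (cast_eq_zero (AdjoinRoot.of _) h), AdjoinRoot.algebraMap_eq, h1]
    ring)

variable (hp : (n + 2).Prime) (h : ((n + 2 : ℕ) : A) = 0)

lemma sg_mk (q : A[X]) :
    sg n ε t hp h (AdjoinRoot.mk _ q) = AdjoinRoot.mk _ (taylor ε q) := by
  rw [sg, AdjoinRoot.liftAlgHom_mk, taylor_apply, ← AdjoinRoot.aeval_eq, aeval_comp]
  simp only [map_add, aeval_X, aeval_C, AdjoinRoot.algebraMap_eq]
  rfl

lemma sg_torsion : ∀ m, m < n + 2 → ∀ q : A[X], q.degree < m →
    ∃ l, AdjoinRoot.of _ ε ^ m * AdjoinRoot.mk _ q = sg n ε t hp h l - l := by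
  intro m
  induction m with
  | zero =>
    intro _ q hq
    have : q = 0 := by simpa using hq
    exact ⟨0, by simp [this]⟩
  | succ m ih =>
    intro hm q hq
    obtain ⟨u, hu⟩ : ∃ u : A, u * ((m + 1 : ℕ) : A) = 1 := by
      have := ((Nat.coprime_of_lt_prime (by omega) hm hp).symm.cast (R := A))
      rw [h, isCoprime_zero_right] at this
      exact this.exists_left_inv
    rw [degree_lt_iff_coeff_zero] at hq
    obtain ⟨l, hl⟩ := ih (by omega)
      (C ε * q - C (q.coeff m * u) * ((X + C ε) ^ (m + 1) - X ^ (m + 1))) (by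
        rw [degree_lt_iff_coeff_zero]
        intro i hi
        simp only [coeff_sub, coeff_C_mul, coeff_X_add_C_pow, coeff_X_pow]
        rcases hi.eq_or_lt with rfl | hi
        · rw [if_neg (by omega), Nat.add_sub_cancel_left, Nat.choose_succ_self_right]
          linear_combination - ε * q.coeff m * hu
        · rw [hq i hi]
          rcases (Nat.succ_le_of_lt hi).eq_or_lt with rfl | hi
          · simp
          · rw [if_neg (by omega), Nat.choose_eq_zero_of_lt hi]; simp)
    refine ⟨l + AdjoinRoot.mk _ (C (ε ^ m * (q.coeff m * u)) * X ^ (m + 1)), ?_⟩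
    rw [map_add, sg_mk, taylor_mul, taylor_C, taylor_X_pow]
    simp only [map_sub, map_mul, map_pow, map_add, AdjoinRoot.mk_C] at hl ⊢
    linear_combination hl

lemma sg_top : ∃ l, AdjoinRoot.of _ ε ^ (n + 1) * ((AdjoinRoot.root (gAS n ε t) ^ (n + 1)) ^ (n + 2)
    - AdjoinRoot.of _ ((ε ^ (n + 1)) ^ (n + 1)) * AdjoinRoot.root _ ^ (n + 1)) =
      l - sg n ε t hp h l := by
  obtain ⟨l, hl⟩ := sg_torsion n ε t hp h (n + 1) (by omega)
    ((C (ε ^ (n + 1)) * X + C t) ^ (n + 1) - C ((ε ^ (n + 1)) ^ (n + 1)) * X ^ (n + 1)) (by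
      rw [degree_lt_iff_coeff_zero]
      intro i hi
      have h1 : (C (ε ^ (n + 1)) * X + C t).natDegree ≤ 1 := natDegree_linear_le
      rw [coeff_sub, coeff_C_mul_X_pow]
      rcases hi.eq_or_lt with rfl | hi
      · have := coeff_pow_of_natDegree_le (m := n + 1) h1
        rw [mul_one] at this
        rw [this, coeff_add, coeff_C_mul_X, coeff_C_succ]; simp
      · rw [if_neg (by omega), coeff_eq_zero_of_natDegree_lt, sub_zero]
        exact (natDegree_pow_le.trans (Nat.mul_le_mul_left _ h1)).trans_lt (by omega))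
  refine ⟨-l, ?_⟩
  rw [← pow_mul, mul_comm (n + 1) (n + 2), pow_mul, root_pow, map_neg]
  simp only [map_sub, map_mul, map_pow, AdjoinRoot.mk_C, AdjoinRoot.mk_X] at hl ⊢
  linear_combination hl

/-- The top coordinate. -/
def top : LL n ε t →ₗ[A] A := lcoeff A (n + 1) ∘ₗ AdjoinRoot.modByMonicHom (gAS_monic n ε t)

lemma top_mk [Nontrivial A] {q : A[X]} (hq : q.degree < (n + 2 : ℕ)) :
    top n ε t (AdjoinRoot.mk _ q) = q.coeff (n + 1) := by
  rw [top, LinearMap.comp_apply, AdjoinRoot.modByMonicHom_mk,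
    (modByMonic_eq_self_iff (gAS_monic n ε t)).2 (by rwa [gAS_degree]), lcoeff_apply]

lemma top_sg [Nontrivial A] (l : LL n ε t) : top n ε t (sg n ε t hp h l) = top n ε t l := by
  obtain ⟨q, hq, rfl⟩ := exists_rep n ε t l
  rw [sg_mk, top_mk n ε t hq, top_mk n ε t (by rwa [degree_taylor])]
  have h1 : q.natDegree ≤ n + 1 :=
    natDegree_le_iff_degree_le.2 (Order.le_of_lt_succ (by exact_mod_cast hq))
  rcases h1.eq_or_lt with h1 | h1
  · rw [← h1, coeff_taylor_natDegree, leadingCoeff]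
  · rw [coeff_eq_zero_of_natDegree_lt h1, coeff_eq_zero_of_natDegree_lt (by rwa [natDegree_taylor])]

lemma top_root [Nontrivial A] : top n ε t (AdjoinRoot.root _ ^ (n + 1)) = 1 := by
  rw [← AdjoinRoot.mk_X, ← map_pow, top_mk n ε t (by
    rw [degree_X_pow]; exact_mod_cast Nat.lt_succ_self _)]
  simp

variable {A' : Type} [CommRing A'] (g : A →+* A') {ε' t' : A'}

/-- Base change. -/
def pL (hε : g ε = ε') (ht : g t = t') : LL n ε t →+* LL n ε' t' :=
  AdjoinRoot.map g _ _ (by rw [gAS_map, hε, ht])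

lemma pL_mk (hε : g ε = ε') (ht : g t = t') (q : A[X]) :
    pL n ε t g hε ht (AdjoinRoot.mk _ q) = AdjoinRoot.mk _ (q.map g) := by
  rw [pL, AdjoinRoot.map, AdjoinRoot.lift_mk, ← eval₂_map, ← AdjoinRoot.aeval_eq]
  rfl

lemma pL_surj (hε : g ε = ε') (ht : g t = t') (hg : Function.Surjective g) :
    Function.Surjective (pL n ε t g hε ht) := by
  intro l
  obtain ⟨q, rfl⟩ := AdjoinRoot.mk_surjective l
  obtain ⟨q, rfl⟩ := map_surjective g hg q
  exact ⟨_, pL_mk n ε t g hε ht q⟩

lemma pL_sg (hε : g ε = 0) (ht : g t = t') (l : LL n ε t) :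
    pL n ε t g hε ht (sg n ε t hp h l) = pL n ε t g hε ht l := by
  obtain ⟨q, rfl⟩ := AdjoinRoot.mk_surjective l
  rw [sg_mk, pL_mk, pL_mk, map_taylor, hε, taylor_zero]

lemma pL_ker [Nontrivial A] [Nontrivial A'] (hε : g ε = ε') (ht : g t = t') (f : A)
    (hk : ∀ a, g a = 0 → ∃ a', a = f * a') (l : LL n ε t) (hl : pL n ε t g hε ht l = 0) :
    ∃ l', l = AdjoinRoot.of _ f * l' := by
  obtain ⟨q, hq, rfl⟩ := exists_rep n ε t l
  rw [pL_mk, AdjoinRoot.mk_eq_zero] at hl
  have h1 : q.map g = 0 := by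
    by_contra h0
    exact (gAS_monic n ε' t').not_dvd_of_degree_lt h0
      (degree_map_le.trans_lt (by rwa [gAS_degree])) hl
  obtain ⟨q', rfl⟩ : C f ∣ q := (C_dvd_iff_dvd_coeff f q).2 fun i =>
    hk _ (by rw [← coeff_map, h1, coeff_zero])
  exact ⟨AdjoinRoot.mk _ q', by rw [map_mul, AdjoinRoot.mk_C]⟩

lemma pow_char [CharP A (n + 2)] [Fact (n + 2).Prime] (q : A[X]) :
    AdjoinRoot.mk (gAS n 0 t) q ^ (n + 2) =
      AdjoinRoot.of _ ((q.map (frobenius A (n + 2))).eval t) := by
  have h1 := root_pow n 0 t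
  rw [zero_pow (by omega), map_zero, zero_mul, zero_add, AdjoinRoot.mk_C] at h1
  rw [← map_pow, ← map_frobenius_expand, map_expand, ← AdjoinRoot.aeval_eq, expand_aeval, h1,
    ← AdjoinRoot.algebraMap_eq, aeval_algebraMap_apply_eq_algebraMap_eval]

end Pool.Agent.Work.MP_34c70a_al.G
end
end

-- merged part: Pool.Agent.Work.MP_34c70a_al.GMain
section
/-!
The three dimensional domain in every characteristic.
-/

set_option autoImplicit false

open PowerSeries CategoryTheory Pool.Agent.Lib.LocalCoh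

noncomputable section

namespace Pool.Agent.Work.MP_34c70a_al.G

lemma expand_finite (A : Type) [CommRing A] (p : ℕ) (hp : p ≠ 0) :
    (PowerSeries.expand (R := A) p hp).toRingHom.Finite := by
  refine (finite_iff_fun _).2 ⟨p, fun i => X ^ (i : ℕ), fun b =>
    ⟨fun i => mk fun m => coeff (p * m + i) b, ?_⟩⟩
  ext m
  have hp' : 0 < p := Nat.pos_of_ne_zero hp
  rw [map_sum, Finset.sum_eq_single ⟨m % p, Nat.mod_lt _ hp'⟩]
  · have h1 : m - m % p = p * (m / p) := by have := Nat.div_add_mod m p; omega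
    rw [coeff_mul_X_pow', if_pos (Nat.mod_le _ _)]
    change coeff (m - m % p) (PowerSeries.expand p hp _) = _
    rw [h1, coeff_expand_mul, coeff_mk, Nat.div_add_mod]
  · intro i _ hi
    rw [coeff_mul_X_pow']
    split_ifs with h
    · refine coeff_expand_of_not_dvd p hp _ fun ⟨c, hc⟩ => hi (Fin.ext ?_)
      change i.1 = m % p
      rw [show m = i + p * c by omega, Nat.add_mul_mod_self_left, Nat.mod_eq_of_lt i.2]
    · rfl
  · simp

lemma ps_frob_finite (A : Type) [CommRing A] (p : ℕ) [Fact p.Prime] [CharP A p] [CharP A⟦X⟧ p]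
    (h : (frobenius A p).Finite) : (frobenius A⟦X⟧ p).Finite := by
  have hp : p ≠ 0 := (Fact.out : p.Prime).ne_zero
  have : frobenius A⟦X⟧ p =
      (PowerSeries.map (frobenius A p)).comp (PowerSeries.expand (R := A) p hp).toRingHom :=
    RingHom.ext fun x => (MvPowerSeries.map_frobenius_expand p hp).symm
  rw [this]
  exact (ps_map_finite _ h).comp (expand_finite A p hp)

/-- Coefficientwise application of a linear form. -/
def psLin {k k' : Type} [Field k] [Field k'] [Algebra k k'] (l : k' →ₗ[k] k) :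
    k'⟦X⟧ →ₗ[k⟦X⟧] k⟦X⟧ where
  toFun a := mk fun n => l (coeff n a)
  map_add' a b := by ext; simp
  map_smul' r a := by
    ext n
    change coeff n (mk fun n => l (coeff n (map (algebraMap k k') r * a))) = coeff n (r * _)
    simp only [coeff_mk, coeff_mul, map_sum, coeff_map, ← Algebra.smul_def, map_smul, smul_eq_mul]

theorem generic (n : ℕ) [hp : Fact (n + 2).Prime] (k k' : Type) [Field k] [Field k']
    [Algebra k k'] [Module.Finite k k'] [CharP k' (n + 2)] (s : k')
    (hP : ∀ q : Polynomial k', q.natDegree < n + 2 → ∀ o : k,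
      algebraMap k k' o = (q.map (frobenius k' (n + 2))).eval s →
        ∃ o' : k, q = Polynomial.C (algebraMap k k' o'))
    (hF : (frobenius k' (n + 2)).Finite) :
    ∃ (R S : Type) (_ : CommRing R) (_ : IsDomain R) (_ : IsLocalRing R)
      (_ : IsNoetherianRing R) (_ : CharP R (n + 2)) (_ : CommRing S) (_ : IsLocalRing S)
      (f : R) (π : R →+* S), ringKrullDim R = 3 ∧
      (∀ F : R →+* R, (∀ x, F x = x ^ (n + 2)) → F.Finite) ∧
      f ∈ IsLocalRing.maximalIdeal R ∧ f ≠ 0 ∧ Function.Surjective π ∧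
      RingHom.ker π = Ideal.span {f} ∧ FInjective (n + 2) S ∧ ¬ FInjective (n + 2) R := by
  have hk' : ((n + 2 : ℕ) : k') = 0 := CharP.cast_eq_zero _ _
  have hk : ((n + 2 : ℕ) : k) = 0 := (algebraMap k k').injective (by rw [map_natCast, hk', map_zero])
  have hO : ((n + 2 : ℕ) : k⟦X⟧) = 0 := cast_eq_zero C hk
  have hO' : ((n + 2 : ℕ) : k'⟦X⟧) = 0 := cast_eq_zero C hk'
  have hs : ∀ b : k', b ^ (n + 2) ≠ s := by
    intro b hb
    obtain ⟨o, ho⟩ := hP (Polynomial.C b - Polynomial.X)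
      (by rw [← Polynomial.natDegree_neg, neg_sub, Polynomial.natDegree_X_sub_C]; omega) 0
      (by simp [frobenius_def, hb])
    have := congrArg (fun q => Polynomial.coeff q 1) ho
    simp at this
  have hirr : Irreducible (gAS n (0 : k') s) := by
    have := X_pow_sub_C_irreducible_of_prime hp.out hs
    simpa [gAS] using this
  have hε : constantCoeff (X ^ 2 : k'⟦X⟧) = 0 := by simp
  have hirr' : Irreducible (gAS n (X ^ 2 : k'⟦X⟧) (C s)) :=
    Polynomial.Monic.irreducible_of_irreducible_map constantCoeff _ (gAS_monic _ _ _)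
      (by rwa [gAS_map, hε, constantCoeff_C])
  have dL : IsDomain (LL n (0 : k') s) := AdjoinRoot.isDomain_of_prime hirr.prime
  have dΛ : IsDomain (LL n (X ^ 2 : k'⟦X⟧) (C s)) := AdjoinRoot.isDomain_of_prime hirr'.prime
  have f1 : Module.Finite k' (LL n (0 : k') s) := (gAS_monic _ _ _).finite_adjoinRoot
  have f2 : Module.Finite k (LL n (0 : k') s) := Module.Finite.trans k' _
  have f3 : Module.Finite k'⟦X⟧ (LL n (X ^ 2 : k'⟦X⟧) (C s)) := (gAS_monic _ _ _).finite_adjoinRoot
  have f4 : Module.Finite k⟦X⟧ k'⟦X⟧ :=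
    ps_map_finite (algebraMap k k') (RingHom.finite_algebraMap.2 inferInstance)
  have f5 : Module.Finite k⟦X⟧ (LL n (X ^ 2 : k'⟦X⟧) (C s)) := Module.Finite.trans k'⟦X⟧ _
  have halg : ∀ o : k⟦X⟧, algebraMap k⟦X⟧ (LL n (X ^ 2 : k'⟦X⟧) (C s)) o =
      AdjoinRoot.of _ (map (algebraMap k k') o) := fun o => rfl
  have hofi : Function.Injective (AdjoinRoot.of (gAS n (X ^ 2 : k'⟦X⟧) (C s))) :=
    AdjoinRoot.of.injective_of_degree_ne_zero (by rw [gAS_degree]; exact_mod_cast Nat.succ_ne_zero (n + 1))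
  have f6 : FaithfulSMul k⟦X⟧ (LL n (X ^ 2 : k'⟦X⟧) (C s)) :=
    (faithfulSMul_iff_algebraMap_injective _ _).2
      (hofi.comp (map_injective _ (algebraMap k k').injective))
  let σ : LL n (X ^ 2 : k'⟦X⟧) (C s) →ₐ[k⟦X⟧] LL n (X ^ 2 : k'⟦X⟧) (C s) :=
    (sg n _ _ hp.out hO').restrictScalars k⟦X⟧
  let pΛ := pL n (X ^ 2 : k'⟦X⟧) (C s) constantCoeff hε (constantCoeff_C s)
  have hc : ∀ o : k⟦X⟧, pΛ (algebraMap _ _ o) =
      algebraMap k (LL n (0 : k') s) (constantCoeff o) := fun o => by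
    rw [halg, ← AdjoinRoot.mk_C, pL_mk, Polynomial.map_C, cc_map]; rfl
  have hσ : ∀ l, pΛ (σ l) = pΛ l := pL_sg n _ _ hp.out hO' constantCoeff hε _
  have hX : algebraMap k⟦X⟧ (LL n (X ^ 2 : k'⟦X⟧) (C s)) X = AdjoinRoot.of _ X := by
    rw [halg, map_X]
  have hf : ∀ m : LL n (X ^ 2 : k'⟦X⟧) (C s), algebraMap k⟦X⟧ _ X * m = 0 → m = 0 := fun m e =>
    (mul_eq_zero.1 e).resolve_left (by rw [hX]; exact (map_ne_zero_iff _ hofi).2 X_ne_zero)
  have hu : ¬ IsUnit (X : k⟦X⟧) := by
    rw [isUnit_iff_constantCoeff, constantCoeff_X]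
    exact not_isUnit_zero
  have hm : ∀ o : k⟦X⟧, ¬ IsUnit o → ∃ m, o = X * m := fun o ho => ps_div (by
    rwa [isUnit_iff_constantCoeff, isUnit_iff_ne_zero, not_not] at ho)
  have hsat : ∀ (l : LL n (X ^ 2 : k'⟦X⟧) (C s)) (o : k⟦X⟧),
      algebraMap _ _ o = algebraMap k⟦X⟧ _ X * l → ∃ o' : k⟦X⟧, algebraMap _ _ o' = l := by
    intro l o e
    have h1 := congrArg pΛ e
    rw [map_mul, hc, hc, constantCoeff_X, map_zero, zero_mul, _root_.map_eq_zero] at h1
    obtain ⟨o', rfl⟩ := ps_div h1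
    exact ⟨o', sub_eq_zero.1 (hf _ (by rw [map_mul] at e; linear_combination e))⟩
  have hR : ((n + 2 : ℕ) : RR σ) = 0 := cast_eq_zero ((alR σ).comp CC) hO
  have cR : CharP (RR σ) (n + 2) := (CharP.charP_iff_prime_eq_zero hp.out).2 hR
  refine ⟨RR σ, RR (AlgHom.id k (LL n (0 : k') s)), inferInstance, inferInstance, inferInstance,
    inferInstance, cR, inferInstance, inferInstance, alR σ (CC X),
    mR σ constantCoeff pΛ hc hσ, dim_eq σ X X_ne_zero hu hm, ?_, ?_, ?_, ?_, ?_, ?_, ?_⟩
  · intro F hF'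
    have c0 : CharP k (n + 2) := (CharP.charP_iff_prime_eq_zero hp.out).2 hk
    have c1 : CharP k⟦X⟧ (n + 2) := (CharP.charP_iff_prime_eq_zero hp.out).2 hO
    have c2 : CharP k⟦X⟧⟦X⟧ (n + 2) :=
      (CharP.charP_iff_prime_eq_zero hp.out).2 (cast_eq_zero C hO)
    have c3 : CharP k⟦X⟧⟦X⟧⟦X⟧ (n + 2) :=
      (CharP.charP_iff_prime_eq_zero hp.out).2 (cast_eq_zero CC hO)
    have g0 : (frobenius k (n + 2)).Finite := by
      refine finite_of_inj _ (algebraMap k k') (algebraMap k k').injective ?_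
      rw [show (algebraMap k k').comp (frobenius k (n + 2)) =
        (frobenius k' (n + 2)).comp (algebraMap k k') from
          RingHom.ext fun x => by simp [frobenius_def]]
      exact hF.comp (RingHom.finite_algebraMap.2 inferInstance)
    have g3 := ps_frob_finite _ _ (ps_frob_finite _ _ (ps_frob_finite _ _ g0))
    refine RingHom.Finite.of_comp_finite (f := alR σ) ?_
    rw [show F.comp (alR σ) = (alR σ).comp (frobenius _ (n + 2)) from
      RingHom.ext fun x => by simp [frobenius_def, hF']]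
    exact (alR_finite σ).comp g3
  · rw [mem_max, c0_alR, cc0_CC]; exact hu
  · intro h
    have := congrArg (c0 σ) h
    rw [c0_alR, cc0_CC, map_zero] at this
    exact X_ne_zero this
  · exact mR_surj σ _ _ hc hσ (fun a => ⟨C a, constantCoeff_C a⟩)
      (pL_surj _ _ _ _ _ _ (fun a => ⟨C a, constantCoeff_C a⟩))
  · refine mR_ker σ _ _ hc hσ X constantCoeff_X hf hsat fun l hl => ?_
    rw [hX]
    exact pL_ker n _ _ _ _ _ X (fun _ => ps_div) l hl
  · intro F hF' φ hφ i
    refine finj_S hp.out hk (fun l o e => ?_) F hF' φ hφ i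
    obtain ⟨q, hq, rfl⟩ := exists_rep n _ _ l
    rw [pow_char] at e
    have hi : Function.Injective (AdjoinRoot.of (gAS n (0 : k') s)) := RingHom.injective _
    obtain ⟨o', rfl⟩ := hP q (by
      by_cases h0 : q = 0
      · simp [h0]
      · exact (Polynomial.natDegree_lt_iff_degree_lt h0).2 hq) o (hi e)
    exact ⟨o', rfl⟩
  · intro hI
    obtain ⟨l₀, hl₀⟩ := LinearMap.exists_leftInverse_of_injective (Algebra.linearMap k k')
      (LinearMap.ker_eq_bot.2 (algebraMap k k').injective)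
    have hl1 : l₀ 1 = 1 := by simpa using LinearMap.congr_fun hl₀ 1
    obtain ⟨l₁, hl₁⟩ := sg_top n (X ^ 2 : k'⟦X⟧) (C s) hp.out hO'
    refine not_finj_R σ hp.out hO X hf hu hm hsat (AdjoinRoot.root _ ^ (n + 1)) l₁
      (X ^ (2 * n * n + 3 * n)) (2 * (n + 1)) ?_
      (psLin l₀ ∘ₗ (top n _ _).restrictScalars k⟦X⟧) (fun l => ?_) ?_
      (frobenius _ (n + 2)) (fun _ => rfl) (mk0 _) (fun _ => rfl)
      (hI (frobenius _ (n + 2)) (fun _ => rfl) (mk0 _) (fun _ => rfl) 3)
    · rw [← pow_add, map_pow, hX, pow_mul, ← map_pow _ X 2, ← map_pow _ X]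
      rw [show n + 2 + (2 * n * n + 3 * n) = 2 * (n + 1) * (n + 1) by ring, pow_mul, pow_mul]
      exact hl₁
    · exact congrArg (psLin l₀) (top_sg n _ _ hp.out hO' l)
    · change psLin l₀ (top n _ _ _) = 1
      rw [top_root]
      ext m
      change coeff m (mk fun m => l₀ (coeff m 1)) = _
      rw [coeff_mk, coeff_one, coeff_one]
      split_ifs <;> simp [hl1]

theorem main (p : ℕ) (hp : p.Prime) :
    ∃ (R S : Type) (_ : CommRing R) (_ : IsDomain R) (_ : IsLocalRing R)
      (_ : IsNoetherianRing R) (_ : CharP R p) (_ : CommRing S) (_ : IsLocalRing S)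
      (f : R) (π : R →+* S), ringKrullDim R = 3 ∧
      (∀ F : R →+* R, (∀ x, F x = x ^ p) → F.Finite) ∧
      f ∈ IsLocalRing.maximalIdeal R ∧ f ≠ 0 ∧ Function.Surjective π ∧
      RingHom.ker π = Ideal.span {f} ∧ FInjective p S ∧ ¬ FInjective p R := by
  obtain ⟨n, rfl⟩ := Nat.exists_eq_add_of_le' hp.two_le
  have : Fact (n + 2).Prime := ⟨hp⟩
  exact generic n (K0 (n + 2)) (K1 (n + 2)) (ss _) (K_prop _) (K1_frob_finite _)

end Pool.Agent.Work.MP_34c70a_al.G
end
end
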