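import Pool.Agent.Work.MP_34c70a_al.Series
import Mathlib.RingTheory.Finiteness.Prod

/-!
The glued ring.
-/

set_option autoImplicit false

open PowerSeries

noncomputable section

namespace Pool.Agent.Work.MP_34c70a_al

variable {O : Type} [CommRing O] (t ε : O)

/-- Power series in two variables. -/
abbrev A2 (O : Type) [CommRing O] : Type := O⟦X⟧⟦X⟧

/-- The constant coefficient. -/
def cc0 : A2 O →+* O := constantCoeff.comp constantCoeff

/-- Constants. -/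
def CC : O →+* A2 O := C.comp C

lemma cc0_apply (a : A2 O) : cc0 a = constantCoeff (constantCoeff a) := rfl

lemma CC_apply (a : O) : CC a = C (C a) := rfl

@[simp] lemma cc0_CC (a : O) : cc0 (CC a) = a := by simp [cc0_apply, CC_apply]

@[simp] lemma cc_CC (a : O) : constantCoeff (CC a) = C a := by simp [CC_apply]

@[simp] lemma cc0_W : cc0 (X : A2 O) = 0 := by simp [cc0_apply]

@[simp] lemma cc0_x : cc0 (C X : A2 O) = 0 := by simp [cc0_apply]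

lemma cc0_dec {a : A2 O} (h : cc0 a = 0) : ∃ p q, a = X * p + C X * q := by
  obtain ⟨p, hp⟩ := ps_dec a
  obtain ⟨q, hq⟩ := ps_div (a := constantCoeff a) h
  exact ⟨p, C q, by rw [← map_mul, ← hq]; exact hp⟩

/-- The first quadratic extension. -/
abbrev TT : Type := QuadraticAlgebra (A2 O) (CC t) (CC ε)

/-- The second quadratic extension. -/
abbrev B2 : Type :=
  QuadraticAlgebra (TT t ε) (algebraMap (A2 O) (TT t ε) X) (algebraMap (A2 O) (TT t ε) (C X))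

/-- The normalisation. -/
abbrev BB : Type := A2 O × B2 t ε

/-- The ring of the double locus. -/
abbrev DD : Type := QuadraticAlgebra O⟦X⟧ (C t) (C ε)

/-- The ring of the special curve. -/
abbrev OO : Type := QuadraticAlgebra O t ε

/-- Setting the last variable to zero. -/
def cT : TT t ε →+* DD t ε := qmap constantCoeff (cc_CC t) (cc_CC ε)

/-- Setting the remaining variable to zero. -/
def cD : DD t ε →+* OO t ε := qmap constantCoeff (constantCoeff_C t) (constantCoeff_C ε)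

lemma cT_alg (a : A2 O) :
    cT t ε (algebraMap (A2 O) (TT t ε) a) = algebraMap O⟦X⟧ (DD t ε) (constantCoeff a) := by
  ext <;> simp [cT]

/-- Restriction to the first branch. -/
def ev0 : B2 t ε →+* DD t ε := qev (cT t ε) 0 (by simp [cT_alg])

/-- Restriction to the second branch. -/
def evx : B2 t ε →+* DD t ε := qev (cT t ε) (algebraMap O⟦X⟧ (DD t ε) X) (by simp [cT_alg])

/-- First gluing map. -/
def e1 : BB t ε →+* DD t ε := (evx t ε).comp (RingHom.snd _ _)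

/-- Second gluing map. -/
def e2 : BB t ε →+* DD t ε := (starRingEnd (DD t ε)).comp ((ev0 t ε).comp (RingHom.snd _ _))

/-- Third gluing map. -/
def c1 : BB t ε →+* OO t ε := (algebraMap O (OO t ε)).comp (cc0.comp (RingHom.fst _ _))

/-- Fourth gluing map. -/
def c2 : BB t ε →+* OO t ε := (cD t ε).comp ((ev0 t ε).comp (RingHom.snd _ _))

/-- Coordinates. -/
abbrev mk5 (a₀ a₁ a₂ b₁ b₂ : A2 O) : BB t ε := (a₀, ⟨⟨a₁, a₂⟩, ⟨b₁, b₂⟩⟩)

lemma e1_mk (a₀ a₁ a₂ b₁ b₂ : A2 O) : e1 t ε (mk5 t ε a₀ a₁ a₂ b₁ b₂) =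
    ⟨constantCoeff a₁ + X * constantCoeff b₁, constantCoeff a₂ + X * constantCoeff b₂⟩ := by
  ext : 1 <;> simp [e1, evx, qev_apply, cT, mul_comm]

lemma e2_mk (a₀ a₁ a₂ b₁ b₂ : A2 O) : e2 t ε (mk5 t ε a₀ a₁ a₂ b₁ b₂) =
    ⟨constantCoeff a₁ + C ε * constantCoeff a₂, - constantCoeff a₂⟩ := by
  ext : 1 <;> simp [e2, ev0, qev_apply, cT, starRingEnd_apply]

lemma c1_mk (a₀ a₁ a₂ b₁ b₂ : A2 O) : c1 t ε (mk5 t ε a₀ a₁ a₂ b₁ b₂) = ⟨cc0 a₀, 0⟩ := rfl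

lemma c2_mk (a₀ a₁ a₂ b₁ b₂ : A2 O) :
    c2 t ε (mk5 t ε a₀ a₁ a₂ b₁ b₂) = ⟨cc0 a₁, cc0 a₂⟩ := by
  ext : 1 <;> simp [c2, ev0, qev_apply, cT, cD, cc0_apply]

lemma alg_eq (a : A2 O) : algebraMap (A2 O) (BB t ε) a = mk5 t ε a a 0 0 0 := rfl

lemma alg_eq' (a : A2 O) : algebraMap (A2 O) (BB t ε) a =
    (a, algebraMap (TT t ε) (B2 t ε) (algebraMap (A2 O) (TT t ε) a)) := rfl

lemma alg_mul (a a₀ a₁ a₂ b₁ b₂ : A2 O) :
    algebraMap (A2 O) (BB t ε) a * mk5 t ε a₀ a₁ a₂ b₁ b₂ =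
      mk5 t ε (a * a₀) (a * a₁) (a * a₂) (a * b₁) (a * b₂) := by
  rw [← Algebra.smul_def]
  rfl

lemma mk5_add (a₀ a₁ a₂ b₁ b₂ a₀' a₁' a₂' b₁' b₂' : A2 O) :
    mk5 t ε a₀ a₁ a₂ b₁ b₂ + mk5 t ε a₀' a₁' a₂' b₁' b₂' =
      mk5 t ε (a₀ + a₀') (a₁ + a₁') (a₂ + a₂') (b₁ + b₁') (b₂ + b₂') := rfl

lemma mk5_inj {a₀ a₁ a₂ b₁ b₂ a₀' a₁' a₂' b₁' b₂' : A2 O}
    (h : mk5 t ε a₀ a₁ a₂ b₁ b₂ = mk5 t ε a₀' a₁' a₂' b₁' b₂') :
    a₀ = a₀' ∧ a₁ = a₁' ∧ a₂ = a₂' ∧ b₁ = b₁' ∧ b₂ = b₂' :=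
  ⟨congrArg (fun z => z.1) h, congrArg (fun z => z.2.re.re) h, congrArg (fun z => z.2.re.im) h,
    congrArg (fun z => z.2.im.re) h, congrArg (fun z => z.2.im.im) h⟩

lemma e1_alg (a : A2 O) :
    e1 t ε (algebraMap (A2 O) (BB t ε) a) = algebraMap O⟦X⟧ (DD t ε) (constantCoeff a) := by
  rw [alg_eq, e1_mk]
  ext : 1 <;> simp

lemma e2_alg (a : A2 O) :
    e2 t ε (algebraMap (A2 O) (BB t ε) a) = algebraMap O⟦X⟧ (DD t ε) (constantCoeff a) := by
  rw [alg_eq, e2_mk]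
  ext : 1 <;> simp

lemma c1_alg (a : A2 O) :
    c1 t ε (algebraMap (A2 O) (BB t ε) a) = algebraMap O (OO t ε) (cc0 a) := rfl

lemma c2_alg (a : A2 O) :
    c2 t ε (algebraMap (A2 O) (BB t ε) a) = algebraMap O (OO t ε) (cc0 a) := by
  rw [alg_eq, c2_mk]
  ext : 1 <;> simp

/-- The intermediate ring. -/
def R1 : Subring (BB t ε) := (e1 t ε).eqLocus (e2 t ε)

/-- The glued ring. -/
def RR : Subalgebra (A2 O) (BB t ε) :=
  { (R1 t ε ⊓ (c1 t ε).eqLocus (c2 t ε)).toSubsemiring with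
    algebraMap_mem' := fun a =>
      ⟨(e1_alg t ε a).trans (e2_alg t ε a).symm, (c1_alg t ε a).trans (c2_alg t ε a).symm⟩ }

lemma mem_R1 (b : BB t ε) : b ∈ R1 t ε ↔ e1 t ε b = e2 t ε b := Iff.rfl

lemma mem_RR (b : BB t ε) : b ∈ RR t ε ↔ b ∈ R1 t ε ∧ c1 t ε b = c2 t ε b := Iff.rfl

lemma mk_mem_R1 (h2 : (2 : O) = 0) (a₀ a₁ a₂ b₁ b₂ : A2 O) :
    mk5 t ε a₀ a₁ a₂ b₁ b₂ ∈ R1 t ε ↔
      X * constantCoeff b₁ = C ε * constantCoeff a₂ ∧ constantCoeff b₂ = 0 := by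
  have h2' : (2 : O⟦X⟧) = 0 := two_eq_zero C h2
  rw [mem_R1, e1_mk, e2_mk, QuadraticAlgebra.mk.injEq]
  constructor
  · rintro ⟨h, h'⟩
    exact ⟨by linear_combination h,
      ps_X_reg _ (by linear_combination h' - constantCoeff a₂ * h2')⟩
  · rintro ⟨h, h'⟩
    exact ⟨by linear_combination h, by rw [h']; linear_combination constantCoeff a₂ * h2'⟩

lemma mk_mem_RR (a₀ a₁ a₂ b₁ b₂ : A2 O) :
    mk5 t ε a₀ a₁ a₂ b₁ b₂ ∈ RR t ε ↔
      mk5 t ε a₀ a₁ a₂ b₁ b₂ ∈ R1 t ε ∧ cc0 a₀ = cc0 a₁ ∧ cc0 a₂ = 0 := by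
  rw [mem_RR, c1_mk, c2_mk, QuadraticAlgebra.mk.injEq, eq_comm (a := (0 : O))]

/-- The inclusion of the glued ring in the intermediate ring. -/
def inc : RR t ε →+* R1 t ε := (RR t ε).val.toRingHom.codRestrict (R1 t ε) (fun r => r.2.1)

lemma inc_inj : Function.Injective (inc t ε) := fun _ _ h =>
  Subtype.ext (congrArg (fun z : R1 t ε => (z : BB t ε)) h)

/-- Restriction to the special curve. -/
def c0 : RR t ε →+* O := cc0.comp ((RingHom.fst _ _).comp (RR t ε).val.toRingHom)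

lemma c1_coe (r : RR t ε) : c1 t ε r = algebraMap O (OO t ε) (c0 t ε r) := rfl

lemma c2_coe (r : RR t ε) : c2 t ε r = algebraMap O (OO t ε) (c0 t ε r) := r.2.2.symm

lemma c0_alg (a : A2 O) : c0 t ε (algebraMap (A2 O) (RR t ε) a) = cc0 a := rfl

instance : Module.Finite (A2 O) (B2 t ε) := Module.Finite.trans (TT t ε) (B2 t ε)

instance : Module.Finite (A2 O) (BB t ε) := Module.Finite.prod

instance [IsNoetherianRing O] : IsNoetherianRing (RR t ε) :=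
  have : Module.Finite (A2 O) (RR t ε) :=
    Module.Finite.of_injective (RR t ε).val.toLinearMap Subtype.val_injective
  IsNoetherianRing.of_finite (A2 O) (RR t ε)

lemma cc0_unit (a : A2 O) (h : IsUnit (cc0 a)) : IsUnit a :=
  isUnit_iff_constantCoeff.2 (isUnit_iff_constantCoeff.2 h)

lemma c0_unit (r : RR t ε) (h : IsUnit (c0 t ε r)) : IsUnit r := by
  have h1 : IsUnit (r : BB t ε) := by
    rw [Prod.isUnit_iff]
    refine ⟨cc0_unit _ h, ?_⟩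
    have hc : IsUnit (c2 t ε r) := by
      rw [c2_coe]
      exact h.map _
    let g : TT t ε →+* OO t ε := qmap cc0 (cc0_CC t) (cc0_CC ε)
    have hg : ∀ x, IsUnit (g x) → IsUnit x := qmap_unit _ _ _ cc0_unit
    refine qmap_unit g (a' := 0) (b' := 0) (by ext <;> simp [g]) (by ext <;> simp [g]) hg _ ?_
    rw [QuadraticAlgebra.isUnit_iff_norm_isUnit, QuadraticAlgebra.norm_def]
    have e : g (r : BB t ε).2.re = c2 t ε r := by
      obtain ⟨⟨a₀, ⟨a₁, a₂⟩, ⟨b₁, b₂⟩⟩, hr⟩ := r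
      exact (c2_mk t ε a₀ a₁ a₂ b₁ b₂).symm
    simp only [qmap_re, e, zero_mul, add_zero, sub_zero]
    exact hc.mul hc
  have : Algebra.IsIntegral (A2 O) (BB t ε) := Algebra.IsIntegral.of_finite _ _
  have : Algebra.IsIntegral (RR t ε) (BB t ε) := Algebra.IsIntegral.tower_top (A2 O)
  exact IsUnit.of_map (algebraMap (RR t ε) (BB t ε)) r h1

instance : IsLocalHom (c0 t ε) := ⟨c0_unit t ε⟩

instance [IsLocalRing O] : IsLocalRing (RR t ε) := (c0 t ε).domain_isLocalRing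

lemma mem_max [IsLocalRing O] (r : RR t ε) :
    r ∈ IsLocalRing.maximalIdeal (RR t ε) ↔ ¬ IsUnit (c0 t ε r) := by
  rw [IsLocalRing.mem_maximalIdeal, mem_nonunits_iff, isUnit_map_iff]

lemma RR_two (h2 : (2 : O) = 0) : (2 : RR t ε) = 0 :=
  two_eq_zero ((algebraMap (A2 O) (RR t ε)).comp CC) h2

lemma A2_R2 : R2 (X : A2 O) (C X) := ps_R2 ps_X_reg

lemma BB_reg {a : A2 O} (h : ∀ m, a * m = 0 → m = 0) (m : BB t ε)
    (e : algebraMap (A2 O) (BB t ε) a * m = 0) : m = 0 :=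
  prod_reg h (qa_reg (qa_reg h)) m e

lemma BB_R2 {a b : A2 O} (h : R2 a b) :
    R2 (algebraMap (A2 O) (BB t ε) a) (algebraMap (A2 O) (BB t ε) b) :=
  prod_R2 h (qa_R2 (qa_R2 h))

lemma BB_R3 {a b c : A2 O} (h : R3 a b c) :
    R3 (algebraMap (A2 O) (BB t ε) a) (algebraMap (A2 O) (BB t ε) b)
      (algebraMap (A2 O) (BB t ε) c) :=
  prod_R3 h (qa_R3 (qa_R3 h))

lemma R1_sat {a : A2 O} (h : ∀ m, constantCoeff a * m = 0 → m = 0) (n : BB t ε)
    (hn : algebraMap (A2 O) (BB t ε) a * n ∈ R1 t ε) : n ∈ R1 t ε := by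
  rw [mem_R1, map_mul, map_mul, e1_alg, e2_alg] at hn
  exact sub_eq_zero.1 (qa_reg h _ (by linear_combination hn))

lemma c12_sat {a : A2 O} (h : ∀ m, cc0 a * m = 0 → m = 0) (n : BB t ε)
    (hn : c1 t ε (algebraMap (A2 O) (BB t ε) a * n) = c2 t ε (algebraMap (A2 O) (BB t ε) a * n)) :
    c1 t ε n = c2 t ε n := by
  rw [map_mul, map_mul, c1_alg, c2_alg] at hn
  exact sub_eq_zero.1 (qa_reg h _ (by linear_combination hn))

end Pool.Agent.Work.MP_34c70a_al
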