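import Pool.Agent.Work.MP_34c70a_al.GAbstract
import Pool.Agent.Work.MP_34c70a_al.Ring
import Mathlib.RingTheory.PowerSeries.NoZeroDivisors
import Mathlib.RingTheory.PowerSeries.Expand
import Mathlib.RingTheory.Ideal.KrullsHeightTheorem

/-!
The glued domain.
-/

set_option autoImplicit false

open PowerSeries

noncomputable section

namespace Pool.Agent.Work.MP_34c70a_al.G

lemma ps_map_finite {A B : Type} [CommRing A] [CommRing B] (g : A →+* B) (hg : g.Finite) :
    (PowerSeries.map g).Finite := by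
  let := g.toAlgebra
  let := (PowerSeries.map g).toAlgebra
  have : Module.Finite A B := hg
  obtain ⟨n, s, hs⟩ := Module.Finite.exists_fin (R := A) (M := B)
  refine ⟨Submodule.fg_def.2 ⟨Set.range (fun i => C (s i)), Set.finite_range _, ?_⟩⟩
  rw [eq_top_iff]
  intro a _
  have h1 : ∀ m, ∃ c : Fin n → A, ∑ i, c i • s i = coeff m a := fun m =>
    (Submodule.mem_span_range_iff_exists_fun A).1 (hs ▸ Submodule.mem_top)
  choose c hc using h1
  refine (Submodule.mem_span_range_iff_exists_fun _).2 ⟨fun i => mk fun m => c m i, ?_⟩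
  ext m
  rw [map_sum, ← hc]
  refine Finset.sum_congr rfl fun i _ => ?_
  change coeff m (PowerSeries.map g _ * C (s i)) = g _ * s i
  rw [coeff_mul_C, coeff_map, coeff_mk]

lemma finite_of_inj {A B D : Type} [CommRing A] [CommRing B] [CommRing D] [IsNoetherianRing A]
    (g : A →+* B) (h : B →+* D) (hi : Function.Injective h) (hf : (h.comp g).Finite) :
    g.Finite := by
  let := g.toAlgebra
  let := (h.comp g).toAlgebra
  have : Module.Finite A D := hf
  exact Module.Finite.of_injective
    ({ toFun := h, map_add' := h.map_add, map_smul' := fun _ _ => h.map_mul _ _ } :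
      B →ₗ[A] D) hi

section defs

variable {O O' : Type} [CommRing O] [CommRing O']

/-- Base change on power series in two variables. -/
def mA (g : O →+* O') : A2 O →+* A2 O' := map (map g)

lemma mA_CC (g : O →+* O') (a : O) : mA g (CC a) = CC (g a) := by simp [mA, CC_apply]

@[simp] lemma mA_W (g : O →+* O') : mA g X = X := by simp [mA]

@[simp] lemma mA_x (g : O →+* O') : mA g (C X) = C X := by simp [mA]

lemma cc_mA (g : O →+* O') (a : A2 O) : constantCoeff (mA g a) = map g (constantCoeff a) :=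
  cc_map _ _

lemma cc0_mA (g : O →+* O') (a : A2 O) : cc0 (mA g a) = g (cc0 a) := by
  rw [cc0_apply, cc_mA, cc_map, cc0_apply]

end defs

variable (O : Type) {Λ : Type} [CommRing O] [CommRing Λ] [Algebra O Λ] (σ : Λ →ₐ[O] Λ)

/-- The normalisation, a power series ring in two variables written over the invariants. -/
abbrev BG (Λ : Type) [CommRing Λ] : Type := QuadraticAlgebra (A2 Λ) X (C X)

/-- Restriction to the first branch. -/
def ev0 : BG Λ →+* Λ⟦X⟧ := qev constantCoeff 0 (by simp)

/-- Restriction to the second branch. -/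
def e1 : BG Λ →+* Λ⟦X⟧ := qev constantCoeff X (by simp)

/-- Value at the special curve. -/
def cG : BG Λ →+* Λ := constantCoeff.comp ev0

lemma ev0_apply (z : BG Λ) : ev0 z = constantCoeff z.re := by simp [ev0, qev_apply]

lemma e1_apply (z : BG Λ) : e1 z = constantCoeff z.re + X * constantCoeff z.im := by
  simp [e1, qev_apply, mul_comm]

lemma cG_apply (z : BG Λ) : cG z = cc0 z.re := by simp [cG, ev0_apply, cc0_apply]

lemma cc_e1 (z : BG Λ) : constantCoeff (e1 z) = cG z := by simp [e1_apply, cG_apply, cc0_apply]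

variable {O}

/-- The twisted restriction. -/
def e2 : BG Λ →+* Λ⟦X⟧ := (map (σ : Λ →+* Λ)).comp ev0

lemma e2_apply (z : BG Λ) : e2 σ z = map (σ : Λ →+* Λ) (constantCoeff z.re) := by
  simp [e2, ev0_apply]

lemma cc_e2 (z : BG Λ) : constantCoeff (e2 σ z) = σ (cG z) := by
  rw [e2_apply, cc_map, cG_apply, cc0_apply]; rfl

/-- The intermediate ring. -/
def R1 : Subring (BG Λ) := RingHom.eqLocus e1 (e2 σ)

/-- The glued ring. -/
def RR : Subring (BG Λ) := R1 σ ⊓ (algebraMap O Λ).range.comap cG

lemma mem_R1 (b : BG Λ) : b ∈ R1 σ ↔ e1 b = e2 σ b := Iff.rfl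

lemma mem_RR (b : BG Λ) : b ∈ RR σ ↔ e1 b = e2 σ b ∧ ∃ o, algebraMap O Λ o = cG b := Iff.rfl

lemma fixed_of_mem {b : BG Λ} (h : b ∈ R1 σ) : σ (cG b) = cG b := by
  rw [← cc_e2, ← (mem_R1 σ b).1 h, cc_e1]

/-- The structure map. -/
def al (O Λ : Type) [CommRing O] [CommRing Λ] [Algebra O Λ] : A2 O →+* BG Λ :=
  (algebraMap (A2 Λ) (BG Λ)).comp (mA (algebraMap O Λ))

lemma al_apply (a : A2 O) : al O Λ a = algebraMap (A2 Λ) (BG Λ) (mA (algebraMap O Λ) a) := rfl

lemma e1_alg (a : A2 Λ) : e1 (algebraMap (A2 Λ) (BG Λ) a) = constantCoeff a := by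
  simp [e1_apply]

lemma e2_alg (a : A2 Λ) :
    e2 σ (algebraMap (A2 Λ) (BG Λ) a) = map (σ : Λ →+* Λ) (constantCoeff a) := by
  simp [e2_apply]

lemma cG_alg (a : A2 Λ) : cG (algebraMap (A2 Λ) (BG Λ) a) = cc0 a := by simp [cG_apply]

lemma map_σ_map (a : O⟦X⟧) :
    map (σ : Λ →+* Λ) (map (algebraMap O Λ) a) = map (algebraMap O Λ) a := by
  ext n; simp [coeff_map]

lemma al_mem (a : A2 O) : al O Λ a ∈ RR σ := by
  rw [mem_RR, al_apply, e1_alg, e2_alg, cG_alg, cc_mA, map_σ_map, cc0_mA]
  exact ⟨rfl, _, rfl⟩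

/-- The structure map of the glued ring. -/
def alR : A2 O →+* RR σ := (al O Λ).codRestrict (RR σ) (al_mem σ)

lemma alR_coe (a : A2 O) : (alR σ a : BG Λ) = algebraMap (A2 Λ) (BG Λ) (mA (algebraMap O Λ) a) :=
  rfl

/-- The inclusion of the glued ring in the intermediate ring. -/
def inc : RR σ →+* R1 σ := (RR σ).subtype.codRestrict (R1 σ) (fun r => r.2.1)

lemma inc_inj : Function.Injective (inc σ) := fun _ _ h =>
  Subtype.ext (congrArg (fun z : R1 σ => (z : BG Λ)) h)

lemma inc_coe (r : RR σ) : (R1 σ).subtype (inc σ r) = r := rfl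

lemma alR_finite [IsNoetherianRing O] [Module.Finite O Λ] : (alR σ).Finite := by
  have h1 : (al O Λ).Finite :=
    RingHom.Finite.comp (RingHom.finite_algebraMap.2 inferInstance)
      (ps_map_finite _ (ps_map_finite _ (RingHom.finite_algebraMap.2 inferInstance)))
  exact finite_of_inj (alR σ) (RR σ).subtype Subtype.val_injective h1

instance [IsNoetherianRing O] [Module.Finite O Λ] : IsNoetherianRing (RR σ) := by
  let := (alR σ).toAlgebra
  have : Module.Finite (A2 O) (RR σ) := alR_finite σ
  exact IsNoetherianRing.of_finite (A2 O) (RR σ)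

lemma norm_eq_zero [IsDomain Λ] (a b : A2 Λ) (h : a * a + C X * a * b - X * b * b = 0) :
    a = 0 ∧ b = 0 := by
  have k0 : ∀ (a b : A2 Λ), a * a + C X * a * b - X * b * b = 0 →
      map constantCoeff a = 0 ∧ map constantCoeff b = 0 := by
    intro a b e
    have e1 := congrArg (map (constantCoeff (R := Λ))) e
    simp only [map_sub, map_add, map_mul, map_C, constantCoeff_X, map_zero, zero_mul, add_zero,
      map_X] at e1
    set u := map (constantCoeff (R := Λ)) a
    set v := map (constantCoeff (R := Λ)) b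
    have e2 : u * u = X * (v * v) := by linear_combination e1
    have hv : v = 0 := by
      by_contra hv
      have hu : u ≠ 0 := by
        rintro hu
        rw [hu, mul_zero] at e2
        exact mul_ne_zero X_ne_zero (mul_ne_zero hv hv) e2.symm
      have := congrArg order e2
      rw [order_mul, order_mul, order_mul, order_X, ← coe_toNat_order hu, ← coe_toNat_order hv]
        at this
      have h3 : u.order.toNat + u.order.toNat = 1 + (v.order.toNat + v.order.toNat) := by
        exact_mod_cast this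
      omega
    rw [hv, mul_zero, mul_zero] at e2
    exact ⟨mul_self_eq_zero.1 e2, hv⟩
  have key : ∀ (n : ℕ) (a b : A2 Λ), a * a + C X * a * b - X * b * b = 0 →
      ∀ i, coeff n (coeff i a) = 0 ∧ coeff n (coeff i b) = 0 := by
    intro n
    induction n with
    | zero =>
      intro a b e i
      obtain ⟨h1, h2⟩ := k0 a b e
      have h3 := congrArg (coeff i) h1
      have h4 := congrArg (coeff i) h2
      rw [coeff_map] at h3 h4
      simpa using ⟨h3, h4⟩
    | succ n ih =>
      intro a b e i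
      obtain ⟨h1, h2⟩ := k0 a b e
      obtain ⟨a', rfl⟩ := ps_ker constantCoeff X (fun o => ps_div) a h1
      obtain ⟨b', rfl⟩ := ps_ker constantCoeff X (fun o => ps_div) b h2
      rw [coeff_C_mul, coeff_C_mul, coeff_succ_X_mul, coeff_succ_X_mul]
      exact ih a' b' (ps_C_reg ps_X_reg _ (ps_C_reg ps_X_reg _ (by linear_combination e))) i
  exact ⟨PowerSeries.ext fun i => PowerSeries.ext fun n => (key n a b h i).1,
    PowerSeries.ext fun i => PowerSeries.ext fun n => (key n a b h i).2⟩

instance [IsDomain Λ] : IsDomain (BG Λ) := by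
  have key : ∀ z : BG Λ, QuadraticAlgebra.norm z = 0 → z = 0 := fun z h => by
    rw [QuadraticAlgebra.norm_def] at h
    exact QuadraticAlgebra.ext (norm_eq_zero _ _ h).1 (norm_eq_zero _ _ h).2
  have : NoZeroDivisors (BG Λ) := ⟨fun {z w} h => by
    have := congrArg QuadraticAlgebra.norm h
    rw [map_mul, QuadraticAlgebra.norm_zero, mul_eq_zero] at this
    exact this.imp (key z) (key w)⟩
  exact NoZeroDivisors.to_isDomain _

variable [FaithfulSMul O Λ]

/-- Restriction to the special curve. -/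
def c0 : RR σ →+* O :=
  (RingEquiv.ofBijective (algebraMap O Λ).rangeRestrict
    ⟨fun _ _ h => FaithfulSMul.algebraMap_injective O Λ (congrArg Subtype.val h),
      (algebraMap O Λ).rangeRestrict_surjective⟩).symm.toRingHom.comp
    ((cG.comp (RR σ).subtype).codRestrict (algebraMap O Λ).range (fun r => r.2.2))

lemma c0_spec (r : RR σ) : algebraMap O Λ (c0 σ r) = cG (r : BG Λ) :=
  congrArg Subtype.val ((RingEquiv.ofBijective (algebraMap O Λ).rangeRestrict
    ⟨fun _ _ h => FaithfulSMul.algebraMap_injective O Λ (congrArg Subtype.val h),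
      (algebraMap O Λ).rangeRestrict_surjective⟩).apply_symm_apply ⟨cG (r : BG Λ), r.2.2⟩)

lemma c0_alR (a : A2 O) : c0 σ (alR σ a) = cc0 a := by
  apply FaithfulSMul.algebraMap_injective O Λ
  rw [c0_spec, alR_coe, cG_alg, cc0_mA]

lemma c0_unit (r : RR σ) (h : IsUnit (c0 σ r)) : IsUnit r := by
  obtain ⟨v, hv⟩ := h.exists_right_inv
  have h0 : cG (r : BG Λ) * algebraMap O Λ v = 1 := by rw [← c0_spec, ← map_mul, hv, map_one]
  have h1 : IsUnit (r : BG Λ) := by
    rw [QuadraticAlgebra.isUnit_iff_norm_isUnit, QuadraticAlgebra.norm_def]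
    apply cc0_unit
    have h2 : IsUnit (cc0 (r : BG Λ).re) := by
      rw [← cG_apply]; exact IsUnit.of_mul_eq_one _ h0
    simpa using h2
  obtain ⟨u, hu⟩ := h1.exists_right_inv
  have h3 : e1 (r : BG Λ) = e2 σ r := r.2.1
  have h4 := congrArg e1 hu
  have h5 := congrArg (e2 σ) hu
  have h6 := congrArg cG hu
  rw [map_mul, map_one] at h4 h5 h6
  refine IsUnit.of_mul_eq_one ⟨u, (mem_RR σ u).2 ⟨?_, v, ?_⟩⟩ (Subtype.ext hu)
  · rw [h3] at h4
    linear_combination e2 σ u * h4 - e1 u * h5
  · linear_combination cG u * h0 - algebraMap O Λ v * h6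

instance : IsLocalHom (c0 σ) := ⟨c0_unit σ⟩

instance [IsLocalRing O] : IsLocalRing (RR σ) := (c0 σ).domain_isLocalRing

lemma mem_max [IsLocalRing O] (r : RR σ) :
    r ∈ IsLocalRing.maximalIdeal (RR σ) ↔ ¬ IsUnit (c0 σ r) := by
  rw [IsLocalRing.mem_maximalIdeal, mem_nonunits_iff, isUnit_map_iff]

omit [FaithfulSMul O Λ] in
lemma R1_sat {a : A2 Λ} (ha : map (σ : Λ →+* Λ) (constantCoeff a) = constantCoeff a)
    (h : ∀ m, constantCoeff a * m = 0 → m = 0) (n : BG Λ)
    (hn : algebraMap (A2 Λ) (BG Λ) a * n ∈ R1 σ) : n ∈ R1 σ := by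
  rw [mem_R1, map_mul, map_mul, e1_alg, e2_alg, ha] at hn
  exact sub_eq_zero.1 (h _ (by linear_combination hn))

end Pool.Agent.Work.MP_34c70a_al.G
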