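import Pool.Agent.Work.MP_34c70a_al.SideR
import Mathlib.FieldTheory.RatFunc.Degree
import Mathlib.Algebra.CharP.Two
import Mathlib.Algebra.Field.ZMod

/-!
The counterexample.
-/

set_option autoImplicit false

open PowerSeries CategoryTheory Pool.Agent.Lib.LocalCoh

noncomputable section

namespace Pool.Agent.Work.MP_34c70a_al

/-- The residue field. -/
abbrev kk : Type := RatFunc (ZMod 2)

lemma kk_two : (2 : kk) = 0 := two_eq_zero (algebraMap (ZMod 2) kk) (by decide)

lemma kk_NS : NS (RatFunc.X : kk) := by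
  intro a b e
  have hb : b = 0 := by
    by_contra hb
    have e' : a * a = RatFunc.X * (b * b) := by
      linear_combination e - RatFunc.X * b ^ 2 * kk_two
    have hne : RatFunc.X * (b * b) ≠ 0 := mul_ne_zero RatFunc.X_ne_zero (mul_ne_zero hb hb)
    have ha : a ≠ 0 := by
      rintro rfl
      exact hne (by rw [← e', mul_zero])
    have := congrArg RatFunc.intDegree e'
    rw [RatFunc.intDegree_mul ha ha, RatFunc.intDegree_mul RatFunc.X_ne_zero (mul_ne_zero hb hb),
      RatFunc.intDegree_mul hb hb, RatFunc.intDegree_X] at this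
    omega
  rw [hb] at e
  exact ⟨(pow_eq_zero_iff two_ne_zero).1 (by linear_combination e), hb⟩

lemma RR_reg {O : Type} [CommRing O] (t ε : O) (a : A2 O) (h : ∀ m, a * m = 0 → m = 0) :
    IsSMulRegular (RR t ε) (algebraMap (A2 O) (RR t ε) a) := by
  intro x y e
  have e' : algebraMap (A2 O) (BB t ε) a * ((x : BB t ε) - y) = 0 := by
    rw [mul_sub, sub_eq_zero]
    exact congrArg Subtype.val e
  exact Subtype.ext (sub_eq_zero.1 (BB_reg t ε h _ e'))

theorem counterexample : ∃ (R S : Type) (_ : CommRing R) (_ : IsLocalRing R)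
    (_ : IsNoetherianRing R) (_ : CharP R 2) (_ : CommRing S) (_ : IsLocalRing S)
    (_ : IsNoetherianRing S) (_ : CharP S 2) (f : R) (π : R →+* S),
    f ∈ IsLocalRing.maximalIdeal R ∧ IsSMulRegular R f ∧ Function.Surjective π ∧
    RingHom.ker π = Ideal.span {f} ∧
    (∀ (FS : S →+* S), (∀ x : S, FS x = x ^ 2) →
      ∀ φ : ModuleCat.of S S ⟶ (ModuleCat.restrictScalars FS).obj (ModuleCat.of S S),
        (∀ x : S, φ.hom x = FS x) → ∀ i : ℕ, Inj (IsLocalRing.maximalIdeal S) i φ) ∧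
    (∀ (FR : R →+* R), (∀ x : R, FR x = x ^ 2) →
      ∀ φ : ModuleCat.of R R ⟶ (ModuleCat.restrictScalars FR).obj (ModuleCat.of R R),
        (∀ x : R, φ.hom x = FR x) → ¬ Inj (IsLocalRing.maximalIdeal R) 3 φ) := by
  have h2 : (2 : kk⟦X⟧) = 0 := two_eq_zero C kk_two
  obtain ⟨ε, hε⟩ : ∃ ε : kk⟦X⟧, ε = X ^ 2 := ⟨_, rfl⟩
  have hX : ¬ IsUnit (X : kk⟦X⟧) := by
    rw [isUnit_iff_constantCoeff, constantCoeff_X]
    exact not_isUnit_zero
  have hpε : constantCoeff ε = 0 := by simp [hε]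
  refine ⟨RR (C RatFunc.X : kk⟦X⟧) ε, RR (RatFunc.X : kk) 0, inferInstance, inferInstance,
    inferInstance, CharTwo.of_one_ne_zero_of_two_eq_zero one_ne_zero (RR_two _ _ h2),
    inferInstance, inferInstance, inferInstance,
    CharTwo.of_one_ne_zero_of_two_eq_zero one_ne_zero (RR_two _ _ kk_two),
    algebraMap (A2 kk⟦X⟧) _ (CC X), mR constantCoeff h2 (constantCoeff_C _) hpε,
    ?_, ?_, ?_, ?_, ?_, ?_⟩
  · rw [mem_max, c0_alg, cc0_CC]
    exact hX
  · exact RR_reg _ _ (CC X) (ps_C_reg (a := C X) (ps_C_reg (a := X) ps_X_reg))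
  · exact mR_surj _ h2 _ hpε C constantCoeff_C
  · exact mR_ker _ h2 _ hpε X constantCoeff_X ps_X_reg (fun o ho => ps_div ho)
  · intro F hF φ hφ i
    exact finj_S _ kk_two kk_NS F hF φ hφ i
  · intro F hF φ hφ
    refine not_finj_R _ ε X h2 hε ps_X_reg hX (fun o ho => ps_div ?_) F hF φ hφ
    rwa [isUnit_iff_constantCoeff, isUnit_iff_ne_zero, not_not] at ho

end Pool.Agent.Work.MP_34c70a_al
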