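import Pool.Agent.Work.MP_34c70a_al.Abstract
import Mathlib.Algebra.QuadraticAlgebra.Basic
import Mathlib.RingTheory.PowerSeries.Ideal
import Mathlib.RingTheory.PowerSeries.Inverse
import Mathlib.RingTheory.IntegralClosure.IsIntegralClosure.Basic

/-!
Auxiliary facts on power series and quadratic algebras.
-/

set_option autoImplicit false

open PowerSeries

noncomputable section

namespace Pool.Agent.Work.MP_34c70a_al

section ps

variable {O : Type} [CommRing O]

lemma ps_div {a : O⟦X⟧} (h : constantCoeff a = 0) : ∃ e, a = X * e := X_dvd_iff.2 h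

lemma ps_dec (a : O⟦X⟧) : ∃ e, a = X * e + C (constantCoeff a) :=
  ⟨_, eq_X_mul_shift_add_const a⟩

lemma ps_X_reg (m : O⟦X⟧) (h : X * m = 0) : m = 0 := X_mul_cancel (by rw [h, mul_zero])

lemma ps_C_reg {a : O} (ha : ∀ m, a * m = 0 → m = 0) (m : O⟦X⟧) (h : C a * m = 0) : m = 0 := by
  ext n
  have := congrArg (coeff n) h
  rw [coeff_C_mul] at this
  exact ha _ this

lemma ps_R2 {a : O} (ha : ∀ m, a * m = 0 → m = 0) : R2 (X : O⟦X⟧) (C a) := by
  refine ⟨ps_X_reg, fun m m₁ h => ps_div (ha _ ?_)⟩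
  have := congrArg constantCoeff h
  simpa using this

lemma ps_R3 {a b : O} (h : R2 a b) : R3 (X : O⟦X⟧) (C a) (C b) := by
  refine ⟨ps_R2 h.1, fun m m₁ m₂ e => ?_⟩
  have e0 := congrArg constantCoeff e
  simp only [map_mul, map_add, constantCoeff_C, constantCoeff_X, zero_mul, zero_add] at e0
  obtain ⟨n, hn⟩ := h.2 _ _ e0
  obtain ⟨p, hp⟩ := ps_dec m
  exact ⟨p, C n, by rw [← map_mul, ← hn]; exact hp⟩

lemma ps_ker {O' : Type} [CommRing O'] (p : O →+* O') (f : O)
    (h : ∀ o, p o = 0 → ∃ o', o = f * o') (a : O⟦X⟧) (ha : map p a = 0) :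
    ∃ a', a = C f * a' := by
  have h1 : ∀ n, ∃ o', coeff n a = f * o' := fun n => h _ (by rw [← coeff_map, ha, map_zero])
  choose g hg using h1
  exact ⟨mk g, by ext n; rw [coeff_C_mul, coeff_mk, hg]⟩

lemma cc_map {O' : Type} [CommRing O'] (p : O →+* O') (a : O⟦X⟧) :
    constantCoeff (map p a) = p (constantCoeff a) := by
  rw [← coeff_zero_eq_constantCoeff_apply, coeff_map, coeff_zero_eq_constantCoeff_apply]

/-- The element `t` is not a square in the fraction field. -/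
def NS (t : O) : Prop := ∀ a b : O, a ^ 2 + t * b ^ 2 = 0 → a = 0 ∧ b = 0

lemma ps_NS {t : O} (h : NS t) : NS (C t : O⟦X⟧) := by
  have key : ∀ (n : ℕ) (a b : O⟦X⟧), a ^ 2 + C t * b ^ 2 = 0 → coeff n a = 0 ∧ coeff n b = 0 := by
    have k0 : ∀ (a b : O⟦X⟧), a ^ 2 + C t * b ^ 2 = 0 →
        constantCoeff a = 0 ∧ constantCoeff b = 0 := by
      intro a b e
      apply h
      have := congrArg constantCoeff e
      simpa using this
    intro n
    induction n with
    | zero =>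
      intro a b e
      simpa using k0 a b e
    | succ n ih =>
      intro a b e
      obtain ⟨a', rfl⟩ := ps_div (k0 a b e).1
      obtain ⟨b', rfl⟩ := ps_div (k0 _ b e).2
      rw [coeff_succ_X_mul, coeff_succ_X_mul]
      exact ih a' b' (ps_X_reg _ (ps_X_reg _ (by linear_combination e)))
  intro a b e
  exact ⟨PowerSeries.ext fun n => (key n a b e).1, PowerSeries.ext fun n => (key n a b e).2⟩

end ps

section qa

variable {P Q : Type} [CommRing P] [CommRing Q]

/-- Base change of a quadratic algebra. -/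
def qmap (g : P →+* Q) {a b : P} {a' b' : Q} (ha : g a = a') (hb : g b = b') :
    QuadraticAlgebra P a b →+* QuadraticAlgebra Q a' b' where
  toFun z := ⟨g z.re, g z.im⟩
  map_one' := by ext <;> simp [QuadraticAlgebra.re_one, QuadraticAlgebra.im_one]
  map_mul' x y := by ext <;> simp [ha, hb]
  map_zero' := by ext <;> simp
  map_add' x y := by ext <;> simp

@[simp] lemma qmap_re (g : P →+* Q) {a b : P} {a' b' : Q} (ha : g a = a') (hb : g b = b')
    (z : QuadraticAlgebra P a b) : (qmap g ha hb z).re = g z.re := rfl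

@[simp] lemma qmap_im (g : P →+* Q) {a b : P} {a' b' : Q} (ha : g a = a') (hb : g b = b')
    (z : QuadraticAlgebra P a b) : (qmap g ha hb z).im = g z.im := rfl

lemma qmap_unit (g : P →+* Q) {a b : P} {a' b' : Q} (ha : g a = a') (hb : g b = b')
    (hg : ∀ x, IsUnit (g x) → IsUnit x) (z : QuadraticAlgebra P a b)
    (hz : IsUnit (qmap g ha hb z)) : IsUnit z := by
  rw [QuadraticAlgebra.isUnit_iff_norm_isUnit] at hz ⊢
  apply hg
  have : g (QuadraticAlgebra.norm z) = QuadraticAlgebra.norm (qmap g ha hb z) := by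
    simp [QuadraticAlgebra.norm_def, ha, hb]
  rwa [this]

/-- Evaluation of a quadratic algebra at a root. -/
def qev (g : P →+* Q) {a b : P} (y : Q) (h : y * y = g a + g b * y) :
    QuadraticAlgebra P a b →+* Q where
  toFun z := g z.re + g z.im * y
  map_one' := by simp [QuadraticAlgebra.re_one, QuadraticAlgebra.im_one]
  map_mul' u v := by
    simp only [QuadraticAlgebra.re_mul, QuadraticAlgebra.im_mul, map_add, map_mul]
    linear_combination (- g u.im * g v.im) * h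
  map_zero' := by simp
  map_add' u v := by
    simp only [QuadraticAlgebra.re_add, QuadraticAlgebra.im_add, map_add]
    ring

lemma qev_apply (g : P →+* Q) {a b : P} (y : Q) (h : y * y = g a + g b * y)
    (z : QuadraticAlgebra P a b) : qev g y h z = g z.re + g z.im * y := rfl

lemma qa_mul {a b : P} (r : P) (z : QuadraticAlgebra P a b) :
    algebraMap P (QuadraticAlgebra P a b) r * z = ⟨r * z.re, r * z.im⟩ := by
  ext <;> simp

lemma qa_reg {a b : P} {r : P} (h : ∀ m, r * m = 0 → m = 0) (m : QuadraticAlgebra P a b)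
    (e : algebraMap P (QuadraticAlgebra P a b) r * m = 0) : m = 0 := by
  rw [qa_mul] at e
  exact QuadraticAlgebra.ext (h _ (congrArg QuadraticAlgebra.re e))
    (h _ (congrArg QuadraticAlgebra.im e))

lemma qa_R2 {a b : P} {r s : P} (h : R2 r s) :
    R2 (algebraMap P (QuadraticAlgebra P a b) r) (algebraMap P (QuadraticAlgebra P a b) s) := by
  refine ⟨qa_reg h.1, fun m m₁ e => ?_⟩
  rw [qa_mul, qa_mul] at e
  obtain ⟨n, hn⟩ := h.2 _ _ (congrArg QuadraticAlgebra.re e)
  obtain ⟨n', hn'⟩ := h.2 _ _ (congrArg QuadraticAlgebra.im e)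
  exact ⟨⟨n, n'⟩, by rw [qa_mul]; exact QuadraticAlgebra.ext hn hn'⟩

lemma qa_R3 {a b : P} {r s u : P} (h : R3 r s u) :
    R3 (algebraMap P (QuadraticAlgebra P a b) r) (algebraMap P (QuadraticAlgebra P a b) s)
      (algebraMap P (QuadraticAlgebra P a b) u) := by
  refine ⟨qa_R2 h.1, fun m m₁ m₂ e => ?_⟩
  rw [qa_mul, qa_mul, qa_mul] at e
  obtain ⟨n₁, n₂, hn⟩ := h.2 _ _ _ (congrArg QuadraticAlgebra.re e)
  obtain ⟨n₁', n₂', hn'⟩ := h.2 _ _ _ (congrArg QuadraticAlgebra.im e)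
  exact ⟨⟨n₁, n₁'⟩, ⟨n₂, n₂'⟩, by rw [qa_mul, qa_mul]; exact QuadraticAlgebra.ext hn hn'⟩

lemma prod_reg {r : P} {r' : Q} (h : ∀ m, r * m = 0 → m = 0) (h' : ∀ m, r' * m = 0 → m = 0)
    (m : P × Q) (e : (r, r') * m = 0) : m = 0 :=
  Prod.ext (h _ (congrArg Prod.fst e)) (h' _ (congrArg Prod.snd e))

lemma prod_R2 {r s : P} {r' s' : Q} (h : R2 r s) (h' : R2 r' s') :
    R2 ((r, r') : P × Q) (s, s') := by
  refine ⟨prod_reg h.1 h'.1, fun m m₁ e => ?_⟩
  obtain ⟨n, hn⟩ := h.2 _ _ (congrArg Prod.fst e)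
  obtain ⟨n', hn'⟩ := h'.2 _ _ (congrArg Prod.snd e)
  exact ⟨(n, n'), Prod.ext hn hn'⟩

lemma prod_R3 {r s u : P} {r' s' u' : Q} (h : R3 r s u) (h' : R3 r' s' u') :
    R3 ((r, r') : P × Q) (s, s') (u, u') := by
  refine ⟨prod_R2 h.1 h'.1, fun m m₁ m₂ e => ?_⟩
  obtain ⟨n₁, n₂, hn⟩ := h.2 _ _ _ (congrArg Prod.fst e)
  obtain ⟨n₁', n₂', hn'⟩ := h'.2 _ _ _ (congrArg Prod.snd e)
  exact ⟨(n₁, n₁'), (n₂, n₂'), Prod.ext hn hn'⟩

lemma sub_R2 (S : Subring P) (a b : S) (h : R2 (a : P) (b : P))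
    (hs : ∀ n : P, (b : P) * n ∈ S → n ∈ S) : R2 a b := by
  refine ⟨fun m e => Subtype.ext (h.1 _ (congrArg Subtype.val e)), fun m m₁ e => ?_⟩
  have e' : (b : P) * m = a * m₁ := congrArg Subtype.val e
  obtain ⟨n, hn⟩ := h.2 _ _ e'
  have h1 : (b : P) * n - m₁ = 0 := h.1 _ (by rw [hn] at e'; linear_combination e')
  have h2 : n ∈ S := hs n (by rw [sub_eq_zero.1 h1]; exact m₁.2)
  exact ⟨⟨n, h2⟩, Subtype.ext hn⟩

end qa

end Pool.Agent.Work.MP_34c70a_al
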