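import Pool.Agent.Work.MP_34c70a_al.SideS

/-!
The total space does not have injective Frobenius action on local cohomology.
-/

set_option autoImplicit false

open PowerSeries CategoryTheory Pool.Agent.Lib.LocalCoh

noncomputable section

namespace Pool.Agent.Work.MP_34c70a_al

variable {O : Type} [CommRing O] (t ε f : O)

theorem not_finj_R [IsLocalRing O] [IsNoetherianRing O] (h2 : (2 : O) = 0) (hε : ε = f ^ 2)
    (hf : ∀ m, f * m = 0 → m = 0) (hu : ¬ IsUnit f) (hm : ∀ o : O, ¬ IsUnit o → ∃ m, o = f * m)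
    (F : RR t ε →+* RR t ε) (hF : ∀ x, F x = x ^ 2)
    (φ : ModuleCat.of (RR t ε) (RR t ε) ⟶
      (ModuleCat.restrictScalars F).obj (ModuleCat.of (RR t ε) (RR t ε)))
    (hφ : ∀ x : RR t ε, φ.hom x = F x) :
    ¬ Inj (IsLocalRing.maximalIdeal (RR t ε)) 3 φ := by
  have h2' : (2 : O⟦X⟧) = 0 := two_eq_zero C h2
  have hOJ : ∀ r ∈ IsLocalRing.maximalIdeal (RR t ε), ∃ m, c0 t ε r = f * m :=
    fun r hr => hm _ ((mem_max _ _ r).1 hr)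
  have hcf : c0 t ε (algebraMap (A2 O) (RR t ε) (CC f)) = f := by
    rw [c0_alg, cc0_CC]
  have hr1 : ∀ r : RR t ε, ∃ p q : O⟦X⟧, e1 t ε r =
      ⟨X * p + C (c0 t ε r), X * q⟩ := by
    rintro ⟨⟨a₀, ⟨a₁, a₂⟩, ⟨b₁, b₂⟩⟩, hr⟩
    obtain ⟨-, h₁, h₂⟩ := (mk_mem_RR t ε a₀ a₁ a₂ b₁ b₂).1 hr
    obtain ⟨p, hp⟩ := ps_dec (constantCoeff a₁)
    obtain ⟨q, hq⟩ := ps_div (a := constantCoeff a₂) h₂
    refine ⟨p + constantCoeff b₁, q + constantCoeff b₂, ?_⟩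
    change e1 t ε (mk5 t ε a₀ a₁ a₂ b₁ b₂) = ⟨X * _ + C (cc0 a₀), _⟩
    rw [e1_mk, h₁, cc0_apply]
    exact QuadraticAlgebra.ext (by linear_combination hp) (by linear_combination hq)
  let cb : DD t ε →+ O :=
    { toFun := fun d => constantCoeff d.im
      map_zero' := by simp
      map_add' := fun a b => by simp }
  refine not_finj_of (D := DD t ε) (O := O) _ (RR_two t ε h2) (inc t ε)
    (inc_inj t ε) (R1 t ε).subtype Subtype.val_injective (e1 t ε) (e2 t ε)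
    ?_ (c0 t ε) ((algebraMap O⟦X⟧ (DD t ε)).comp C) QuadraticAlgebra.omega t cb
    (algebraMap (A2 O) _ X) (algebraMap (A2 O) _ (C X)) (algebraMap (A2 O) _ (CC f))
    ?_ ?_ ?_ ?_ ?_ ?_ ?_ ?_ ?_ ?_ ?_ ?_ ?_ ?_ ?_ ?_ F hF φ hφ
  · intro y
    exact ⟨fun h => ⟨⟨y, h⟩, rfl⟩, fun ⟨x, hx⟩ => hx ▸ x.2⟩
  · rw [mem_max, c0_alg, cc0_W]
    exact not_isUnit_zero
  · rw [mem_max, c0_alg, cc0_x]
    exact not_isUnit_zero
  · rw [mem_max, hcf]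
    exact hu
  · rw [inc_alg, inc_alg, inc_alg]
    exact BB_R3 t ε (ps_R3 (ps_R2 hf))
  · rw [inc_alg, inc_alg, e1_alg, e1_alg, constantCoeff_C, cc_CC]
    exact qa_R2 (ps_R2 hf)
  · intro y r e
    have e' := congrArg (R1 t ε).subtype e
    rw [map_mul, inc_alg] at e'
    have e'' : (r : BB t ε) = algebraMap (A2 O) (BB t ε) (CC f) * y := e'
    refine ⟨⟨y, y.2, c12_sat t ε (a := CC f) (by rw [cc0_CC]; exact hf) y ?_⟩, rfl⟩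
    rw [← e'']
    exact r.2.2
  · rintro ⟨⟨a₀, ⟨a₁, a₂⟩, ⟨b₁, b₂⟩⟩, hy⟩ r hr
    obtain ⟨m, hm⟩ := hOJ r hr
    have h₂ : cc0 a₂ = 0 := by
      have h := congrArg constantCoeff ((mk_mem_R1 t ε h2 a₀ a₁ a₂ b₁ b₂).1 hy).1
      simp only [map_mul, constantCoeff_X, zero_mul, constantCoeff_C] at h
      exact hf _ (hf _ (by rw [cc0_apply]; rw [hε] at h; linear_combination -h))
    have hy₁ : mk5 t ε (CC (m * (cc0 a₀ - cc0 a₁))) 0 0 0 0 ∈ R1 t ε := by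
      rw [mk_mem_R1 t ε h2]
      simp
    refine ⟨⟨_, hy₁⟩, ⟨(r : BB t ε) * mk5 t ε a₀ a₁ a₂ b₁ b₂ -
      algebraMap (A2 O) (BB t ε) (CC f) *
        mk5 t ε (CC (m * (cc0 a₀ - cc0 a₁))) 0 0 0 0, ?_, ?_⟩, ?_⟩
    · exact (R1 t ε).sub_mem ((R1 t ε).mul_mem r.2.1 hy)
        ((R1 t ε).mul_mem (algebraMap (A2 O) (RR t ε) (CC f)).2.1 hy₁)
    · change c1 t ε _ = c2 t ε _
      rw [map_sub, map_sub, map_mul (c1 t ε), map_mul (c1 t ε), map_mul (c2 t ε), map_mul (c2 t ε),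
        c1_coe, c2_coe, c1_alg, c2_alg,
        c1_mk, c1_mk, c2_mk, c2_mk, hm, h₂]
      ext : 1 <;> simp
      ring
    · apply Subtype.ext
      change (r : BB t ε) * mk5 t ε a₀ a₁ a₂ b₁ b₂ =
        algebraMap (A2 O) (BB t ε) (CC f) *
          mk5 t ε (CC (m * (cc0 a₀ - cc0 a₁))) 0 0 0 0 + (_ - _)
      rw [add_sub_cancel]
  · rw [hcf]
    exact hf
  · rw [hcf]
    exact hOJ
  · rw [hcf]
    exact fun m e => hu (IsUnit.of_mul_eq_one m e)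
  · intro r d
    obtain ⟨p, q, hr⟩ := hr1 r
    let d' : DD t ε := ⟨p, q⟩ * d
    refine ⟨mk5 t ε 0 0 0 (C d'.re) (C d'.im), ?_⟩
    change _ = (e1 t ε r - _) * d
    rw [hr, e1_mk, e2_mk]
    ext : 1 <;> simp [d'] <;> ring
  · intro m
    refine ⟨mk5 t ε 0 0 (CC m) 0 0, ?_⟩
    rw [hcf, e1_mk, e2_mk]
    ext : 1
    · simp [hε, pow_two]
      linear_combination (- C f ^ 2 * C m) * h2'
    · simp [pow_two]
      linear_combination (C m) * h2'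
  · rintro ⟨a₀, ⟨a₁, a₂⟩, ⟨b₁, b₂⟩⟩
    change constantCoeff (e1 t ε (mk5 t ε a₀ a₁ a₂ b₁ b₂) -
      e2 t ε (mk5 t ε a₀ a₁ a₂ b₁ b₂)).im = 0
    rw [e1_mk, e2_mk]
    simp
    linear_combination (constantCoeff (constantCoeff a₂)) * h2
  · intro r d
    obtain ⟨p, q, hr⟩ := hr1 r
    change constantCoeff (e1 t ε r * d).im = _ * constantCoeff d.im
    rw [hr]
    simp
  · intro m
    simp [cb]
  · rw [hcf, pow_two, QuadraticAlgebra.omega_mul_omega_eq_mk]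
    ext : 1 <;> simp [pow_two, hε]

section proj

variable {O' : Type} [CommRing O'] (p : O →+* O') {t : O} {ε : O} {t' ε' : O'}

/-- Base change on power series in two variables. -/
def mA : A2 O →+* A2 O' := map (map p)

lemma mA_CC (a : O) : mA p (CC a) = CC (p a) := by simp [mA, CC_apply]

lemma cc_mA (a : A2 O) : constantCoeff (mA p a) = map p (constantCoeff a) := cc_map _ _

lemma cc0_mA (a : A2 O) : cc0 (mA p a) = p (cc0 a) := by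
  rw [cc0_apply, cc_mA, cc_map, cc0_apply]

/-- Base change on the normalisation. -/
def mB (ht : p t = t') (hε : p ε = ε') : BB t ε →+* BB t' ε' :=
  RingHom.prodMap (mA p) (qmap (qmap (mA p) (by rw [mA_CC, ht]) (by rw [mA_CC, hε]))
    (by ext : 1 <;> simp [mA]) (by ext : 1 <;> simp [mA]))

lemma mB_mk (ht : p t = t') (hε : p ε = ε') (a₀ a₁ a₂ b₁ b₂ : A2 O) :
    mB p ht hε (mk5 t ε a₀ a₁ a₂ b₁ b₂) =
      mk5 t' ε' (mA p a₀) (mA p a₁) (mA p a₂) (mA p b₁) (mA p b₂) := rfl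

lemma mB_mem (h2 : (2 : O) = 0) (ht : p t = t') (hε : p ε = ε') (r : RR t ε) :
    mB p ht hε r ∈ RR t' ε' := by
  obtain ⟨⟨a₀, ⟨a₁, a₂⟩, ⟨b₁, b₂⟩⟩, hr⟩ := r
  change mB p ht hε (mk5 t ε a₀ a₁ a₂ b₁ b₂) ∈ _
  have hr' : mk5 t ε a₀ a₁ a₂ b₁ b₂ ∈ RR t ε := hr
  rw [mk_mem_RR, mk_mem_R1 t ε h2] at hr'
  obtain ⟨⟨h₁, h₂⟩, h₃, h₄⟩ := hr'
  rw [mB_mk, mk_mem_RR, mk_mem_R1 t' ε' (two_eq_zero p h2), cc_mA, cc_mA, cc_mA, cc0_mA, cc0_mA,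
    cc0_mA, h₂, h₃, h₄, map_zero, map_zero]
  refine ⟨⟨?_, rfl⟩, rfl, rfl⟩
  have := congrArg (map p) h₁
  simpa [hε] using this

/-- Base change on the glued ring. -/
def mR (h2 : (2 : O) = 0) (ht : p t = t') (hε : p ε = ε') : RR t ε →+* RR t' ε' :=
  ((mB p ht hε).comp (RR t ε).val.toRingHom).codRestrict (RR t' ε') (mB_mem p h2 ht hε)

lemma mR_surj (h2 : (2 : O) = 0) (ht : p t = t') (hε : p ε = 0) (s : O' →+* O)
    (hs : ∀ o, p (s o) = o) : Function.Surjective (mR p h2 ht hε) := by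
  have hs1 : ∀ a : O'⟦X⟧, map p (map s a) = a := fun a => by
    ext n
    rw [coeff_map, coeff_map, hs]
  have hs2 : ∀ a : A2 O', mA p (mA s a) = a := fun a => by
    refine PowerSeries.ext fun n => ?_
    rw [mA, mA, coeff_map, coeff_map, hs1]
  rintro ⟨⟨a₀, ⟨a₁, a₂⟩, ⟨b₁, b₂⟩⟩, hr⟩
  have hr' : mk5 t' 0 a₀ a₁ a₂ b₁ b₂ ∈ RR t' 0 := hr
  rw [mk_mem_RR, mk_mem_R1 t' 0 (two_eq_zero p h2)] at hr'
  obtain ⟨⟨h₁, h₂⟩, h₃, h₄⟩ := hr'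
  rw [map_zero, zero_mul] at h₁
  have h₅ := ps_X_reg _ h₁
  obtain ⟨e, he⟩ := ps_div (a := constantCoeff a₂) h₄
  refine ⟨⟨mk5 t ε (mA s a₀) (mA s a₁) (mA s a₂) (mA s b₁ + C (C ε * map s e)) (mA s b₂), ?_⟩,
    Subtype.ext ?_⟩
  · rw [mk_mem_RR, mk_mem_R1 t ε h2, map_add, cc_mA, cc_mA, cc_mA, cc0_mA, cc0_mA, cc0_mA, h₂, h₃,
      h₄, h₅, he]
    simp
    ring
  · change mB p ht hε (mk5 t ε _ _ _ _ _) = mk5 t' 0 a₀ a₁ a₂ b₁ b₂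
    rw [mB_mk, map_add, hs2, hs2, hs2, hs2, hs2]
    refine mk5_congr t' 0 rfl rfl rfl ?_ rfl
    simp [mA, hε]

lemma mR_ker (h2 : (2 : O) = 0) (ht : p t = t') (hε : p ε = ε') (f : O) (hpf : p f = 0)
    (hf : ∀ m, f * m = 0 → m = 0) (hk : ∀ o, p o = 0 → ∃ o', o = f * o') :
    RingHom.ker (mR p h2 ht hε) = Ideal.span {algebraMap (A2 O) (RR t ε) (CC f)} := by
  have hk2 : ∀ a : A2 O, mA p a = 0 → ∃ a', a = CC f * a' :=
    ps_ker (map p) (C f) (ps_ker p f hk)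
  apply le_antisymm
  · rintro ⟨⟨a₀, ⟨a₁, a₂⟩, ⟨b₁, b₂⟩⟩, hr⟩ h
    have h' : mB p ht hε (mk5 t ε a₀ a₁ a₂ b₁ b₂) = mk5 t' ε' 0 0 0 0 0 := congrArg Subtype.val h
    rw [mB_mk] at h'
    obtain ⟨e₀, e₁, e₂, e₃, e₄⟩ := mk5_inj t' ε' h'
    obtain ⟨a₀, rfl⟩ := hk2 _ e₀
    obtain ⟨a₁, rfl⟩ := hk2 _ e₁
    obtain ⟨a₂, rfl⟩ := hk2 _ e₂
    obtain ⟨b₁, rfl⟩ := hk2 _ e₃
    obtain ⟨b₂, rfl⟩ := hk2 _ e₄
    have hr' : algebraMap (A2 O) (BB t ε) (CC f) * mk5 t ε a₀ a₁ a₂ b₁ b₂ ∈ RR t ε := by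
      rw [alg_mul]
      exact hr
    have hm : mk5 t ε a₀ a₁ a₂ b₁ b₂ ∈ RR t ε :=
      ⟨R1_sat t ε (a := CC f) (by rw [cc_CC]; exact ps_C_reg hf) _ hr'.1,
        c12_sat t ε (a := CC f) (by rw [cc0_CC]; exact hf) _ hr'.2⟩
    rw [Ideal.mem_span_singleton]
    exact ⟨⟨_, hm⟩, Subtype.ext (alg_mul t ε _ _ _ _ _ _).symm⟩
  · rw [Ideal.span_le, Set.singleton_subset_iff]
    apply Subtype.ext
    change mB p ht hε (mk5 t ε (CC f) (CC f) 0 0 0) = mk5 t' ε' 0 0 0 0 0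
    rw [mB_mk, mA_CC, hpf, map_zero, map_zero]

end proj

end Pool.Agent.Work.MP_34c70a_al
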