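import Pool.Agent.Work.MP_34c70a_al.Ring

/-!
The special fibre has injective Frobenius action on local cohomology.
-/

set_option autoImplicit false

open PowerSeries CategoryTheory Pool.Agent.Lib.LocalCoh

noncomputable section

namespace Pool.Agent.Work.MP_34c70a_al

variable {k : Type} [Field k] (t : k)

lemma sq_mk (h2 : (2 : k) = 0) (a₀ a₁ a₂ b₁ b₂ : A2 k) :
    mk5 t 0 a₀ a₁ a₂ b₁ b₂ ^ 2 =
      mk5 t 0 (a₀ ^ 2) (a₁ ^ 2 + CC t * a₂ ^ 2 + X * (b₁ ^ 2 + CC t * b₂ ^ 2)) 0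
        (C X * (b₁ ^ 2 + CC t * b₂ ^ 2)) 0 := by
  have h2' : (2 : A2 k) = 0 := two_eq_zero CC h2
  rw [pow_two]
  refine Prod.ext (by simp [pow_two]) ?_
  refine QuadraticAlgebra.ext (QuadraticAlgebra.ext ?_ ?_) (QuadraticAlgebra.ext ?_ ?_)
  · simp
    ring
  · simp
    linear_combination (a₁ * a₂ + X * b₁ * b₂) * h2'
  · simp
    linear_combination (a₁ * b₁ + CC t * a₂ * b₂) * h2'
  · simp
    linear_combination (a₁ * b₂ + a₂ * b₁ + C X * b₁ * b₂) * h2'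

lemma mem_R1_zero (h2 : (2 : k) = 0) (a₀ a₁ a₂ b₁ b₂ : A2 k) :
    mk5 t 0 a₀ a₁ a₂ b₁ b₂ ∈ R1 t 0 ↔ constantCoeff b₁ = 0 ∧ constantCoeff b₂ = 0 := by
  rw [mk_mem_R1 t 0 h2, map_zero, zero_mul]
  exact ⟨fun h => ⟨ps_X_reg _ h.1, h.2⟩, fun h => ⟨by rw [h.1, mul_zero], h.2⟩⟩

lemma par_mem (h2 : (2 : k) = 0) (a₀ a₁ a₂ c₁ c₂ : A2 k) :
    mk5 t 0 a₀ a₁ a₂ (X * c₁) (X * c₂) ∈ R1 t 0 := by
  rw [mem_R1_zero t h2]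
  simp

lemma par_surj (h2 : (2 : k) = 0) (u : R1 t 0) :
    ∃ a₀ a₁ a₂ c₁ c₂, (u : BB t 0) = mk5 t 0 a₀ a₁ a₂ (X * c₁) (X * c₂) := by
  obtain ⟨⟨a₀, ⟨a₁, a₂⟩, ⟨b₁, b₂⟩⟩, hu⟩ := u
  obtain ⟨h₁, h₂⟩ := (mem_R1_zero t h2 a₀ a₁ a₂ b₁ b₂).1 hu
  obtain ⟨c₁, rfl⟩ := ps_div h₁
  obtain ⟨c₂, rfl⟩ := ps_div h₂
  exact ⟨a₀, a₁, a₂, c₁, c₂, rfl⟩

lemma inc_alg {O : Type} [CommRing O] (t ε : O) (a : A2 O) :
    (R1 t ε).subtype (inc t ε (algebraMap (A2 O) (RR t ε) a)) = algebraMap (A2 O) (BB t ε) a := rfl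

lemma mk5_congr {O : Type} [CommRing O] (t ε : O) {a₀ a₁ a₂ b₁ b₂ a₀' a₁' a₂' b₁' b₂' : A2 O}
    (h₀ : a₀ = a₀') (h₁ : a₁ = a₁') (h₂ : a₂ = a₂') (h₃ : b₁ = b₁') (h₄ : b₂ = b₂') :
    mk5 t ε a₀ a₁ a₂ b₁ b₂ = mk5 t ε a₀' a₁' a₂' b₁' b₂' := by
  rw [h₀, h₁, h₂, h₃, h₄]

lemma span_lemma (h2 : (2 : k) = 0) (u : R1 t 0) (a₀ a₁ a₂ c₁ c₂ : A2 k)
    (hu : (u : BB t 0) = mk5 t 0 a₀ a₁ a₂ (X * c₁) (X * c₂))
    (h₀ : cc0 a₀ = 0) (h₁ : cc0 a₁ = 0) (h₂ : cc0 a₂ = 0) (h₃ : cc0 c₁ = 0) (h₄ : cc0 c₂ = 0) :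
    ∃ n₁ n₂ : R1 t 0, u = inc t 0 (algebraMap (A2 k) (RR t 0) X) * n₁ +
      inc t 0 (algebraMap (A2 k) (RR t 0) (C X)) * n₂ := by
  obtain ⟨p₀, q₀, rfl⟩ := cc0_dec h₀
  obtain ⟨p₁, q₁, rfl⟩ := cc0_dec h₁
  obtain ⟨p₂, q₂, rfl⟩ := cc0_dec h₂
  obtain ⟨p₃, q₃, rfl⟩ := cc0_dec h₃
  obtain ⟨p₄, q₄, rfl⟩ := cc0_dec h₄
  refine ⟨⟨_, par_mem t h2 p₀ p₁ p₂ p₃ p₄⟩, ⟨_, par_mem t h2 q₀ q₁ q₂ q₃ q₄⟩, Subtype.ext ?_⟩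
  change (u : BB t 0) = algebraMap (A2 k) (BB t 0) X * mk5 t 0 p₀ p₁ p₂ (X * p₃) (X * p₄) +
    algebraMap (A2 k) (BB t 0) (C X) * mk5 t 0 q₀ q₁ q₂ (X * q₃) (X * q₄)
  rw [hu, alg_mul, alg_mul, mk5_add]
  exact mk5_congr t 0 rfl rfl rfl (by ring) (by ring)

theorem finj_S (h2 : (2 : k) = 0) (ht : NS t) (F : RR t 0 →+* RR t 0) (hF : ∀ x, F x = x ^ 2)
    (φ : ModuleCat.of (RR t 0) (RR t 0) ⟶
      (ModuleCat.restrictScalars F).obj (ModuleCat.of (RR t 0) (RR t 0)))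
    (hφ : ∀ x : RR t 0, φ.hom x = F x) (i : ℕ) :
    Inj (IsLocalRing.maximalIdeal (RR t 0)) i φ := by
  have hA : NS (CC t : A2 k) := ps_NS (ps_NS ht)
  have hx : ∀ m : A2 k, C X * m = 0 → m = 0 := ps_C_reg ps_X_reg
  have hmax : ∀ r ∈ IsLocalRing.maximalIdeal (RR t 0), c0 t 0 r = 0 := fun r hr => by
    rw [mem_max, isUnit_iff_ne_zero, not_not] at hr
    exact hr
  refine finj_of _ (RR_two t 0 h2) (inc t 0) (inc_inj t 0) (algebraMap (A2 k) (RR t 0) X)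
    (algebraMap (A2 k) (RR t 0) (C X)) ?_ ?_ ?_ ?_ ?_ ?_ ?_ ?_ F hF φ hφ i
  · rw [mem_max, c0_alg, cc0_W]
    exact not_isUnit_zero
  · rw [mem_max, c0_alg, cc0_x]
    exact not_isUnit_zero
  · rintro ⟨⟨a₀, ⟨a₁, a₂⟩, ⟨b₁, b₂⟩⟩, hs⟩ e
    have e' : mk5 t 0 a₀ a₁ a₂ b₁ b₂ ^ 2 = mk5 t 0 0 0 0 0 0 := congrArg Subtype.val e
    rw [sq_mk t h2] at e'
    obtain ⟨e₀, e₁, -, e₃, -⟩ := mk5_inj t 0 e'
    have e₄ := hx _ e₃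
    rw [e₄, mul_zero, add_zero] at e₁
    obtain ⟨rfl, rfl⟩ := hA _ _ e₁
    obtain ⟨rfl, rfl⟩ := hA _ _ e₄
    obtain rfl := (pow_eq_zero_iff two_ne_zero).1 e₀
    rfl
  · refine sub_R2 _ _ _ (BB_R2 t 0 A2_R2) (fun n hn => R1_sat t 0 (a := C X) ?_ n hn)
    rw [constantCoeff_C]
    exact ps_X_reg
  · intro u m₁ m₂ e
    obtain ⟨a₀, a₁, a₂, c₁, c₂, hu⟩ := par_surj t h2 u
    obtain ⟨p₀, p₁, p₂, p₃, p₄, hp⟩ := par_surj t h2 m₁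
    obtain ⟨q₀, q₁, q₂, q₃, q₄, hq⟩ := par_surj t h2 m₂
    have e' := congrArg (R1 t 0).subtype e
    simp only [map_add, map_mul, map_pow, inc_alg] at e'
    simp only [Subring.subtype_apply] at e'
    rw [hu, hp, hq, sq_mk t h2, ← map_pow, ← map_pow, alg_mul, alg_mul, mk5_add] at e'
    obtain ⟨e₀, e₁, -, e₃, -⟩ := mk5_inj t 0 e'
    have f₀ := congrArg cc0 e₀
    have f₁ := congrArg cc0 e₁
    simp only [map_add, map_mul, map_pow, cc0_W, cc0_x, cc0_CC] at f₀ f₁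
    have g₀ : cc0 a₀ = 0 := (pow_eq_zero_iff two_ne_zero).1 (by linear_combination f₀)
    have g₁ := ht (cc0 a₁) (cc0 a₂) (by linear_combination f₁)
    have e₄ : X * (C X * (c₁ ^ 2 + CC t * c₂ ^ 2)) - (X ^ 2 * p₃ + C X ^ 2 * q₃) = 0 :=
      ps_X_reg _ (by linear_combination e₃)
    have f₄ := congrArg (coeff 1) (sub_eq_zero.1 e₄)
    rw [coeff_succ_X_mul, map_add, coeff_X_pow_mul', if_neg (by norm_num), zero_add, ← map_pow,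
      coeff_C_mul, coeff_C_mul, coeff_zero_eq_constantCoeff_apply] at f₄
    have f₅ : constantCoeff (c₁ ^ 2 + CC t * c₂ ^ 2) - X * coeff 1 q₃ = 0 :=
      ps_X_reg _ (by linear_combination f₄)
    have f₆ := congrArg constantCoeff f₅
    simp only [map_add, map_mul, map_pow, map_sub, cc_CC, constantCoeff_C, constantCoeff_X,
      zero_mul, sub_zero, map_zero] at f₆
    have g₂ := ht (cc0 c₁) (cc0 c₂) f₆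
    exact span_lemma t h2 u _ _ _ _ _ hu g₀ g₁.1 g₁.2 g₂.1 g₂.2
  · intro r hr
    obtain ⟨a₀, a₁, a₂, c₁, c₂, hu⟩ := par_surj t h2 (inc t 0 r)
    have hu' : (r : BB t 0) = mk5 t 0 a₀ a₁ a₂ (X * c₁) (X * c₂) := hu
    have hm := r.2
    rw [hu', mk_mem_RR] at hm
    have h0 : cc0 a₀ = 0 := by
      have := hmax r hr
      change cc0 (r : BB t 0).1 = 0 at this
      rwa [hu'] at this
    refine span_lemma t h2 _ (a₀ ^ 2)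
      (a₁ ^ 2 + CC t * a₂ ^ 2 + X * ((X * c₁) ^ 2 + CC t * (X * c₂) ^ 2)) 0
      (C X * (X * (c₁ ^ 2 + CC t * c₂ ^ 2))) 0 ?_ ?_ ?_ ?_ ?_ ?_
    · change (r : BB t 0) ^ 2 = _
      rw [hu', sq_mk t h2]
      exact mk5_congr t 0 rfl rfl rfl (by ring) (by ring)
    · simp [h0]
    · simp [← hm.2.1, h0, hm.2.2]
    · simp
    · simp
    · simp
  · rintro ⟨⟨a₀, ⟨a₁, a₂⟩, ⟨b₁, b₂⟩⟩, hv⟩ s e
    have e' : (s : BB t 0) = mk5 t 0 a₀ a₁ a₂ b₁ b₂ ^ 2 := congrArg Subtype.val e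
    have hm := s.2
    rw [e', sq_mk t h2, mk_mem_RR] at hm
    have f₁ := hm.2.1
    simp only [map_add, map_mul, map_pow, cc0_W, cc0_CC] at f₁
    have g := ht (cc0 a₁ - cc0 a₀) (cc0 a₂)
      (by linear_combination (cc0 a₀ ^ 2 - cc0 a₀ * cc0 a₁) * h2 - f₁)
    exact ⟨⟨mk5 t 0 a₀ a₁ a₂ b₁ b₂, (mk_mem_RR t 0 _ _ _ _ _).2
      ⟨hv, (sub_eq_zero.1 g.1).symm, g.2⟩⟩, rfl⟩
  · intro v r hr
    refine ⟨⟨(r : BB t 0) * v, (inc t 0 r * v).2, ?_⟩, rfl⟩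
    change c1 t 0 ((r : BB t 0) * v) = c2 t 0 ((r : BB t 0) * v)
    rw [map_mul, map_mul, c1_coe, c2_coe, hmax r hr, map_zero, zero_mul, zero_mul]

end Pool.Agent.Work.MP_34c70a_al
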